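import Pool.Agent.PWG.St
import Pool.Agent.PWL.Frt

/-!
# Campaign PWG: the products of the letters of the tail, first entry unchanged (helper65)
-/

set_option autoImplicit false

open scoped BigOperators

namespace Pool.Agent.PWG

open Pool.Agent.PW Pool.Agent.PWM Pool.Agent.PWB Pool.Agent.PWX Pool.Agent.PWF Pool.Agent.PWL
  Pool.Agent.PWY Pool.Agent.PWE
open scoped Classical

private theorem Cuf_Ds {G : Type} [Group G] (H : Subgroup G) (x : G) (xs : List G) (d : G)
    (h : d ∈ Ds H (x :: xs)) : d ∈ Ds H xs ∨ ∃ d' ∈ Ds H xs, d' * x = d := by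
  unfold Ds at h
  by_cases hx : x ∈ H
  · rw [if_pos hx, Finset.mem_union, Finset.mem_image] at h
    exact h
  · rw [if_neg hx] at h
    exact Or.inl h

theorem thm_Cuf : St_Cuf := by
  intro G _ T
  obtain ⟨h1, h2, _⟩ := Pool.Agent.PWL.thm_Frt
  obtain ⟨brefl, btr, _, bapp, _, _, _⟩ := Pool.Agent.PWH.bBas
  induction T with
  | nil =>
    intro P p d hd
    have hd1 : d = 1 := Finset.mem_singleton.1 hd
    exact ⟨p, P ++ [], brefl _, by rw [hd1, one_mul], rfl⟩
  | cons t ts ih =>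
    intro P p d hd
    rcases Cuf_Ds ⊤ t.2 (ts.map Prod.snd) d hd with h | ⟨d', hd', rfl⟩
    · obtain ⟨p', P', h3, h4, h5⟩ := ih (P ++ [t]) p d h
      refine ⟨p', P', ?_, h4, h5⟩
      have e : p :: (P ++ t :: ts) = p :: (P ++ [t] ++ ts) := by simp
      rw [e]
      exact h3
    · have e1 : LG (P ++ t :: ts) (t :: (P.map (cj (dd t)⁻¹) ++ ts)) := h1 P ts t
      have e2 : LG (p :: (P ++ t :: ts)) (p :: t :: (P.map (cj (dd t)⁻¹) ++ ts)) := by
        have h := bapp [p] _ _ [] e1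
        rw [List.append_nil, List.append_nil] at h
        exact h
      have e3 : LG (p :: t :: (P.map (cj (dd t)⁻¹) ++ ts))
          ((mg p t).1 :: (mg p t).2 :: (P.map (cj (dd t)⁻¹) ++ ts)) :=
        bapp [] [p, t] [(mg p t).1, (mg p t).2] (P.map (cj (dd t)⁻¹) ++ ts) (h2 p t).1
      obtain ⟨p', P', h3, h4, h5⟩ := ih ((mg p t).2 :: P.map (cj (dd t)⁻¹)) (mg p t).1 d' hd'
      refine ⟨p', P', btr _ _ _ e2 (btr _ _ _ e3 h3), ?_, ?_⟩
      · rw [h4, (h2 p t).2, mul_assoc]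
      · rw [h5]
        rfl

end Pool.Agent.PWG
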