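import Pool.Agent.PWG.St
import Pool.Agent.PWF.Rea

/-!
# PWG Reb: the moves on lists are realised by mapping classes which fix the boundary word
-/

set_option autoImplicit false

namespace Pool.Agent.PWG

open Pool.Agent.PW Pool.Agent.PWM Pool.Agent.PWB Pool.Agent.PWX Pool.Agent.PWF Pool.Agent.PWL
  Pool.Agent.PWY Pool.Agent.PWE
open scoped Classical

theorem Reb_MB_mk {g n : ℕ} {φ : MulAut (F g n)} (h1 : φ ∈ MCG g n)
    (h2 : φ (bdry g n) = bdry g n) : φ ∈ MB g n := ⟨h1, h2⟩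

theorem Reb_Sw {g n : ℕ} {i j : Fin g} (h : (j : ℕ) = i + 1) : Sw (n := n) i j h ∈ MB g n :=
  Reb_MB_mk (Sw_mem h) (Sw_bdry h)

theorem Reb_rr {g n : ℕ} (i : Fin g) : rr (n := n) i ∈ MB g n :=
  Reb_MB_mk (rr_mem i) (rr_bdry i)

theorem Reb_e1 {g n : ℕ} (i : Fin g) (k : ℤ) : e1 (n := n) i k ∈ MB g n :=
  Reb_MB_mk (e1_mem i k) (e1_bdry i k)

theorem Reb_psh {g n : ℕ} {i j : Fin g} (h : (i : ℕ) < j) (k : ℤ) :
    psh (n := n) i j h k ∈ MB g n :=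
  Reb_MB_mk (psh_mem h k) (ph_bdry h k)

theorem Reb_Sl {g n : ℕ} (i j : Fin g) (h : (i : ℕ) < j) : Sl (n := n) i j h ∈ MB g n :=
  (MB g n).mul_mem ((MB g n).mul_mem ((MB g n).mul_mem (Reb_rr j) (Reb_psh h _))
    ((MB g n).inv_mem (Reb_rr j))) (Reb_e1 i _)

theorem Reb_Sl_c {g n : ℕ} (i j : Fin g) (h : (i : ℕ) < j) (l : Fin n) :
    Sl i j h (gc l) = gc l := by
  unfold Sl
  simp only [MulAut.mul_apply, e1_c, rri_c, psh_apply, ph_c, rr_c]

theorem Reb_Sw_c {g n : ℕ} {i j : Fin g} (h : (j : ℕ) = i + 1) (l : Fin n) :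
    (Sw i j h)⁻¹ (gc l) = gc l := inv_of_fix _ (Sw_c h l)

variable {Q : Type} [Group Q]

theorem Reb_step {g n : ℕ} (ρ : F g n →* Q) {y : ℕ → Q × Q} (h : Step 0 g (vls ρ) y) :
    ∃ φ ∈ MB g n, vls (ρ.comp (MulEquiv.toMonoidHom φ)) = y ∧ ∀ j, φ (gc j) = gc j := by
  cases h with
  | swap m _ hm =>
    have hm' : m < g := by omega
    have hj : ((⟨m + 1, hm⟩ : Fin g) : ℕ) = ((⟨m, hm'⟩ : Fin g) : ℕ) + 1 := rfl
    refine ⟨(Sw _ _ hj)⁻¹, (MB g n).inv_mem (Reb_Sw hj), ?_, fun j => Reb_Sw_c hj j⟩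
    funext l
    by_cases hl : l < g
    · rw [vls_lt _ hl, vls_lt _ hm, vls_lt _ hm']
      show (ρ ((Sw _ _ hj)⁻¹ (ga ⟨l, hl⟩)), ρ ((Sw _ _ hj)⁻¹ (gb ⟨l, hl⟩))) = _
      by_cases e1 : l = m + 1
      · subst e1
        rw [Function.update_self, Sw_inv_aj, Sw_inv_bj]
        simp only [cj, dd, PWM.dl, cm, map_mul, map_inv, inv_inv]
      · rw [Function.update_of_ne e1]
        by_cases e2 : l = m
        · subst e2
          rw [Function.update_self, Sw_inv_ai, Sw_inv_bi]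
        · have h1 : (⟨l, hl⟩ : Fin g) ≠ ⟨m, hm'⟩ := fun h => e2 (Fin.mk.inj_iff.1 h)
          have h2 : (⟨l, hl⟩ : Fin g) ≠ ⟨m + 1, hm⟩ := fun h => e1 (Fin.mk.inj_iff.1 h)
          rw [Function.update_of_ne e2, inv_of_fix _ (Sw_a' hj h1 h2),
            inv_of_fix _ (Sw_b' hj h1 h2), vls_lt _ hl]
    · rw [vls_ge _ hl, Function.update_of_ne (by omega), Function.update_of_ne (by omega),
        vls_ge _ hl]
  | rot m _ hm =>
    refine ⟨(rr ⟨m, hm⟩)⁻¹, (MB g n).inv_mem (Reb_rr _), ?_, fun j => rri_c _ j⟩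
    funext l
    by_cases hl : l < g
    · rw [vls_lt _ hl, vls_lt _ hm]
      show (ρ ((rr ⟨m, hm⟩)⁻¹ (ga ⟨l, hl⟩)), ρ ((rr ⟨m, hm⟩)⁻¹ (gb ⟨l, hl⟩))) = _
      by_cases e2 : l = m
      · subst e2
        rw [Function.update_self, rri_a, rri_b]
        simp only [rt, map_mul, map_inv]
      · have h1 : (⟨l, hl⟩ : Fin g) ≠ ⟨m, hm⟩ := fun h => e2 (Fin.mk.inj_iff.1 h)
        rw [Function.update_of_ne e2, rri_a' h1, rri_b' h1, vls_lt _ hl]
    · rw [vls_ge _ hl, Function.update_of_ne (by omega), vls_ge _ hl]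
  | slide m _ hm =>
    have hm' : m < g := by omega
    have hj : ((⟨m + 1, hm⟩ : Fin g) : ℕ) = ((⟨m, hm'⟩ : Fin g) : ℕ) + 1 := rfl
    have hlt : ((⟨m, hm'⟩ : Fin g) : ℕ) < ((⟨m + 1, hm⟩ : Fin g) : ℕ) := by
      rw [hj]
      exact Nat.lt_succ_self _
    refine ⟨Sl _ _ hlt, Reb_Sl _ _ hlt, ?_, fun j => Reb_Sl_c _ _ hlt j⟩
    funext l
    by_cases hl : l < g
    · rw [vls_lt _ hl, vls_lt _ hm, vls_lt _ hm']
      show (ρ (Sl _ _ hlt (ga ⟨l, hl⟩)), ρ (Sl _ _ hlt (gb ⟨l, hl⟩))) = _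
      by_cases e1 : l = m + 1
      · subst e1
        rw [Function.update_self, Sl_aj hj, Sl_bj hj]
        simp only [tv, map_mul, map_inv]
      · rw [Function.update_of_ne e1]
        by_cases e2 : l = m
        · subst e2
          rw [Function.update_self, Sl_ai hj, Sl_bi hj]
          simp only [tv, map_mul, map_inv]
        · have h1 : (⟨l, hl⟩ : Fin g) ≠ ⟨m, hm'⟩ := fun h => e2 (Fin.mk.inj_iff.1 h)
          have h2 : (⟨l, hl⟩ : Fin g) ≠ ⟨m + 1, hm⟩ := fun h => e1 (Fin.mk.inj_iff.1 h)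
          rw [Function.update_of_ne e2, Sl_a' hj _ h1 h2, Sl_b' hj _ h1 h2, vls_lt _ hl]
    · rw [vls_ge _ hl, Function.update_of_ne (by omega), Function.update_of_ne (by omega),
        vls_ge _ hl]

theorem Reb_real {g n : ℕ} (ρ : F g n →* Q) {y : ℕ → Q × Q} (h : Go 0 g (vls ρ) y) :
    ∃ φ ∈ MB g n, vls (ρ.comp (MulEquiv.toMonoidHom φ)) = y ∧ ∀ j, φ (gc j) = gc j := by
  induction h with
  | refl => exact ⟨1, (MB g n).one_mem, rfl, fun j => rfl⟩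
  | tail _ h2 ih =>
    obtain ⟨φ, hφ, h3, h5⟩ := ih
    rw [← h3] at h2
    obtain ⟨ψ, hψ, h4, h6⟩ := Reb_step _ h2
    refine ⟨φ * ψ, (MB g n).mul_mem hφ hψ, h4, fun j => ?_⟩
    rw [MulAut.mul_apply, h6, h5]

/-- **(Reb)** The moves on lists are realised by mapping classes which fix the boundary word and
the letters `gc j`. -/
theorem thm_Reb : St_Reb := by
  intro Q _ g n m k ρ l' hmk h
  obtain ⟨hlen, h⟩ := h
  obtain ⟨y, hGo, hAt⟩ := h m (vls ρ) (Rea_at ρ m k)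
  rw [Rea_len] at hGo hlen
  obtain ⟨φ, hφ, hv, hc⟩ := Reb_real ρ (hGo.mono (Nat.zero_le m) hmk)
  refine ⟨φ, hφ, ?_, ?_, hc⟩
  · refine List.ext_getElem ?_ ?_
    · rw [Rea_len, hlen]
    · intro i h1 h2
      rw [← hAt i h2, ← hv]
      simp [lst]
  · intro l hl
    rw [hv]
    exact hGo.out hl

end Pool.Agent.PWG
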