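import Pool.Agent.PWG.StC

/-!
# PWG, module Adx: additive extension of an invariant class (offer 16701, helper26)

`thm_Adx : St_Adx` (adapted from the first part of PWK/EXT).
-/

set_option autoImplicit false

open scoped BigOperators

namespace Pool.Agent.PWG

open Pool.Agent.PW

/-- equality modulo `N` -/
private theorem Adx_mod {g n : ℕ} {N : Subgroup (F g n)} (hN : N.Normal) (x y : F g n) :
    QuotientGroup.mk' N x = QuotientGroup.mk' N y ↔ x * y⁻¹ ∈ N := by
  rw [QuotientGroup.mk'_apply, QuotientGroup.mk'_apply, QuotientGroup.eq]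
  constructor
  · intro h
    have := N.inv_mem (hN.conj_mem _ h y)
    have e : (y * (x⁻¹ * y) * y⁻¹)⁻¹ = x * y⁻¹ := by group
    rwa [e] at this
  · intro h
    have := hN.conj_mem _ (N.inv_mem h) y⁻¹
    have e : y⁻¹ * (x * y⁻¹)⁻¹ * y⁻¹⁻¹ = x⁻¹ * y := by group
    rwa [e] at this

/-- **Adx** -/
theorem thm_Adx : St_Adx := by
  classical
  intro g n N M f h hNM hinv
  have hN := h.normal
  have hF := h.fin
  have hft : Fintype (F g n ⧸ N) := Fintype.ofFinite _
  obtain ⟨L, hL, hLN⟩ := exists_exp hN hF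
  have hL0 : (L : ℚ) ≠ 0 := by exact_mod_cast hL.ne'
  -- the weights
  let Z : Subgroup (F g n ⧸ N) := M.map (QuotientGroup.mk' N)
  have hZ : ∀ y : F g n, (y : F g n ⧸ N) ∈ Z ↔ y ∈ M := by
    intro y
    constructor
    · rintro ⟨m, hm, hmy⟩
      have h1 := (Adx_mod hN m y).1 hmy
      have h2 := M.mul_mem (M.inv_mem (hNM h1)) hm
      have e : (m * y⁻¹)⁻¹ * m = y := by group
      rwa [e] at h2
    · intro hy
      exact ⟨y, hy, rfl⟩
  let H : F g n ⧸ N → ℚ := fun q => if q ∈ Z then 1 else 0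
  have hkp : M ≤ kp H := by
    intro y hy q
    have : q * (y : F g n ⧸ N) ∈ Z ↔ q ∈ Z := Z.mul_mem_cancel_right ((hZ y).2 hy)
    simp only [H, this]
  let C : ℚ := ∑ q : F g n ⧸ N, H q
  have hC : 0 < C := by
    apply Finset.sum_pos'
    · intro q _
      simp only [H]
      split_ifs <;> norm_num
    · refine ⟨1, Finset.mem_univ _, ?_⟩
      simp only [H, Z.one_mem, if_true]
      norm_num
  have htr : ∀ k ∈ N, tr N f H k = C * f k := by
    intro k hk
    rw [tr_mem hk, Finset.sum_mul]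
    refine Finset.sum_congr rfl fun q _ => ?_
    simp only [H]
    split_ifs with hq
    · rw [one_mul, one_mul]
      apply hinv _ _ k hk
      rw [← hZ]
      simpa using hq
    · simp
  let f1 : F g n → ℚ := fun x => f (x ^ L) / L
  have hf1tr : ∀ x ∈ M, f1 x = tr N f H x / C := by
    intro x hx
    have h1 := tr_pow h.add (hkp hx) L
    rw [htr _ (hLN x)] at h1
    show f (x ^ L) / L = tr N f H x / C
    rw [div_eq_div_iff hL0 hC.ne']
    linarith
  have hf1N : ∀ x ∈ N, f1 x = f x := by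
    intro x hx
    show f (x ^ L) / L = f x
    rw [h.add.pow hx L]
    field_simp
  refine ⟨f1, ?_, hf1N⟩
  intro x hx y hy
  rw [hf1tr _ (M.mul_mem hx hy), hf1tr x hx, hf1tr y hy, tr_mul h.add (hkp hx)]
  ring

end Pool.Agent.PWG
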