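import Pool.Agent.PWG.StC

/-!
# Campaign PWG, module Avg: the mean over a group
-/

set_option autoImplicit false

open scoped BigOperators

namespace Pool.Agent.PWG

open Pool.Agent.PW Pool.Agent.PWM Pool.Agent.PWB Pool.Agent.PWX Pool.Agent.PWF Pool.Agent.PWL
  Pool.Agent.PWY Pool.Agent.PWE
open scoped Classical
open Pool.Agent.PWK Pool.Agent.PWI

private lemma Avg_coset {G : Type} [Group G] (N M : Subgroup G) (a : M)
    (j : M ⧸ N.subgroupOf M) :
    ((((a⁻¹ • j).out : M) : G))⁻¹ * ((a : G)⁻¹ * ((j.out : M) : G)) ∈ N := by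
  have h1 : (((a⁻¹ • j).out : M) : M ⧸ N.subgroupOf M) = ((a⁻¹ * j.out : M) : M ⧸ N.subgroupOf M) := by
    rw [QuotientGroup.out_eq']
    conv_lhs => rw [← QuotientGroup.out_eq' j]
    rfl
  have h2 := QuotientGroup.eq.mp h1
  rw [Subgroup.mem_subgroupOf] at h2
  simpa using h2

theorem thm_Avg : St_Avg := by
  intro hCOM g n N M hN f hf hNM hkill v hv hrep
  haveI := hf.good.fin
  haveI hfin : Finite (M ⧸ N.subgroupOf M) := inferInstance
  haveI : Fintype (M ⧸ N.subgroupOf M) := Fintype.ofFinite _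
  let m : (M ⧸ N.subgroupOf M) → F g n := fun j => ((j.out : M) : F g n)
  have hmM : ∀ j, m j ∈ M := fun j => (j.out : M).2
  have hF : ∀ w : F g n, ∀ x ∈ N, ∑ j, (1 : ℚ) * f ((m j * w)⁻¹ * x * (m j * w)) = 0 := by
    intro w
    apply hkill (fun x => ∑ j, (1 : ℚ) * f ((m j * w)⁻¹ * x * (m j * w)))
    · exact hCOM g n N f hf (M ⧸ N.subgroupOf M) (fun _ => 1) (fun j => m j * w)
    · intro a ha x hx
      have hp := Equiv.sum_comp (MulAction.toPerm ((⟨a, ha⟩ : M)⁻¹) : Equiv.Perm (M ⧸ N.subgroupOf M))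
        (fun j => (1 : ℚ) * f ((m j * w)⁻¹ * x * (m j * w)))
      show ∑ j, (1 : ℚ) * f ((m j * w)⁻¹ * (a * x * a⁻¹) * (m j * w)) =
        ∑ j, (1 : ℚ) * f ((m j * w)⁻¹ * x * (m j * w))
      rw [← hp]
      apply Finset.sum_congr rfl
      intro j _
      congr 1
      set j' : M ⧸ N.subgroupOf M := (⟨a, ha⟩ : M)⁻¹ • j with hj'
      have hcos : (m j')⁻¹ * (a⁻¹ * m j) ∈ N := Avg_coset N M ⟨a, ha⟩ j
      have h2 : (((a⁻¹ * m j * w)⁻¹ : F g n) : F g n ⧸ N) = (((m j' * w)⁻¹ : F g n) : F g n ⧸ N) := by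
        rw [QuotientGroup.eq]
        have h3 := hN.conj_mem _ hcos (m j')
        have e : m j' * ((m j')⁻¹ * (a⁻¹ * m j)) * (m j')⁻¹ =
            (a⁻¹ * m j * w)⁻¹⁻¹ * (m j' * w)⁻¹ := by group
        rwa [e] at h3
      have h4 := hf.good.add.conj_eq hx h2
      have e1 : (m j * w)⁻¹ * (a * x * a⁻¹) * (m j * w) =
          (a⁻¹ * m j * w)⁻¹ * x * (a⁻¹ * m j * w)⁻¹⁻¹ := by group
      have e2 : (MulAction.toPerm ((⟨a, ha⟩ : M)⁻¹) : Equiv.Perm (M ⧸ N.subgroupOf M)) j = j' := rfl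
      rw [e1, h4, e2, inv_inv]
  obtain ⟨κ, _, c, w, hvx⟩ := hrep
  funext x
  have hinv : ∀ j, v ⟨(m j)⁻¹ * x * m j, by
      have := hN.conj_mem x.1 x.2 (m j)⁻¹
      rwa [inv_inv] at this⟩ = v x := by
    intro j
    have := congrFun (hv (m j) (hmM j)) x
    exact this
  have hsum : (Fintype.card (M ⧸ N.subgroupOf M) : ℂ) * v x = 0 := by
    have h1 : (Fintype.card (M ⧸ N.subgroupOf M) : ℂ) * v x =
        ∑ j : M ⧸ N.subgroupOf M, v ⟨(m j)⁻¹ * x * m j, by
          have := hN.conj_mem x.1 x.2 (m j)⁻¹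
          rwa [inv_inv] at this⟩ := by
      rw [Finset.sum_congr rfl (fun j _ => hinv j), Finset.sum_const, Finset.card_univ,
        nsmul_eq_mul]
    rw [h1]
    have h2 : ∀ j : M ⧸ N.subgroupOf M, v ⟨(m j)⁻¹ * x * m j, by
          have := hN.conj_mem x.1 x.2 (m j)⁻¹
          rwa [inv_inv] at this⟩ =
        ∑ k, c k * ((f ((m j * w k)⁻¹ * x * (m j * w k)) : ℚ) : ℂ) := by
      intro j
      rw [hvx]
      apply Finset.sum_congr rfl
      intro k _
      have e : (w k)⁻¹ * ((m j)⁻¹ * (x : F g n) * m j) * w k =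
          (m j * w k)⁻¹ * (x : F g n) * (m j * w k) := by group
      show c k * ((f ((w k)⁻¹ * ((m j)⁻¹ * (x : F g n) * m j) * w k) : ℚ) : ℂ) = _
      rw [e]
    rw [Finset.sum_congr rfl (fun j _ => h2 j), Finset.sum_comm]
    apply Finset.sum_eq_zero
    intro k _
    rw [← Finset.mul_sum]
    have h3 := hF (w k) x x.2
    have h4 : ∑ j : M ⧸ N.subgroupOf M, ((f ((m j * w k)⁻¹ * (x : F g n) * (m j * w k)) : ℚ) : ℂ) = 0 := by
      rw [← Rat.cast_sum]
      simp only [one_mul] at h3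
      rw [h3]
      simp
    rw [h4, mul_zero]
  have hc : (Fintype.card (M ⧸ N.subgroupOf M) : ℂ) ≠ 0 := by
    have : 0 < Fintype.card (M ⧸ N.subgroupOf M) := Fintype.card_pos
    exact_mod_cast this.ne'
  exact (mul_eq_zero.mp hsum).resolve_left hc

end Pool.Agent.PWG
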