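import Pool.Agent.PWG.St

/-!
# Campaign PWG, module Blo: three joining blocks, with a mapping class which fixes the boundary word
-/

set_option autoImplicit false

open scoped BigOperators

namespace Pool.Agent.PWG

open Pool.Agent.PW Pool.Agent.PWM Pool.Agent.PWB Pool.Agent.PWX Pool.Agent.PWF Pool.Agent.PWL
  Pool.Agent.PWY Pool.Agent.PWE
open scoped Classical

private theorem Blo_num (l : ℕ) (hl : 1 ≤ l) (g : ℕ) (hg : 340 * l ≤ g) (d : ℕ) (hd : d < 2 ^ l) :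
    (7 / 8 : ℝ) ^ (g - 1) * (d : ℝ) < 1 := by
  have h1 : (7 / 8 : ℝ) ^ (g - 1) ≤ (7 / 8 : ℝ) ^ (6 * l) := by
    apply pow_le_pow_of_le_one (by norm_num) (by norm_num)
    omega
  have h2 : (7 / 8 : ℝ) ^ (6 * l) ≤ (1 / 2) ^ l := by
    rw [pow_mul]
    apply pow_le_pow_left₀ (by norm_num)
    norm_num
  have h3 : (d : ℝ) < 2 ^ l := by exact_mod_cast hd
  have h4 : (0 : ℝ) < (1 / 2) ^ l := by positivity
  calc (7 / 8 : ℝ) ^ (g - 1) * (d : ℝ) ≤ (1 / 2) ^ l * (d : ℝ) :=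
        mul_le_mul_of_nonneg_right (h1.trans h2) (Nat.cast_nonneg _)
    _ < (1 / 2) ^ l * 2 ^ l := mul_lt_mul_of_pos_left h3 h4
    _ = 1 := by
        rw [← mul_pow]
        norm_num

private theorem Blo_lst {Q : Type} [Group Q] {g n : ℕ} (ρ : F g n →* Q) :
    (lst ρ 0 g).map Prod.snd = (gbl g n).map ρ := by
  apply List.ext_getElem
  · simp [lst, gbl]
  · intro i h1 h2
    have hi : i < g := by
      simpa [lst] using h1
    simp [lst, gbl, vls, hi]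

private theorem Blo_block {Q : Type} [Group Q] {g n : ℕ} (ρ : F g n →* Q) (a k : ℕ) :
    (((lst ρ 0 g).drop a).take k).map Prod.snd = (((gbl g n).drop a).take k).map ρ := by
  rw [List.map_take, List.map_drop, Blo_lst, List.map_take, List.map_drop]

/-- (Blo) from the other parts. -/
theorem thm_Blo (hGnv : St_Gnv) (hDch : St_Dch) (hMrg : St_Mrg) (hOrb : St_Orb) (hShf : St_Shf)
    (hTrb : St_Trb) (hPrl : St_Prl) (hNtw : St_Ntw) (hDec : St_Dec) (hGpl : St_Gpl)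
    (hLta : St_Lta) (hLwr : St_Lwr) (hCtr : St_Ctr) (hNum : St_Num) (hPos : St_Pos)
    (hDsp : St_Dsp) (hRed : St_Red) (hExt : St_Ext) : St_Blo := by
  intro g n K hK hg
  have hfin : K.FiniteIndex := ⟨hK⟩
  have hfinQ : Finite (F g n ⧸ K) := Subgroup.finite_quotient_of_finiteIndex
  have hft : Fintype (F g n ⧸ K) := Fintype.ofFinite _
  set l := Nat.log 2 K.index + 1 with hl
  have hl1 : 1 ≤ l := by omega
  have hcard : Fintype.card (F g n ⧸ K) = K.index := by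
    rw [← Nat.card_eq_fintype_card]
    rfl
  have hdl : Fintype.card (F g n ⧸ K) < 2 ^ l := by
    rw [hcard]
    exact Nat.lt_pow_succ_log_self (by norm_num) _
  have hftG : Fintype (Equiv.Perm (F g n ⧸ K)) := Fintype.ofFinite _
  have htr : ∀ w w' : F g n ⧸ K, ∃ x, (pK K) x • w = w' := by
    intro w w'
    obtain ⟨x, hx⟩ := MulAction.exists_smul_eq (F g n) w w'
    exact ⟨x, hx⟩
  obtain ⟨φ, hφ, hφT⟩ := hRed hGnv hDch hMrg hOrb hShf (pK K) htr (by omega)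
    (Blo_num l hl1 g hg _ hdl)
  obtain ⟨L, hL, hJ⟩ := hPos hGnv hDch hMrg hOrb hShf hTrb hPrl hNtw hDec hGpl hLta hLwr hCtr hNum
    (lst ((pK K).comp (MulEquiv.toMonoidHom φ)) 0 g) l hl1 hdl
    (by
      have h : (lst ((pK K).comp (MulEquiv.toMonoidHom φ)) 0 g).length = g := by
        unfold lst
        rw [List.length_map, List.length_range]
      rw [h]
      exact hg) hφT
  obtain ⟨ψ, hψ, hψL, -⟩ := Pool.Agent.PWH.bRea ((pK K).comp (MulEquiv.toMonoidHom φ)) L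
    (by omega) hL
  obtain ⟨Φ, hΦ⟩ : ∃ Φ : MulAut (F g n), Φ = φ * ψ := ⟨_, rfl⟩
  have hΦm : Φ ∈ MCG g n := hΦ ▸ (MCG g n).mul_mem hφ hψ
  have hJΦ : ∀ t, t < 3 → Jn (F g n ⧸ K)
      (((lst ((pK K).comp (MulEquiv.toMonoidHom Φ)) 0 g).drop (1 + t * (64 * l))).take
        (64 * l)) := by
    intro t ht
    have h1 : (pK K).comp (MulEquiv.toMonoidHom Φ) =
        ((pK K).comp (MulEquiv.toMonoidHom φ)).comp (MulEquiv.toMonoidHom ψ) := by
      rw [hΦ]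
      rfl
    rw [h1, hψL]
    exact hJ t ht
  obtain ⟨-, -, hE3, -⟩ := hExt (h := g) (n := n)
  obtain ⟨s, χ, hχ, hχs⟩ := hE3 Φ hΦm
  obtain ⟨-, -, hD3⟩ := hDsp (H := F g n)
  refine ⟨64 * l, χ, by omega, by omega, hχ, ?_⟩
  intro t ht w w'
  obtain ⟨d, hd, hdw⟩ := hJΦ t ht ((s⁻¹ * χ w : F g n) : F g n ⧸ K) ((s⁻¹ * χ w' : F g n) : F g n ⧸ K)
  rw [Blo_block, hD3] at hd
  obtain ⟨x, hx, rfl⟩ := hd
  refine ⟨x, hx, ?_⟩
  have h1 : ((Φ x * (s⁻¹ * χ w) : F g n) : F g n ⧸ K) = ((s⁻¹ * χ w' : F g n) : F g n ⧸ K) := hdw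
  rw [QuotientGroup.eq] at h1
  have h2 := K.inv_mem h1
  rw [Subgroup.mem_comap]
  show χ (w'⁻¹ * (x * w)) ∈ K
  have h3 : χ (w'⁻¹ * (x * w)) = ((Φ x * (s⁻¹ * χ w))⁻¹ * (s⁻¹ * χ w'))⁻¹ := by
    rw [map_mul, map_mul, map_inv, hχs x]
    group
  rw [h3]
  exact h2

end Pool.Agent.PWG
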