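import Pool.Agent.PWG.St

/-!
# Campaign PWG, part Bsc: a subgroup with three good blocks is generated by its based simple curves (helper76)
-/

set_option autoImplicit false

namespace Pool.Agent.PWG

open Pool.Agent.PW Pool.Agent.PWM Pool.Agent.PWB Pool.Agent.PWX Pool.Agent.PWF Pool.Agent.PWL
  Pool.Agent.PWY Pool.Agent.PWE
open scoped Classical

private theorem Bsc_one {G : Type} [Group G] (l : List G) : (1 : G) ∈ Ds (⊤ : Subgroup G) l := by
  induction l with
  | nil => exact Finset.mem_singleton_self _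
  | cons x l ih =>
    have h : Ds (⊤ : Subgroup G) (x :: l) =
        Ds (⊤ : Subgroup G) l ∪ (Ds (⊤ : Subgroup G) l).image (fun d => d * x) :=
      if_pos (Subgroup.mem_top x)
    rw [h]
    exact Finset.mem_union_left _ ih

theorem thm_Bsc : St_Tbs → St_Emi → St_Ele → St_Eri → St_Mov → St_Bsc := by
  intro hTbs hEmi hEle hEri hMov g n k K hk hg hJ x hx
  obtain ⟨-, t2, -, -, -, -⟩ := hTbs K hk hg hJ
  -- the handles in the middle
  have m1 : ∀ i : Fin g, 1 + k ≤ (i : ℕ) → (i : ℕ) < 1 + 2 * k →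
      ga i ∈ EE K k ∧ gb i ∈ EE K k := by
    intro i h1 h2
    have e1 : gb i ∈ EE K k :=
      hEmi K hk hg hJ i 1 h1 h2 (MB g n).one_mem (fun j _ => rfl)
    obtain ⟨θ, hθ, -, e2, e3, -⟩ := (hMov (g := g) (n := n)).2.2.2.1 i
    have e4 : θ (gb i) ∈ EE K k := hEmi K hk hg hJ i θ h1 h2 hθ (fun j hj => (e3 j hj).2)
    rw [e2] at e4
    refine ⟨?_, e1⟩
    have e5 : (ga i : F g n) = (gb i)⁻¹ * (gb i * ga i * (gb i)⁻¹) * gb i := by group
    rw [e5]
    exact (EE K k).mul_mem ((EE K k).mul_mem ((EE K k).inv_mem e1) e4) e1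
  -- all handles
  have m2 : ∀ m : ℕ, ∀ i : Fin g, 1 + k ≤ (i : ℕ) + m → ga i ∈ EE K k ∧ gb i ∈ EE K k := by
    intro m
    induction m with
    | zero =>
      intro i hi
      by_cases h2 : (i : ℕ) < 1 + 2 * k
      · exact m1 i (by omega) h2
      · exact hEri K hk hg hJ i (by omega)
    | succ m ih =>
      intro i hi
      by_cases h1 : 1 + k ≤ (i : ℕ)
      · by_cases h2 : (i : ℕ) < 1 + 2 * k
        · exact m1 i h1 h2
        · exact hEri K hk hg hJ i (by omega)
      · exact hEle K hk hg hJ i (by omega) (fun j h3 _ => ih j (by omega))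
  have m3 : ∀ i : Fin g, ga i ∈ EE K k ∧ gb i ∈ EE K k := fun i => m2 (1 + k) i (by omega)
  -- the marked points
  have m4 : ∀ N : ℕ, ∀ j : Fin n, (j : ℕ) < N → gc j ∈ EE K k := by
    intro N
    induction N with
    | zero =>
      intro j hj
      omega
    | succ N ih =>
      intro j hj
      have hig : 1 + k < g := by omega
      obtain ⟨i, hi⟩ : ∃ i : Fin g, (i : ℕ) = 1 + k := ⟨⟨1 + k, hig⟩, rfl⟩
      have e1 : qsh i j 1 ∈ MB g n := by
        refine ⟨qsh_mem 1, ?_⟩
        rw [qsh_apply]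
        exact qh_bdry 1
      have e2 : qsh i j 1 (gb i) ∈ EE K k :=
        hEmi K hk hg hJ i (qsh i j 1) (by omega) (by omega) e1 (fun l hl => by
          rw [qsh_apply]
          exact qh_b' hl 1)
      rw [qsh_apply, qh_bi, zpow_one] at e2
      have e3 : qw i j ∈ EE K k := by
        have h := (EE K k).mul_mem e2 ((EE K k).inv_mem (m3 i).2)
        rwa [mul_inv_cancel_right] at h
      have e4 : sc i j ∈ EE K k := by
        have h : sc i j = (gb i * (ga i)⁻¹ * (gb i)⁻¹)⁻¹ * qw i j := by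
          rw [qw]
          group
        rw [h]
        exact (EE K k).mul_mem ((EE K k).inv_mem ((EE K k).mul_mem ((EE K k).mul_mem (m3 i).2
          ((EE K k).inv_mem (m3 i).1)) ((EE K k).inv_mem (m3 i).2))) e3
      have e5 : midc g n i j ∈ EE K k := by
        unfold midc
        refine (EE K k).mul_mem (seg_mem fun l _ _ => m3 l) (cseg_mem fun l _ hl => ?_)
        exact ih l (by omega)
      have e6 : gc j = (midc g n i j)⁻¹ * sc i j * midc g n i j := by
        rw [sc]
        group
      rw [e6]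
      exact (EE K k).mul_mem ((EE K k).mul_mem ((EE K k).inv_mem e5) e4) e5
  have m5 : EE K k = ⊤ := eq_top_of_gens (fun i => (m3 i).1) (fun i => (m3 i).2)
    (fun j => m4 ((j : ℕ) + 1) j (by omega))
  -- the end
  have n1 : (1 : F g n) ∈ TT K k := by
    refine ⟨1, Bsc_one _, ?_⟩
    rw [inv_one, one_mul]
    exact (Lb K).one_mem
  have n2 : x ∈ TT K k := by
    have h : x ∈ EE K k := by
      rw [m5]
      exact Subgroup.mem_top x
    have h1 := (h 1).2 n1
    rwa [mul_one] at h1
  have n3 := t2 1 n1 x n2 (by rw [inv_one, one_mul]; exact hx)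
  rwa [inv_one, one_mul] at n3

end Pool.Agent.PWG
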