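import Pool.Agent.PWG.St

/-!
# PWG Bsd: a subgroup of small index is generated by its based simple curves

`thm_Bsd` proves `Pool.Agent.PWG.St_Bsd` from `St_Blo`, `St_Bsc` and `St_Ext`.
-/

set_option autoImplicit false

namespace Pool.Agent.PWG

open Pool.Agent.PW Pool.Agent.PWM Pool.Agent.PWB Pool.Agent.PWX Pool.Agent.PWF Pool.Agent.PWL
  Pool.Agent.PWY Pool.Agent.PWE
open scoped Classical

/-- A mapping class of `MB` maps `Lb (K.comap φ)` into `Lb K`. -/
theorem Bsd_map {g n : ℕ} (hE : St_Ext) (K : Subgroup (F g n)) (φ : MulAut (F g n))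
    (hφ : φ ∈ MB g n) (x : F g n) (hx : x ∈ Lb (K.comap φ.toMonoidHom)) : φ x ∈ Lb K := by
  have hle : Lb (K.comap φ.toMonoidHom) ≤ (Lb K).comap φ.toMonoidHom := by
    unfold Lb
    rw [Subgroup.closure_le]
    rintro y ⟨hy1, hy2⟩
    refine Subgroup.subset_closure ⟨hy1, ?_⟩
    exact (hE (h := g) (n := n)).2.2.2.2.2.2.2 φ hφ y hy2
  exact hle hx

/-- A subgroup of small index is generated by its based simple curves. -/
theorem thm_Bsd (hB : St_Blo) (hC : St_Bsc) (hE : St_Ext) : St_Bsd := by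
  intro g n K hK hg x hx
  obtain ⟨k, φ, hk1, hk2, hφ, hJ⟩ := hB K hK hg
  have h1 : φ.symm x ∈ K.comap φ.toMonoidHom := by
    show φ (φ.symm x) ∈ K
    rwa [MulEquiv.apply_symm_apply]
  have h2 := hC (K.comap φ.toMonoidHom) hk1 hk2 hJ _ h1
  have h3 := Bsd_map hE K φ hφ _ h2
  rwa [MulEquiv.apply_symm_apply] at h3

end Pool.Agent.PWG
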