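import Pool.Agent.PWG.St

/-!
# Campaign PWG, module Ele: the handles on the left
-/

set_option autoImplicit false

namespace Pool.Agent.PWG

open Pool.Agent.PW Pool.Agent.PWM Pool.Agent.PWB Pool.Agent.PWX Pool.Agent.PWF Pool.Agent.PWL
  Pool.Agent.PWY Pool.Agent.PWE
open scoped Classical

private theorem cj_cj {Q : Type} [Group Q] (a b : Q) (p : Q × Q) : cj a (cj b p) = cj (a * b) p := by
  refine Prod.ext ?_ ?_
  · show a * (b * p.1 * b⁻¹) * a⁻¹ = a * b * p.1 * (a * b)⁻¹
    group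
  · show a * (b * p.2 * b⁻¹) * a⁻¹ = a * b * p.2 * (a * b)⁻¹
    group

private theorem pass {Q : Type} [Group Q] (B : List (Q × Q)) : ∀ p : Q × Q,
    LG (p :: B) (B ++ [cj (Dp B)⁻¹ p]) := by
  induction B with
  | nil =>
    intro p
    have h1 : cj (Dp ([] : List (Q × Q)))⁻¹ p = p := by
      refine Prod.ext ?_ ?_
      · show (Dp ([] : List (Q × Q)))⁻¹ * p.1 * (Dp ([] : List (Q × Q)))⁻¹⁻¹ = p.1
        simp [Dp]
      · show (Dp ([] : List (Q × Q)))⁻¹ * p.2 * (Dp ([] : List (Q × Q)))⁻¹⁻¹ = p.2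
        simp [Dp]
    rw [h1]
    exact PWH.bBas.1 _
  | cons q B ih =>
    intro p
    have h1 := PWH.bBas.2.2.2.1 [] [p, q] [q, cj (dd q)⁻¹ p] B (PWH.bBas.2.2.2.2.1 p q)
    have h2 := PWH.bBas.2.2.2.1 [q] _ _ [] (ih (cj (dd q)⁻¹ p))
    have h3 : Dp (q :: B) = dd q * Dp B := by simp [Dp]
    have h4 : cj (Dp B)⁻¹ (cj (dd q)⁻¹ p) = cj (Dp (q :: B))⁻¹ p := by
      rw [cj_cj, h3, mul_inv_rev]
    rw [h4] at h2
    refine PWH.bBas.2.1 _ _ _ ?_ (by simpa using h2)
    simpa using h1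

section

variable {g n : ℕ}

/-- the pair of the handle `j` -/
private def f0 (g n : ℕ) (j : ℕ) : F g n × F g n := vls (MonoidHom.id (F g n)) j

private theorem f0_lt {j : ℕ} (h : j < g) : f0 g n j = (ga ⟨j, h⟩, gb ⟨j, h⟩) := by
  simp [f0, vls, h]

private theorem full_eq : lst (MonoidHom.id (F g n)) 0 g = (List.range' 0 g).map (f0 g n) := by
  unfold lst
  rw [← List.range_eq_range']
  apply List.map_congr_left
  intro j _
  rw [Nat.zero_add]
  rfl

private theorem gbl_eq : gbl g n = (List.range' 0 g).map fun j => (f0 g n j).2 := by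
  apply List.ext_getElem
  · simp [gbl]
  · intro j h1 h2
    have hj : j < g := by simpa [gbl] using h1
    simp [gbl, f0_lt hj]

private theorem bk_eq {k : ℕ} (t : ℕ) (h : 1 + (t + 1) * k ≤ g) :
    bk g n k t = (List.range' (1 + t * k) k).map fun j => (f0 g n j).2 := by
  unfold bk
  rw [gbl_eq, ← List.map_drop, ← List.map_take, List.drop_range']
  congr 1
  have h0 : (t + 1) * k = t * k + k := by ring
  have h1 : g - (1 + t * k) = k + (g - (1 + t * k) - k) := by omega
  have h2 : 0 + (1 + t * k) * 1 = 1 + t * k := by ring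
  rw [h1, h2, ← List.range'_append_1]
  apply List.take_left'
  exact List.length_range'

end

private theorem key (hTbs : St_Tbs) (hDsp : PWE.St_Dsp) {g n k : ℕ} (K : Subgroup (F g n))
    (hk : 1 ≤ k) (hg : 1 + 3 * k ≤ g) (hJ : ∀ t, t < 3 → Jf K (bk g n k t)) (i : Fin g)
    (hi : (i : ℕ) < 1 + k)
    (hE : ∀ j : Fin g, (i : ℕ) < j → (j : ℕ) < 1 + 2 * k → ga j ∈ EE K k ∧ gb j ∈ EE K k)
    (p : F g n × F g n) (hp : LG [((ga i : F g n), (gb i : F g n))] [p]) : p.2 ∈ EE K k := by
  obtain ⟨-, -, h3, h4, h5, h6⟩ := hTbs K hk hg hJ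
  obtain ⟨d1, d2, -⟩ := hDsp (H := F g n)
  set A : List (F g n × F g n) := (List.range' 0 i).map (f0 g n) with hA
  set B : List (F g n × F g n) := (List.range' (i + 1) (2 * k - i)).map (f0 g n) with hB
  set C : List (F g n × F g n) := (List.range' (1 + 2 * k) (g - 1 - 2 * k)).map (f0 g n) with hC
  have hfull : lst (MonoidHom.id (F g n)) 0 g = A ++ (((ga i : F g n), (gb i : F g n)) :: (B ++ C)) := by
    rw [full_eq, hA, hB, hC]
    have e1 : List.range' 0 g = List.range' 0 i ++ (i : ℕ) :: (List.range' (i + 1) (2 * k - i) ++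
        List.range' (1 + 2 * k) (g - 1 - 2 * k)) := by
      have e2 : List.range' (i + 1) (2 * k - i) ++ List.range' (1 + 2 * k) (g - 1 - 2 * k) =
          List.range' (i + 1) (g - 1 - i) := by
        have e3 : 1 + 2 * k = (i + 1 : ℕ) + (2 * k - i) := by omega
        have e4 : g - 1 - i = (2 * k - i) + (g - 1 - 2 * k) := by omega
        rw [e4, ← List.range'_append_1, ← e3]
      rw [e2]
      have e5 : (i : ℕ) :: List.range' (i + 1) (g - 1 - i) = List.range' i (g - i) := by
        have e6 : g - i = (g - 1 - i) + 1 := by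
          have := i.2
          omega
        rw [e6, List.range'_succ]
      rw [e5]
      have e7 : List.range' 0 g = List.range' 0 ((i : ℕ) + (g - i)) := by
        congr 1
        have := i.2
        omega
      rw [e7, ← List.range'_append_1, Nat.zero_add]
    rw [e1, List.map_append, List.map_cons, List.map_append, f0_lt i.2]
  set D : F g n := Dp B with hD
  have hDE : D ∈ EE K k := by
    rw [hD]
    unfold Dp
    apply Subgroup.list_prod_mem
    intro x hx
    rw [List.mem_map] at hx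
    obtain ⟨q, hq, rfl⟩ := hx
    rw [hB, List.mem_map] at hq
    obtain ⟨j, hj, rfl⟩ := hq
    rw [List.mem_range'_1] at hj
    have hjg : j < g := by omega
    have hj2 := hE ⟨j, hjg⟩ (by show (i : ℕ) < j; omega) (by show j < 1 + 2 * k; omega)
    rw [f0_lt hjg]
    exact (EE K k).mul_mem ((EE K k).mul_mem ((EE K k).mul_mem hj2.1 hj2.2)
      ((EE K k).inv_mem hj2.1)) ((EE K k).inv_mem hj2.2)
  set y : F g n := D⁻¹ * p.2 * D with hy
  have hLG : LG (lst (MonoidHom.id (F g n)) 0 g) (A ++ (B ++ cj D⁻¹ p :: C)) := by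
    rw [hfull]
    have g1 := PWH.bBas.2.2.2.1 A _ _ (B ++ C) hp
    have g2 := PWH.bBas.2.2.2.1 A _ _ C (pass B p)
    refine PWH.bBas.2.1 _ (A ++ (p :: (B ++ C))) _ (by simpa using g1) ?_
    simpa using g2
  have hyE : y ∈ EE K k := by
    apply h5
    intro t ht
    obtain ⟨x, hx, hxt⟩ := h4 t ht
    obtain ⟨a, ha, hax⟩ := hJ 2 (by norm_num) (y * x) 1
    rw [inv_one, one_mul] at hax
    have hsx : x ∈ Ds (⊤ : Subgroup (F g n)) ((A ++ B).map Prod.snd) := by
      refine d2 _ _ ?_ hx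
      rw [bk_eq 1 (by omega), hB, List.map_append]
      refine List.Sublist.trans ?_ (List.sublist_append_right _ _)
      rw [List.map_map]
      have e1 : List.range' (i + 1) (2 * k - i) =
          List.range' (i + 1) (k - i) ++ List.range' (1 + 1 * k) k := by
        have e2 : 2 * k - i = (k - i) + k := by omega
        have e3 : 1 + 1 * k = (i + 1 : ℕ) + (k - i) := by omega
        rw [e2, ← List.range'_append_1, ← e3]
      rw [e1, List.map_append]
      exact List.sublist_append_right _ _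
    have hsa : a ∈ Ds (⊤ : Subgroup (F g n)) (C.map Prod.snd) := by
      refine d2 _ _ ?_ ha
      rw [bk_eq 2 (by omega), hC, List.map_map]
      have e1 : List.range' (1 + 2 * k) (g - 1 - 2 * k) =
          List.range' (1 + 2 * k) k ++ List.range' (1 + 2 * k + k) (g - 1 - 3 * k) := by
        have e2 : g - 1 - 2 * k = k + (g - 1 - 3 * k) := by omega
        rw [e2, ← List.range'_append_1]
      rw [e1, List.map_append]
      exact List.sublist_append_left _ _
    have hay : a * y ∈ Ds (⊤ : Subgroup (F g n)) ((cj D⁻¹ p :: C).map Prod.snd) := by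
      have e1 : ((cj D⁻¹ p :: C).map Prod.snd) = [y] ++ C.map Prod.snd := by
        rw [List.map_cons, List.singleton_append]
        congr 1
        show D⁻¹ * p.2 * D⁻¹⁻¹ = y
        rw [inv_inv]
      rw [e1]
      refine d1 _ _ _ _ ?_ hsa
      simp [Ds]
    have hall : a * (y * x) ∈ Ds (⊤ : Subgroup (F g n))
        ((A ++ (B ++ cj D⁻¹ p :: C)).map Prod.snd) := by
      have e1 : (A ++ (B ++ cj D⁻¹ p :: C)).map Prod.snd =
          (A ++ B).map Prod.snd ++ (cj D⁻¹ p :: C).map Prod.snd := by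
        rw [← List.map_append, List.append_assoc]
      rw [e1, ← mul_assoc]
      exact d1 _ _ _ _ hsx hay
    have hL : a * (y * x) ∈ Lb K := h6 _ hLG _ hall hax
    obtain ⟨x0, hx0, hx0a⟩ := h3 2 (by norm_num) (by norm_num) a ha
    refine ⟨x0, hx0, ?_⟩
    have e1 : x0⁻¹ * (y * t) = (x0⁻¹ * a⁻¹) * (a * (y * x)) * (x⁻¹ * t) := by group
    rw [e1]
    exact (Lb K).mul_mem ((Lb K).mul_mem hx0a hL) hxt
  have e1 : p.2 = D * y * D⁻¹ := by
    rw [hy]
    group
  rw [e1]
  exact (EE K k).mul_mem ((EE K k).mul_mem hDE hyE) ((EE K k).inv_mem hDE)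

theorem thm_Ele (hTbs : St_Tbs) (hDsp : PWE.St_Dsp) : St_Ele := by
  intro g n k K hk hg hJ i hi hE
  have h1 : gb i ∈ EE K k :=
    key hTbs hDsp K hk hg hJ i hi hE (ga i, gb i) (PWH.bBas.1 _)
  have h2 : gb i * ga i * (gb i)⁻¹ ∈ EE K k :=
    key hTbs hDsp K hk hg hJ i hi hE (rt (ga i, gb i)) (PWH.bBas.2.2.2.2.2.1 _)
  refine ⟨?_, h1⟩
  have e1 : (ga i : F g n) = (gb i)⁻¹ * (gb i * ga i * (gb i)⁻¹) * gb i := by group
  rw [e1]
  exact (EE K k).mul_mem ((EE K k).mul_mem ((EE K k).inv_mem h1) h2) h1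

end Pool.Agent.PWG
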