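import Pool.Agent.PWG.St

/-!
# Campaign PWG, part Emi: the letters of the handles between the blocks 0 and 2
-/

set_option autoImplicit false

namespace Pool.Agent.PWG

open Pool.Agent.PW Pool.Agent.PWM Pool.Agent.PWB Pool.Agent.PWX Pool.Agent.PWF Pool.Agent.PWL
  Pool.Agent.PWY Pool.Agent.PWE
open scoped Classical

private theorem emi_lst (g n : ℕ) :
    (lst (MonoidHom.id (F g n)) 0 g).map Prod.snd = gbl g n := by
  apply List.ext_getElem
  · simp [lst, gbl]
  · intro i h1 h2
    have h3 : i < g := by simpa [gbl] using h2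
    simp [lst, gbl, vls, h3]

private theorem emi_len (g n : ℕ) : (gbl g n).length = g := by
  simp [gbl]

private theorem emi_get (g n : ℕ) (j : ℕ) (h : j < (gbl g n).length) :
    (gbl g n)[j] = gb ⟨j, by rwa [emi_len] at h⟩ := by
  simp [gbl]

/-- The block `0`, the letter `i` and the block `2` form a sublist of the list of the letters. -/
private theorem emi_sub {g n k : ℕ} (i : Fin g) (h1 : 1 + k ≤ (i : ℕ)) (h2 : (i : ℕ) < 1 + 2 * k) :
    List.Sublist (bk g n k 0 ++ (gb i :: bk g n k 2)) (gbl g n) := by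
  have hi : (i : ℕ) < (gbl g n).length := by rw [emi_len]; exact i.2
  have e1 : List.Sublist (bk g n k 0) ((gbl g n).take i) := by
    unfold bk
    rw [List.take_drop]
    refine (List.drop_sublist _ _).trans ?_
    have h5 : (gbl g n).take (1 + 0 * k + k) = ((gbl g n).take i).take (1 + 0 * k + k) := by
      rw [List.take_take, min_eq_left (by omega)]
    rw [h5]
    exact List.take_sublist _ _
  have e2 : List.Sublist (bk g n k 2) ((gbl g n).drop (i + 1)) := by
    unfold bk
    refine (List.take_sublist _ _).trans ?_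
    have h5 : (gbl g n).drop (1 + 2 * k) = ((gbl g n).drop (i + 1)).drop (1 + 2 * k - (i + 1)) := by
      rw [List.drop_drop]
      congr 1
      omega
    rw [h5]
    exact List.drop_sublist _ _
  have e3 : (gbl g n).drop i = gb i :: (gbl g n).drop (i + 1) := by
    rw [List.drop_eq_getElem_cons hi, emi_get]
  have e4 : List.Sublist (gb i :: bk g n k 2) ((gbl g n).drop i) := by
    rw [e3]
    exact e2.cons_cons _
  have e5 := e1.append e4
  rwa [List.take_append_drop] at e5

/-- Letters of a block. -/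
private theorem emi_mem {g n k t : ℕ} {y : F g n} (h : y ∈ bk g n k t) :
    ∃ j : Fin g, 1 + t * k ≤ (j : ℕ) ∧ (j : ℕ) < 1 + t * k + k ∧ y = gb j := by
  unfold bk at h
  obtain ⟨m, hm, h⟩ := List.getElem_of_mem h
  rw [List.length_take, List.length_drop, emi_len] at hm
  rw [List.getElem_take, List.getElem_drop, emi_get] at h
  have h3 : 1 + t * k + m < g := by omega
  exact ⟨⟨1 + t * k + m, h3⟩, Nat.le_add_right _ _, by
    show 1 + t * k + m < 1 + t * k + k
    omega, h.symm⟩

private theorem emi_cons {H : Type} [Group H] (x : H) (l : List H) (d : H) :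
    d ∈ Ds ⊤ (x :: l) ↔ d ∈ Ds ⊤ l ∨ ∃ e ∈ Ds ⊤ l, e * x = d := by
  rw [Ds, if_pos (Subgroup.mem_top x), Finset.mem_union, Finset.mem_image]

private theorem emi_nil {H : Type} [Group H] (d : H) : d ∈ Ds ⊤ ([] : List H) ↔ d = 1 := by
  rw [Ds, Finset.mem_singleton]

/-- Products of fixed letters are fixed. -/
private theorem emi_fix {H : Type} [Group H] (θ : MulAut H) (l : List H)
    (h : ∀ y ∈ l, θ y = y) : ∀ x ∈ Ds (⊤ : Subgroup H) l, θ x = x := by
  induction l with
  | nil =>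
    intro x hx
    rw [emi_nil] at hx
    rw [hx, map_one]
  | cons a l ih =>
    intro x hx
    rw [emi_cons] at hx
    have ih' := ih fun y hy => h y (List.mem_cons_of_mem _ hy)
    rcases hx with hx | ⟨e, he, rfl⟩
    · exact ih' x hx
    · rw [map_mul, ih' e he, h a List.mem_cons_self]

theorem thm_Emi : St_Tbs → St_Prd → Pool.Agent.PWE.St_Dsp → St_Emi := by
  intro hTbs hPrd hDsp g n k K hk hg hJ i θ hi1 hi2 hθ hfix
  obtain ⟨-, -, c3, -, c5, -⟩ := hTbs K hk hg hJ
  refine c5 _ fun t ht => ?_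
  obtain ⟨x, hx, hl⟩ : ∃ x ∈ Ds (⊤ : Subgroup (F g n)) (bk g n k 0), x⁻¹ * t ∈ Lb K := ht
  obtain ⟨a, ha, h1⟩ := hJ 2 (by norm_num) (θ (gb i) * x) 1
  rw [inv_one, one_mul] at h1
  have hfx : θ x = x := by
    refine emi_fix θ _ (fun y hy => ?_) x hx
    obtain ⟨j, -, hj2, rfl⟩ := emi_mem hy
    refine hfix j fun hji => ?_
    rw [hji] at hj2
    omega
  have hfa : θ a = a := by
    refine emi_fix θ _ (fun y hy => ?_) a ha
    obtain ⟨j, hj1, -, rfl⟩ := emi_mem hy
    refine hfix j fun hji => ?_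
    rw [hji] at hj1
    omega
  -- the product of the letters
  have hDs : a * (gb i * x) ∈ Ds (⊤ : Subgroup (F g n)) (gbl g n) := by
    refine (@hDsp (F g n) _).2.1 (gbl g n) _ (emi_sub i hi1 hi2) ?_
    have h2 : a * gb i ∈ Ds (⊤ : Subgroup (F g n)) (gb i :: bk g n k 2) := by
      rw [emi_cons]
      exact Or.inr ⟨a, ha, rfl⟩
    have h3 := (@hDsp (F g n) _).1 _ _ x (a * gb i) hx h2
    rwa [mul_assoc] at h3
  have hSb : a * (gb i * x) = 1 ∨ Sb (a * (gb i * x)) := by
    refine hPrd (lst (MonoidHom.id (F g n)) 0 g) (PWH.bBas.1 _) _ ?_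
    rw [emi_lst]
    exact hDs
  have himg : θ (a * (gb i * x)) = a * (θ (gb i) * x) := by
    rw [map_mul, map_mul, hfa, hfx]
  have hL : a * (θ (gb i) * x) ∈ Lb K := by
    rcases hSb with h | ⟨φ, hφ, j, h⟩
    · rw [← himg, h, map_one]
      exact (Lb K).one_mem
    · refine Subgroup.subset_closure ⟨h1, θ * φ, (MB g n).mul_mem hθ hφ, j, ?_⟩
      rw [← himg, h, MulAut.mul_apply]
  obtain ⟨x', hx', hl'⟩ : ∃ x' ∈ Ds (⊤ : Subgroup (F g n)) (bk g n k 0), x'⁻¹ * a⁻¹ ∈ Lb K :=
    c3 2 (by norm_num) (by norm_num) a ha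
  refine ⟨x', hx', ?_⟩
  have h6 : x'⁻¹ * (θ (gb i) * t) = (x'⁻¹ * a⁻¹) * (a * (θ (gb i) * x)) * (x⁻¹ * t) := by group
  rw [h6]
  exact (Lb K).mul_mem ((Lb K).mul_mem hl' hL) hl

end Pool.Agent.PWG
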