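import Pool.Agent.PWG.St

/-!
# Campaign PWG: the handles on the right
-/

set_option autoImplicit false

open scoped BigOperators

namespace Pool.Agent.PWG

open Pool.Agent.PW Pool.Agent.PWM Pool.Agent.PWB Pool.Agent.PWX Pool.Agent.PWF Pool.Agent.PWL
  Pool.Agent.PWY Pool.Agent.PWE
open scoped Classical

private theorem Eri_lst (g n : ℕ) :
    (lst (MonoidHom.id (F g n)) 0 g).map Prod.snd = gbl g n := by
  apply List.ext_getElem
  · simp [lst, gbl]
  · intro i h1 h2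
    have hi : i < g := by
      simpa [lst] using h1
    simp [lst, gbl, vls, hi]

private theorem Eri_len (g n : ℕ) : (lst (MonoidHom.id (F g n)) 0 g).length = g := by
  simp [lst]

private theorem Eri_get (g n : ℕ) (i : Fin g)
    (h : (i : ℕ) < (lst (MonoidHom.id (F g n)) 0 g).length) :
    (lst (MonoidHom.id (F g n)) 0 g)[(i : ℕ)] = (ga i, gb i) := by
  simp [lst, vls]

/-- A list is cut at two places. -/
private theorem Eri_cut {α : Type} (l : List α) (a i : ℕ) (hai : a ≤ i) (hi : i < l.length) :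
    l = l.take a ++ ((l.drop a).take (i - a) ++ l[i] :: l.drop (i + 1)) := by
  have h1 : (l.drop a).drop (i - a) = l[i] :: l.drop (i + 1) := by
    rw [List.drop_drop, show a + (i - a) = i by omega, List.drop_eq_getElem_cons hi]
  rw [← h1, List.take_append_drop, List.take_append_drop]

private theorem Eri_sgl {G : Type} [Group G] (x : G) : x ∈ Ds (⊤ : Subgroup G) [x] := by
  unfold Ds
  rw [if_pos (Subgroup.mem_top _), Finset.mem_union, Finset.mem_image]
  right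
  refine ⟨1, ?_, one_mul _⟩
  unfold Ds
  exact Finset.mem_singleton_self _

private theorem Eri_key {g n k : ℕ} (hTbs : St_Tbs) (hDsp : St_Dsp) (K : Subgroup (F g n))
    (hk : 1 ≤ k) (hg : 1 + 3 * k ≤ g) (hJ : ∀ t, t < 3 → Jf K (bk g n k t)) (i : Fin g)
    (hi : 1 + 2 * k ≤ (i : ℕ)) (q : F g n × F g n) (hq : LG [(ga i, gb i)] [q]) :
    q.2 ∈ EE K k := by
  obtain ⟨-, -, -, -, hT5, hT6⟩ := hTbs K hk hg hJ
  obtain ⟨hD1, hD2, hD3⟩ := hDsp (H := F g n)
  obtain ⟨-, b2, -, b4, -, -, -⟩ := PWH.bBas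
  obtain ⟨M, hM⟩ : ∃ M, M = lst (MonoidHom.id (F g n)) 0 g := ⟨_, rfl⟩
  obtain ⟨A, hA⟩ : ∃ A, A = M.take (1 + k) := ⟨_, rfl⟩
  obtain ⟨B, hB⟩ : ∃ B, B = (M.drop (1 + k)).take ((i : ℕ) - (1 + k)) := ⟨_, rfl⟩
  obtain ⟨C, hC⟩ : ∃ C, C = M.drop ((i : ℕ) + 1) := ⟨_, rfl⟩
  obtain ⟨c, hc⟩ : ∃ c, c = (dd q)⁻¹ := ⟨_, rfl⟩
  have hMl : M.length = g := by rw [hM, Eri_len]
  have hiM : (i : ℕ) < M.length := by rw [hMl]; exact i.2
  have hMi : M[(i : ℕ)] = (ga i, gb i) := by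
    subst hM
    exact Eri_get g n i hiM
  have hMeq : M = A ++ (B ++ (ga i, gb i) :: C) := by
    have h := Eri_cut M (1 + k) i (by omega) hiM
    rw [hMi, ← hA, ← hB, ← hC] at h
    exact h
  -- the list which is reached
  have hL : LG M (A ++ (q :: (B.map (cj c) ++ C))) := by
    have h1 : LG (A ++ (B ++ (ga i, gb i) :: C)) (A ++ (B ++ q :: C)) := by
      have h := b4 (A ++ B) [(ga i, gb i)] [q] C hq
      simpa only [List.append_assoc, List.singleton_append] using h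
    have h2 : LG (A ++ (B ++ q :: C)) (A ++ (q :: (B.map (cj c) ++ C))) := by
      have h := b4 A (B ++ q :: C) (q :: (B.map (cj (dd q)⁻¹) ++ C)) [] (eFrt.1 B C q)
      rw [← hc] at h
      simpa only [List.append_nil] using h
    have h3 := b2 _ _ _ h1 h2
    rwa [← hMeq] at h3
  -- the letters of the blocks
  have hMs : M.map Prod.snd = gbl g n := by rw [hM, Eri_lst]
  have hb0 : List.Sublist (bk g n k 0) (A.map Prod.snd) := by
    have h1 : A.map Prod.snd = (gbl g n).take (1 + k) := by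
      rw [hA, List.map_take, hMs]
    have h2 : bk g n k 0 = ((gbl g n).take (1 + k)).drop 1 := by
      unfold bk
      rw [List.drop_take]
      simp
    rw [h1, h2]
    exact List.drop_sublist _ _
  have hb1 : List.Sublist (bk g n k 1) (B.map Prod.snd) := by
    have h1 : B.map Prod.snd = ((gbl g n).drop (1 + k)).take ((i : ℕ) - (1 + k)) := by
      rw [hB, List.map_take, List.map_drop, hMs]
    have h2 : bk g n k 1 = (((gbl g n).drop (1 + k)).take ((i : ℕ) - (1 + k))).take k := by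
      unfold bk
      rw [List.take_take, one_mul, Nat.min_eq_left (by omega)]
    rw [h1, h2]
    exact List.take_sublist _ _
  have hBc : (B.map (cj c)).map Prod.snd = (B.map Prod.snd).map (MulAut.conj c).toMonoidHom := by
    rw [List.map_map, List.map_map]
    rfl
  have hLs : (A ++ (q :: (B.map (cj c) ++ C))).map Prod.snd
      = A.map Prod.snd ++ (q.2 :: ((B.map (cj c)).map Prod.snd ++ C.map Prod.snd)) := by
    rw [List.map_append, List.map_cons, List.map_append]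
  have hx0 : ∀ x ∈ Ds (⊤ : Subgroup (F g n)) (bk g n k 0),
      x ∈ Ds (⊤ : Subgroup (F g n)) (A.map Prod.snd) := fun x hx => hD2 _ _ hb0 hx
  have he1 : ∀ a ∈ Ds (⊤ : Subgroup (F g n)) (bk g n k 1),
      c * a * c⁻¹ ∈ Ds (⊤ : Subgroup (F g n)) ((B.map (cj c)).map Prod.snd) := by
    intro a ha
    rw [hBc, hD3]
    exact ⟨a, hD2 _ _ hb1 ha, rfl⟩
  have hq1 : q.2 ∈ Ds (⊤ : Subgroup (F g n)) [q.2] := Eri_sgl q.2
  -- products of the letters of the new list
  have hP1 : ∀ x ∈ Ds (⊤ : Subgroup (F g n)) (bk g n k 0), ∀ a ∈ Ds (⊤ : Subgroup (F g n)) (bk g n k 1),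
      (c * a * c⁻¹) * (q.2 * x) ∈ Ds (⊤ : Subgroup (F g n))
        ((A ++ (q :: (B.map (cj c) ++ C))).map Prod.snd) := by
    intro x hx a ha
    have h1 := hD1 _ _ _ _ (hD1 _ _ _ _ (hx0 x hx) hq1) (he1 a ha)
    refine hD2 _ _ ?_ h1
    rw [hLs, List.append_assoc]
    refine List.Sublist.append (List.Sublist.refl _) ?_
    rw [List.singleton_append]
    exact (List.sublist_append_left _ _).cons_cons _
  have hP2 : ∀ x ∈ Ds (⊤ : Subgroup (F g n)) (bk g n k 0), ∀ a ∈ Ds (⊤ : Subgroup (F g n)) (bk g n k 1),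
      (c * a * c⁻¹) * x ∈ Ds (⊤ : Subgroup (F g n))
        ((A ++ (q :: (B.map (cj c) ++ C))).map Prod.snd) := by
    intro x hx a ha
    have h1 := hD1 _ _ _ _ (hx0 x hx) (he1 a ha)
    refine hD2 _ _ ?_ h1
    rw [hLs]
    refine List.Sublist.append (List.Sublist.refl _) ?_
    exact (List.sublist_append_left _ _).trans (List.sublist_cons_self _ _)
  have hLM : LG (lst (MonoidHom.id (F g n)) 0 g) (A ++ (q :: (B.map (cj c) ++ C))) := by
    rw [← hM]; exact hL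
  apply hT5
  rintro t ⟨x, hx, hxt⟩
  obtain ⟨a, ha, haK⟩ := hJ 1 (by omega) (c⁻¹ * (q.2 * x)) c⁻¹
  have e1 : (c⁻¹)⁻¹ * (a * (c⁻¹ * (q.2 * x))) = (c * a * c⁻¹) * (q.2 * x) := by group
  rw [e1] at haK
  have h1 : (c * a * c⁻¹) * (q.2 * x) ∈ Lb K := hT6 _ hLM _ (hP1 x hx a ha) haK
  obtain ⟨x', hx', hx'K⟩ := hJ 0 (by omega) 1 (c * a * c⁻¹)⁻¹
  rw [mul_one, inv_inv] at hx'K
  have h2 : (c * a * c⁻¹) * x' ∈ Lb K := hT6 _ hLM _ (hP2 x' hx' a ha) hx'K
  refine ⟨x', hx', ?_⟩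
  have e2 : x'⁻¹ * (q.2 * t)
      = ((c * a * c⁻¹) * x')⁻¹ * (((c * a * c⁻¹) * (q.2 * x)) * (x⁻¹ * t)) := by group
  rw [e2]
  exact (Lb K).mul_mem ((Lb K).inv_mem h2) ((Lb K).mul_mem h1 hxt)

theorem thm_Eri : St_Tbs → PWE.St_Dsp → St_Eri := by
  intro hTbs hDsp g n k K hk hg hJ i hi
  obtain ⟨b1, -, -, -, -, b6, -⟩ := PWH.bBas
  have h1 : (gb i : F g n) ∈ EE K k :=
    Eri_key hTbs hDsp K hk hg hJ i hi (ga i, gb i) (b1 _)
  have h2 : (gb i * ga i * (gb i)⁻¹ : F g n) ∈ EE K k :=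
    Eri_key hTbs hDsp K hk hg hJ i hi (rt (ga i, gb i)) (b6 _)
  refine ⟨?_, h1⟩
  have h3 := (EE K k).mul_mem ((EE K k).mul_mem ((EE K k).inv_mem h1) h2) h1
  have e : (gb i : F g n)⁻¹ * (gb i * ga i * (gb i)⁻¹) * gb i = ga i := by group
  rwa [e] at h3

end Pool.Agent.PWG
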