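import Pool.Agent.PWG.St

/-!
# PWG Euk: Euclid in one handle
-/

set_option autoImplicit false

namespace Pool.Agent.PWG

open Pool.Agent.PW Pool.Agent.PWM Pool.Agent.PWB Pool.Agent.PWX Pool.Agent.PWF Pool.Agent.PWL
  Pool.Agent.PWY Pool.Agent.PWE
open scoped Classical

section

variable {g n : ℕ} {i : Fin g}

theorem Euk_one : Ih i (1 : MulAut (F g n)) where
  mem := (MB g n).one_mem
  out := fun _ _ => ⟨rfl, rfl⟩
  cc := fun _ => rfl
  map := by
    have : (1 : MulAut (F g n)).toMonoidHom = MonoidHom.id _ := rfl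
    rw [this, Subgroup.map_id]

theorem Euk_mul {θ η : MulAut (F g n)} (h1 : Ih i θ) (h2 : Ih i η) : Ih i (θ * η) where
  mem := (MB g n).mul_mem h1.mem h2.mem
  out := fun l hl => by
    rw [MulAut.mul_apply, MulAut.mul_apply, (h2.out l hl).1, (h2.out l hl).2]
    exact h1.out l hl
  cc := fun l => by rw [MulAut.mul_apply, h2.cc, h1.cc]
  map := by
    have e : (θ * η).toMonoidHom = θ.toMonoidHom.comp η.toMonoidHom := rfl
    rw [e, ← Subgroup.map_map, h2.map, h1.map]

/-- A mapping class which only changes the letters of the handle `i`, into words in them, such that both letters are words in the images. -/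
theorem Euk_of {θ : MulAut (F g n)} (h : θ ∈ MB g n)
    (out : ∀ l, l ≠ i → θ (ga l) = ga l ∧ θ (gb l) = gb l) (cc : ∀ l, θ (gc l) = gc l)
    (ha : θ (ga i) ∈ Subgroup.closure {(ga i : F g n), gb i})
    (hb : θ (gb i) ∈ Subgroup.closure {(ga i : F g n), gb i})
    (ha' : ga i ∈ Subgroup.closure {θ (ga i), θ (gb i)})
    (hb' : gb i ∈ Subgroup.closure {θ (ga i), θ (gb i)}) : Ih i θ where
  mem := h
  out := out
  cc := cc
  map := by
    have e : (Subgroup.closure {(ga i : F g n), gb i}).map θ.toMonoidHom =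
        Subgroup.closure {θ (ga i), θ (gb i)} := by
      rw [MonoidHom.map_closure, Set.image_pair]
      rfl
    rw [e]
    apply le_antisymm
    · rw [Subgroup.closure_le]
      rintro x (rfl | rfl)
      · exact ha
      · exact hb
    · rw [Subgroup.closure_le]
      rintro x (rfl | rfl)
      · exact ha'
      · exact hb'

theorem Euk_rot (hMov : St_Mov) (i : Fin g) : ∃ R : MulAut (F g n), Ih i R ∧
    R (ga i) = (gb i)⁻¹ ∧ R (gb i) = gb i * ga i * (gb i)⁻¹ := by
  obtain ⟨θ, hθ, h1, h2, h3, h4⟩ := (hMov (g := g) (n := n)).2.2.2.1 i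
  have xa : (ga i : F g n) ∈ Subgroup.closure {(ga i : F g n), gb i} :=
    Subgroup.subset_closure (by simp)
  have xb : (gb i : F g n) ∈ Subgroup.closure {(ga i : F g n), gb i} :=
    Subgroup.subset_closure (by simp)
  have ya : θ (ga i) ∈ Subgroup.closure {θ (ga i), θ (gb i)} :=
    Subgroup.subset_closure (by simp)
  have yb : θ (gb i) ∈ Subgroup.closure {θ (ga i), θ (gb i)} :=
    Subgroup.subset_closure (by simp)
  generalize hS : Subgroup.closure {θ (ga i), θ (gb i)} = S at ya yb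
  have zb : (gb i : F g n) ∈ S := by
    have := Subgroup.inv_mem _ ya
    rwa [h1, inv_inv] at this
  refine ⟨θ, Euk_of hθ h3 h4 ?_ ?_ ?_ ?_, h1, h2⟩
  · rw [h1]
    exact Subgroup.inv_mem _ xb
  · rw [h2]
    exact Subgroup.mul_mem _ (Subgroup.mul_mem _ xb xa) (Subgroup.inv_mem _ xb)
  · rw [hS]
    have h5 := Subgroup.mul_mem _ (Subgroup.mul_mem _ (Subgroup.inv_mem _ zb) yb) zb
    rw [h2] at h5
    have e : (gb i)⁻¹ * (gb i * ga i * (gb i)⁻¹) * gb i = (ga i : F g n) := by group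
    rwa [e] at h5
  · rw [hS]
    exact zb

theorem Euk_twist (hMov : St_Mov) (i : Fin g) (k : ℤ) : ∃ T : MulAut (F g n), Ih i T ∧
    T (ga i) = ga i ∧ T (gb i) = gb i * ga i ^ k := by
  obtain ⟨θ, hθ, h1, h2, h3, h4⟩ := (hMov (g := g) (n := n)).2.2.2.2 i k
  have xa : (ga i : F g n) ∈ Subgroup.closure {(ga i : F g n), gb i} :=
    Subgroup.subset_closure (by simp)
  have xb : (gb i : F g n) ∈ Subgroup.closure {(ga i : F g n), gb i} :=
    Subgroup.subset_closure (by simp)
  have ya : θ (ga i) ∈ Subgroup.closure {θ (ga i), θ (gb i)} :=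
    Subgroup.subset_closure (by simp)
  have yb : θ (gb i) ∈ Subgroup.closure {θ (ga i), θ (gb i)} :=
    Subgroup.subset_closure (by simp)
  generalize hS : Subgroup.closure {θ (ga i), θ (gb i)} = S at ya yb
  have za : (ga i : F g n) ∈ S := by rwa [h1] at ya
  refine ⟨θ, Euk_of hθ h3 h4 ?_ ?_ ?_ ?_, h1, h2⟩
  · rw [h1]
    exact xa
  · rw [h2]
    exact Subgroup.mul_mem _ xb (Subgroup.zpow_mem _ xa k)
  · rw [hS]
    exact za
  · rw [hS]
    have h5 := Subgroup.mul_mem _ yb (Subgroup.zpow_mem _ za (-k))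
    rw [h2] at h5
    have e : gb i * ga i ^ k * ga i ^ (-k) = (gb i : F g n) := by group
    rwa [e] at h5

variable {A : Type} [CommGroup A]

theorem Euk_inv {H : Subgroup (F g n)} {f : F g n → A} (h : Mu H f) {x : F g n} (hx : x ∈ H) :
    f x⁻¹ = (f x)⁻¹ := by
  have h1 : f 1 = 1 := by
    have := h 1 H.one_mem 1 H.one_mem
    rw [mul_one] at this
    exact left_eq_mul.1 this
  have h2 := h x hx x⁻¹ (H.inv_mem hx)
  rw [mul_inv_cancel, h1] at h2
  exact (inv_eq_of_mul_eq_one_right h2.symm).symm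

theorem Euk_zpow {H : Subgroup (F g n)} {f : F g n → A} (h : Mu H f) {x : F g n} (hx : x ∈ H)
    (k : ℤ) : f (x ^ k) = f x ^ k := by
  let φ : H →* A := MonoidHom.mk' (fun y : H => f y) (fun y z => h y y.2 z z.2)
  have h1 := map_zpow φ ⟨x, hx⟩ k
  have h2 : φ (⟨x, hx⟩ ^ k) = f (x ^ k) := by
    show f ((⟨x, hx⟩ ^ k : H) : F g n) = _
    rw [SubgroupClass.coe_zpow]
  rw [h2] at h1
  exact h1

theorem Euk_mu {f : F g n → A} (h : Mu (Subgroup.closure {(ga i : F g n), gb i}) f)
    {θ : MulAut (F g n)} (hθ : Ih i θ) :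
    Mu (Subgroup.closure {(ga i : F g n), gb i}) fun x => f (θ x) := by
  have key : ∀ x ∈ Subgroup.closure {(ga i : F g n), gb i},
      θ x ∈ Subgroup.closure {(ga i : F g n), gb i} := by
    intro x hx
    rw [← hθ.map]
    exact ⟨x, hx, rfl⟩
  intro x hx y hy
  show f (θ (x * y)) = f (θ x) * f (θ y)
  rw [map_mul]
  exact h _ (key x hx) _ (key y hy)

end

theorem Euk_main (hMov : St_Mov) {g n : ℕ} (i : Fin g) {A : Type} [CommGroup A] (ζ : A) (N : ℕ) :
    ∀ (f : F g n → A) (α β : ℤ), α.natAbs ≤ N →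
    Mu (Subgroup.closure {(ga i : F g n), gb i}) f → f (ga i) = ζ ^ α → f (gb i) = ζ ^ β →
    ∃ θ, Ih i θ ∧ f (θ (gb i)) = 1 := by
  have xa : (ga i : F g n) ∈ Subgroup.closure {(ga i : F g n), gb i} :=
    Subgroup.subset_closure (by simp)
  have xb : (gb i : F g n) ∈ Subgroup.closure {(ga i : F g n), gb i} :=
    Subgroup.subset_closure (by simp)
  obtain ⟨R, hR, hRa, hRb⟩ := Euk_rot (n := n) hMov i
  have rota : ∀ f : F g n → A, Mu (Subgroup.closure {(ga i : F g n), gb i}) f →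
      f (R (ga i)) = (f (gb i))⁻¹ := by
    intro f hf
    rw [hRa, Euk_inv hf xb]
  have rotb : ∀ f : F g n → A, Mu (Subgroup.closure {(ga i : F g n), gb i}) f →
      f (R (gb i)) = f (ga i) := by
    intro f hf
    rw [hRb, hf _ (Subgroup.mul_mem _ xb xa) _ (Subgroup.inv_mem _ xb), hf _ xb _ xa,
      Euk_inv hf xb, mul_comm (f (gb i)), mul_inv_cancel_right]
  induction N with
  | zero =>
    intro f α β hN hf h1 h2
    have hα : α = 0 := by omega
    refine ⟨R, hR, ?_⟩
    rw [rotb f hf, h1, hα, zpow_zero]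
  | succ N ih =>
    intro f α β hN hf h1 h2
    by_cases hα : α = 0
    · refine ⟨R, hR, ?_⟩
      rw [rotb f hf, h1, hα, zpow_zero]
    · obtain ⟨T, hT, hTa, hTb⟩ := Euk_twist (n := n) hMov i (-(β / α))
      have hf1 := Euk_mu hf hT
      have hf2 := Euk_mu hf1 hR
      have e1 : f (T (ga i)) = ζ ^ α := by rw [hTa, h1]
      have e2 : f (T (gb i)) = ζ ^ (β % α) := by
        rw [hTb, hf _ xb _ (Subgroup.zpow_mem _ xa _), Euk_zpow hf xa, h1, h2, ← zpow_mul,
          ← zpow_add]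
        congr 1
        have := Int.emod_add_mul_ediv β α
        linarith
      have e3 : f (T (R (ga i))) = ζ ^ (-(β % α)) := by
        have h6 : f (T (R (ga i))) = (f (T (gb i)))⁻¹ := rota (fun x => f (T x)) hf1
        rw [h6, e2, zpow_neg]
      have e4 : f (T (R (gb i))) = ζ ^ α := by
        have h6 : f (T (R (gb i))) = f (T (ga i)) := rotb (fun x => f (T x)) hf1
        rw [h6, e1]
      have hlt : (β % α).natAbs < α.natAbs := by
        have h3 := Int.emod_nonneg β hα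
        have h4 := Int.emod_lt_abs β hα
        rw [Int.abs_eq_natAbs] at h4
        omega
      obtain ⟨θ, hθ, h5⟩ := ih (fun x => f (T (R x))) (-(β % α)) α (by omega) hf2 e3 e4
      exact ⟨T * (R * θ), Euk_mul hT (Euk_mul hR hθ), h5⟩

/-- **(Euk)** Euclid in one handle. -/
theorem thm_Euk (hMov : St_Mov) : St_Euk := by
  intro g n i A _ f ζ α β hf h1 h2
  obtain ⟨θ, hθ, h3⟩ := Euk_main hMov i ζ α.natAbs f α β le_rfl hf h1 h2
  refine ⟨⟨θ, hθ, h3⟩, ?_⟩
  obtain ⟨R, hR, hRa, -⟩ := Euk_rot (n := n) hMov i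
  refine ⟨θ * R, Euk_mul hθ hR, ?_⟩
  have xb : (gb i : F g n) ∈ Subgroup.closure {(ga i : F g n), gb i} :=
    Subgroup.subset_closure (by simp)
  have h4 : f (θ (gb i)⁻¹) = (f (θ (gb i)))⁻¹ := Euk_inv (Euk_mu hf hθ) xb
  rw [MulAut.mul_apply, hRa, h4, h3, inv_one]

end Pool.Agent.PWG
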