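import Pool.Agent.PWG.St

set_option autoImplicit false

namespace Pool.Agent.PWG

open Pool.Agent.PW Pool.Agent.PWM Pool.Agent.PWB Pool.Agent.PWX Pool.Agent.PWF Pool.Agent.PWL
  Pool.Agent.PWY Pool.Agent.PWE
open scoped Classical

theorem Ext_sh_a {h n : ℕ} (i : Fin h) : sh h n (ga i) = ga i.succ := by
  simp [sh, ga]

theorem Ext_sh_b {h n : ℕ} (i : Fin h) : sh h n (gb i) = gb i.succ := by
  simp [sh, gb]

theorem Ext_sh_c {h n : ℕ} (j : Fin n) : sh h n (gc j) = gc j := by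
  simp [sh, gc]

/-- The extension of an endomorphism by the identity on the handle `0`. -/
def Ext_e {h n : ℕ} (f : F h n →* F h n) : F (h + 1) n →* F (h + 1) n :=
  FreeGroup.lift fun x => match x with
    | Gen.a i => Fin.cases (motive := fun _ => F (h + 1) n) (ga 0) (fun j => sh h n (f (ga j))) i
    | Gen.b i => Fin.cases (motive := fun _ => F (h + 1) n) (gb 0) (fun j => sh h n (f (gb j))) i
    | Gen.c j => sh h n (f (gc j))

theorem Ext_e_a0 {h n : ℕ} (f : F h n →* F h n) : Ext_e f (ga 0) = ga 0 := by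
  simp [Ext_e, ga]

theorem Ext_e_b0 {h n : ℕ} (f : F h n →* F h n) : Ext_e f (gb 0) = gb 0 := by
  simp [Ext_e, gb]

theorem Ext_e_a {h n : ℕ} (f : F h n →* F h n) (i : Fin h) :
    Ext_e f (ga i.succ) = sh h n (f (ga i)) := by
  simp [Ext_e, ga]

theorem Ext_e_b {h n : ℕ} (f : F h n →* F h n) (i : Fin h) :
    Ext_e f (gb i.succ) = sh h n (f (gb i)) := by
  simp [Ext_e, gb]

theorem Ext_e_c {h n : ℕ} (f : F h n →* F h n) (j : Fin n) :
    Ext_e f (gc j) = sh h n (f (gc j)) := by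
  simp [Ext_e, gc]

theorem Ext_e_sh {h n : ℕ} (f : F h n →* F h n) (x : F h n) :
    Ext_e f (sh h n x) = sh h n (f x) := by
  have h1 : (Ext_e f).comp (sh h n) = (sh h n).comp f := by
    apply FreeGroup.ext_hom
    intro x
    cases x with
    | a i => exact (congrArg (Ext_e f) (Ext_sh_a i)).trans (Ext_e_a f i)
    | b i => exact (congrArg (Ext_e f) (Ext_sh_b i)).trans (Ext_e_b f i)
    | c j => exact (congrArg (Ext_e f) (Ext_sh_c j)).trans (Ext_e_c f j)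
  exact DFunLike.congr_fun h1 x

theorem Ext_e_comp {h n : ℕ} (f f' : F h n →* F h n) :
    (Ext_e f).comp (Ext_e f') = Ext_e (f.comp f') := by
  apply hom_ext
  · intro i
    refine Fin.cases ?_ (fun j => ?_) i
    · rw [MonoidHom.comp_apply, Ext_e_a0, Ext_e_a0, Ext_e_a0]
    · rw [MonoidHom.comp_apply, Ext_e_a, Ext_e_sh, Ext_e_a]; rfl
  · intro i
    refine Fin.cases ?_ (fun j => ?_) i
    · rw [MonoidHom.comp_apply, Ext_e_b0, Ext_e_b0, Ext_e_b0]
    · rw [MonoidHom.comp_apply, Ext_e_b, Ext_e_sh, Ext_e_b]; rfl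
  · intro j
    rw [MonoidHom.comp_apply, Ext_e_c, Ext_e_sh, Ext_e_c]; rfl

theorem Ext_e_id {h n : ℕ} : Ext_e (MonoidHom.id (F h n)) = MonoidHom.id _ := by
  apply hom_ext
  · intro i
    refine Fin.cases ?_ (fun j => ?_) i
    · rw [Ext_e_a0]; rfl
    · rw [Ext_e_a, MonoidHom.id_apply, Ext_sh_a]; rfl
  · intro i
    refine Fin.cases ?_ (fun j => ?_) i
    · rw [Ext_e_b0]; rfl
    · rw [Ext_e_b, MonoidHom.id_apply, Ext_sh_b]; rfl
  · intro j
    rw [Ext_e_c, MonoidHom.id_apply, Ext_sh_c]; rfl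

theorem Ext_bdry {h n : ℕ} :
    bdry (h + 1) n = (ga 0 * gb 0 * (ga 0)⁻¹ * (gb 0)⁻¹ : F (h + 1) n) * sh h n (bdry h n) := by
  unfold bdry
  have h1 : (fun i : Fin h => (ga i.succ * gb i.succ * (ga i.succ)⁻¹ * (gb i.succ)⁻¹ :
      F (h + 1) n)) = (sh h n) ∘ fun i : Fin h => (ga i * gb i * (ga i)⁻¹ * (gb i)⁻¹ : F h n) := by
    funext i
    simp only [Function.comp_apply, map_mul, map_inv, Ext_sh_a, Ext_sh_b]
  have h2 : (fun j : Fin n => (gc j : F (h + 1) n)) = (sh h n) ∘ fun j : Fin n => gc j := by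
    funext i
    simp only [Function.comp_apply, Ext_sh_c]
  rw [List.ofFn_succ, List.prod_cons, map_mul, map_list_prod, map_list_prod, List.map_ofFn,
    List.map_ofFn, mul_assoc, h1, h2]

theorem Ext_lift {h n : ℕ} (φ : MulAut (F h n)) (hφ : φ ∈ MB h n) :
    ∃ Φ ∈ MB (h + 1) n, Φ (ga 0) = ga 0 ∧ Φ (gb 0) = gb 0 ∧
      ∀ x, Φ (sh h n x) = sh h n (φ x) := by
  have h1 : (Ext_e (φ⁻¹).toMonoidHom).comp (Ext_e φ.toMonoidHom) = MonoidHom.id _ := by
    rw [Ext_e_comp, ← Ext_e_id]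
    congr 1
    ext x
    simp
  have h2 : (Ext_e φ.toMonoidHom).comp (Ext_e (φ⁻¹).toMonoidHom) = MonoidHom.id _ := by
    rw [Ext_e_comp, ← Ext_e_id]
    congr 1
    ext x
    simp
  have h3 : ∀ x, mkAut _ _ h1 h2 (sh h n x) = sh h n (φ x) := fun x => Ext_e_sh _ x
  have ha : mkAut _ _ h1 h2 (ga 0) = ga 0 := by
    rw [mkAut_apply]; exact Ext_e_a0 _
  have hb : mkAut _ _ h1 h2 (gb 0) = gb 0 := by
    rw [mkAut_apply]; exact Ext_e_b0 _
  have hbd : mkAut _ _ h1 h2 (bdry (h + 1) n) = bdry (h + 1) n := by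
    rw [Ext_bdry]
    simp only [map_mul, map_inv]
    rw [ha, hb, h3, hφ.2]
  refine ⟨mkAut _ _ h1 h2, ⟨⟨?_, ?_⟩, hbd⟩, ha, hb, h3⟩
  · rw [hbd]
  · intro j
    have h4 := h3 (gc j)
    rw [Ext_sh_c] at h4
    rw [h4]
    have h5 := MonoidHom.map_isConj (sh h n) (hφ.1.2 j)
    rwa [Ext_sh_c] at h5

theorem Ext_conj {h n : ℕ} (φ : MulAut (F h n)) (hφ : φ ∈ MCG h n) :
    ∃ (t : F h n) (ψ : MulAut (F h n)), ψ ∈ MB h n ∧ ∀ x, ψ x = t * φ x * t⁻¹ := by
  obtain ⟨u, hu⟩ := isConj_iff.1 hφ.1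
  refine ⟨u, MulAut.conj u * φ, ⟨⟨?_, ?_⟩, ?_⟩, fun x => ?_⟩
  · rw [MulAut.mul_apply, MulAut.conj_apply, hu]
  · intro j
    rw [MulAut.mul_apply, MulAut.conj_apply]
    refine IsConj.trans ?_ (hφ.2 j)
    exact (isConj_iff.2 ⟨u, rfl⟩).symm
  · rw [MulAut.mul_apply, MulAut.conj_apply, hu]
  · rw [MulAut.mul_apply, MulAut.conj_apply]

theorem Ext_top {h n : ℕ} (E : Subgroup (F (h + 1) n)) (ha : ga 0 ∈ E) (hb : gb 0 ∈ E)
    (hs : ∀ x, sh h n x ∈ E) : E = ⊤ := by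
  rw [eq_top_iff]
  intro x _
  have hof : ∀ y : Gen (h + 1) n, (FreeGroup.of y : F (h + 1) n) ∈ E := by
    intro y
    cases y with
    | a i =>
      refine Fin.cases ?_ (fun j => ?_) i
      · exact ha
      · have := hs (ga j)
        rwa [Ext_sh_a] at this
    | b i =>
      refine Fin.cases ?_ (fun j => ?_) i
      · exact hb
      · have := hs (gb j)
        rwa [Ext_sh_b] at this
    | c j =>
      have := hs (gc j)
      rwa [Ext_sh_c] at this
  induction x using FreeGroup.induction_on with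
  | C1 => exact E.one_mem
  | of y => exact hof y
  | inv_of y _ => exact E.inv_mem (hof y)
  | mul x y hx hy => exact E.mul_mem (hx trivial) (hy trivial)

theorem thm_Ext : St_Ext := by
  intro h n
  refine ⟨Ext_bdry, Ext_lift, Ext_conj, Ext_top, ?_, ?_, ?_, ?_⟩
  · intro H hH
    rw [Subgroup.index_comap]
    have h1 : H.relIndex (⊤ : Subgroup (F (h + 1) n)) = H.index := Subgroup.relIndex_top_right H
    refine ⟨fun h2 => hH ?_, ?_⟩
    · rw [← h1]
      exact Subgroup.relIndex_eq_zero_of_le_right le_top h2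
    · rw [← h1]
      exact Subgroup.relIndex_le_of_le_right le_top (by rw [h1]; exact hH)
  · intro H φ
    exact Subgroup.index_comap_of_surjective H φ.surjective
  · rintro φ hφ x ⟨ψ, hψ, i, rfl⟩
    exact ⟨φ * ψ, (MCG h n).mul_mem hφ hψ, i, rfl⟩
  · rintro φ hφ x ⟨ψ, hψ, i, rfl⟩
    exact ⟨φ * ψ, (MB h n).mul_mem hφ hψ, i, rfl⟩

end Pool.Agent.PWG
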