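import Pool.Agent.PWG.StC
import Pool.Agent.PWI.For

/-!
# PWG: module Fin (Putman-Wieland for representations with eigenlines)
-/

set_option autoImplicit false

open scoped BigOperators

namespace Pool.Agent.PWG

open Pool.Agent.PW Pool.Agent.PWM Pool.Agent.PWB Pool.Agent.PWX Pool.Agent.PWF Pool.Agent.PWL
  Pool.Agent.PWY Pool.Agent.PWE Pool.Agent.PWK Pool.Agent.PWI
open scoped Classical

theorem thm_Fin : St_Fin := by
  intro hS hCOM hVli hAvg hKls hMov hAdx g n d K P hKfin hR hLin hvan hKer f hf h0 hfin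
  have fine0 := (thm_ORB g n).1 K f hR hf hfin
  have hNn : K.normalCore.Normal := K.normalCore_normal
  have hNf : K.normalCore.FiniteIndex := inferInstance
  have hle : K.normalCore ≤ K := K.normalCore_le
  have hone : f 1 = 0 := by
    have := hf.add 1 1
    rw [mul_one] at this
    linarith
  have hne : ∃ x ∈ K.normalCore, ext0 K f x ≠ 0 := by
    by_contra hne
    push Not at hne
    exact h0 (zero_of_core hf hne)
  have hadd : ∀ x ∈ K.normalCore, ∀ y ∈ K.normalCore,
      ext0 K f (x * y) = ext0 K f x + ext0 K f y := by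
    intro x hx y hy
    rw [ext0_mem (hle hx), ext0_mem (hle hy), ext0_mem (K.mul_mem (hle hx) (hle hy))]
    exact hf.add ⟨x, hle hx⟩ ⟨y, hle hy⟩
  have hinv : ∀ k ∈ K, ∀ x ∈ K.normalCore, ext0 K f (k⁻¹ * x * k) = ext0 K f x := by
    intro k hk x hx
    have hxK : x ∈ K := hle hx
    rw [ext0_mem (K.mul_mem (K.mul_mem (K.inv_mem hk) hxK) hk), ext0_mem hxK]
    have h1 := hf.add ((⟨k, hk⟩ : K)⁻¹ * ⟨x, hxK⟩) ⟨k, hk⟩
    have h2 := hf.add (⟨k, hk⟩ : K)⁻¹ ⟨x, hxK⟩
    have h3 := hf.add (⟨k, hk⟩ : K)⁻¹ ⟨k, hk⟩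
    rw [inv_mul_cancel, hone] at h3
    have e : (⟨k⁻¹ * x * k, K.mul_mem (K.mul_mem (K.inv_mem hk) hxK) hk⟩ : K)
        = (⟨k, hk⟩ : K)⁻¹ * ⟨x, hxK⟩ * ⟨k, hk⟩ := rfl
    rw [e, h1, h2]
    linarith
  obtain ⟨V, hVfd, hVst, hVirr, ⟨v0, hv0V, hv0, hv0K⟩, hVN, hVc⟩ :=
    hS (F g n) K.normalCore K hle (ext0 K f) hadd hinv hne
  let ρ : Representation ℂ (F g n) V :=
    { toFun := fun w => (Rt K.normalCore w).restrict (hVst w)
      map_one' := by
        apply LinearMap.ext
        intro v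
        apply Subtype.ext
        simp [LinearMap.restrict_apply]
      map_mul' := by
        intro v w
        apply LinearMap.ext
        intro u
        apply Subtype.ext
        simp [LinearMap.restrict_apply] }
  have hρ : ∀ w (v : V), ((ρ w v : V) : K.normalCore → ℂ) = Rt K.normalCore w v := fun _ _ => rfl
  have hρN : ∀ x ∈ K.normalCore, ρ x = 1 := by
    intro x hx
    apply LinearMap.ext
    intro v
    apply Subtype.ext
    rw [hρ]
    exact hVN x hx v v.2
  have hirr : ∀ U : Submodule ℂ V, (∀ w, ∀ v ∈ U, ρ w v ∈ U) → U = ⊥ ∨ U = ⊤ := by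
    intro U hU
    have hUV : U.map V.subtype ≤ V := by
      rintro _ ⟨u, _, rfl⟩
      exact u.2
    rcases hVirr (U.map V.subtype) hUV (by
      rintro w _ ⟨u, hu, rfl⟩
      exact ⟨ρ w u, hU w u hu, rfl⟩) with h | h
    · left
      rw [eq_bot_iff]
      intro u hu
      have h2 : (u : K.normalCore → ℂ) ∈ U.map V.subtype := ⟨u, hu, rfl⟩
      rw [h] at h2
      exact (Submodule.mem_bot ℂ).mpr (Subtype.ext ((Submodule.mem_bot ℂ).mp h2))
    · right
      rw [eq_top_iff]
      intro u _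
      have : (u : K.normalCore → ℂ) ∈ U.map V.subtype := by
        rw [h]
        exact u.2
      obtain ⟨u', hu', e⟩ := this
      have e2 : u' = u := Subtype.ext e
      rwa [← e2]
  have hfix : ∃ v : V, v ≠ 0 ∧ ∀ k ∈ K, ρ k v = v :=
    ⟨⟨v0, hv0V⟩, fun h => hv0 (congrArg Subtype.val h), fun k hk => Subtype.ext (by
      rw [hρ]
      exact hv0K k hk)⟩
  rcases hLin V ρ hρN hirr hfix with ⟨H, hH0, hHd, v, hv, hvz⟩ | ⟨M, hPM, hM⟩
  · apply hv
    apply Subtype.ext
    refine hVli hCOM hAvg hKls hMov hAdx g n d K.normalCore H (ext0 K f) fine0 hH0 hHd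
      (v : K.normalCore → ℂ) ?_ (fun x hx => hVN x hx v v.2) (hVc v v.2) hKer
    intro x hx
    obtain ⟨z, hz⟩ := hvz x hx
    exact ⟨z, congrArg Subtype.val hz⟩
  · have hM2 : ∀ w, w ∈ M ↔ ∀ v ∈ V, translate K w v = v := by
      intro w
      rw [hM]
      constructor
      · intro h v hv
        have h1 := congrArg (fun e : V →ₗ[ℂ] V => ((e ⟨v, hv⟩ : V) : K.normalCore → ℂ)) h
        exact h1
      · intro h
        apply LinearMap.ext
        intro v
        apply Subtype.ext
        exact h v v.2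
    have hV0 : V ≠ ⊥ := by
      intro h
      apply hv0
      rw [h] at hv0V
      exact (Submodule.mem_bot ℂ).mp hv0V
    have hVsp : V ≤ spanOf K f := by
      intro v hv
      obtain ⟨ι, hι, c, w, hw⟩ := hVc v hv
      have e : v = ∑ j, c j • translate K (w j)
          (fun x : K.normalCore => ((f ⟨x, K.normalCore_le x.2⟩ : ℚ) : ℂ)) := by
        funext x
        rw [Finset.sum_apply, hw x]
        refine Finset.sum_congr rfl fun j _ => ?_
        have hx : (w j)⁻¹ * (x : F g n) * w j ∈ K.normalCore := by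
          have := hNn.conj_mem x.1 x.2 (w j)⁻¹
          rwa [inv_inv] at this
        rw [ext0_mem (hle hx)]
        rfl
      rw [e]
      exact Submodule.sum_mem _ fun j _ =>
        Submodule.smul_mem _ _ (Submodule.subset_span ⟨w j, rfl⟩)
    exact infinite_of_part g n K hR f hf V hV0 hVsp (fun w v hv => hVst w v hv) M hM2
      (fun h1 h2 => hvan M hPM h1 h2) hfin

end Pool.Agent.PWG
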