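import Pool.Agent.PWG.StC

/-!
# Campaign PWG: the complement of the first handle
-/

set_option autoImplicit false

open scoped BigOperators

namespace Pool.Agent.PWG

open Pool.Agent.PW Pool.Agent.PWM Pool.Agent.PWB Pool.Agent.PWX Pool.Agent.PWF Pool.Agent.PWL
  Pool.Agent.PWY Pool.Agent.PWE
open scoped Classical

theorem Fng_sh {h n : ℕ} : sh (h + 2) n (gb 0) = (gb 1 : F (h + 3) n) := by
  show FreeGroup.lift _ (FreeGroup.of (Gen.b 0)) = _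
  rw [FreeGroup.lift_apply_of]
  rfl

theorem thm_Fng (hHnd : St_Hnd) (hFrm : St_Frm) (hTwo : St_Two) (hEuk : St_Euk) : St_Fng := by
  intro hExt hMov hBsd hSml hUcl h n A _ _ _ H f m hi hlog hMu hMx ha hb hoc x hx
  obtain ⟨-, hE2, -, -, hE5, -, -, -⟩ := @hExt (h + 2) n
  obtain ⟨hK0, hK1⟩ := hE5 H hi
  have hK2 : 340 * (Nat.log 2 (H.comap (sh (h + 2) n)).index + 1) ≤ h + 2 := by
    have h1 : Nat.log 2 (H.comap (sh (h + 2) n)).index ≤ Nat.log 2 H.index :=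
      Nat.log_mono_right hK1
    omega
  have hx1 : x ∈ Lb (H.comap (sh (h + 2) n)) := hBsd _ hK0 hK2 x hx
  unfold Lb at hx1
  have hle : Subgroup.closure {x | x ∈ H.comap (sh (h + 2) n) ∧ Sb x} ≤
      (Uu H f).comap (sh (h + 2) n) := by
    rw [Subgroup.closure_le]
    rintro y ⟨hyK, ψ, hψ, i, rfl⟩
    obtain ⟨θ, hθ, -, hθb⟩ := (@hMov (h + 2) n).1 0 i rfl
    obtain ⟨Ψ, hΨ, hΨa, hΨb, hΨs⟩ := hE2 (ψ * θ) ((MB (h + 2) n).mul_mem hψ hθ)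
    have e1 : Ψ (gb 1) = sh (h + 2) n (ψ (gb i)) := by
      rw [← Fng_sh, hΨs, MulAut.mul_apply, hθb]
    show sh (h + 2) n (ψ (gb i)) ∈ Uu H f
    have hyH : Ψ (gb 1) ∈ H := by
      rw [e1]
      exact hyK
    have hV : f (Ψ (gb 1)) ∈ Va f :=
      hSml hExt hMov hHnd hFrm hTwo H f m hi hlog hMu hMx ha hb hoc Ψ hΨ.1 hΨa hΨb hyH
    rw [← e1]
    exact hUcl hMov hEuk hFrm H f hMu ha hb Ψ hΨ.1 hΨa hΨb hyH hV
  exact hle hx1

end Pool.Agent.PWG
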