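import Pool.Agent.PWG.StC

/-!
# Campaign PWG: module Frm
-/

set_option autoImplicit false

open scoped BigOperators

namespace Pool.Agent.PWG

open Pool.Agent.PW Pool.Agent.PWM Pool.Agent.PWB Pool.Agent.PWX Pool.Agent.PWF Pool.Agent.PWL
  Pool.Agent.PWY Pool.Agent.PWE
open scoped Classical

variable {g n : ℕ} {A : Type} [CommGroup A]

private theorem Frm_sm {x : F g n} (hx : Sm x) {φ : MulAut (F g n)} (hφ : φ ∈ MCG g n) :
    Sm (φ x) := by
  obtain ⟨ψ, hψ, i, rfl⟩ := hx
  exact ⟨φ * ψ, (MCG g n).mul_mem hφ hψ, i, rfl⟩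

private theorem Frm_conj (y : F g n) : MulAut.conj y ∈ MCG g n := by
  have key : ∀ z : F g n, IsConj (MulAut.conj y z) z := by
    intro z
    rw [MulAut.conj_apply]
    exact (isConj_iff.mpr ⟨y, rfl⟩).symm
  exact ⟨key _, fun j => key _⟩

private theorem Frm_one {H : Subgroup (F g n)} {f : F g n → A} (h : Mu H f) : f 1 = 1 := by
  have h1 := h 1 H.one_mem 1 H.one_mem
  rw [mul_one] at h1
  exact (mul_eq_left.mp h1.symm)

private theorem Frm_inv {H : Subgroup (F g n)} {f : F g n → A} (h : Mu H f) {x : F g n}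
    (hx : x ∈ H) : f x⁻¹ = (f x)⁻¹ := by
  have h1 := h x⁻¹ (H.inv_mem hx) x hx
  rw [inv_mul_cancel, Frm_one h] at h1
  exact eq_inv_of_mul_eq_one_left h1.symm

/-- (Frm) Change of the frame. -/
theorem thm_Frm : St_Frm := by
  intro g n A _ H f hf
  refine ⟨?_, ?_, ?_, ?_, ?_, Frm_one hf, fun x hx => Frm_inv hf hx, ?_⟩
  · intro φ x hx y hy
    show f (φ (x * y)) = f (φ x) * f (φ y)
    rw [map_mul]
    exact hf _ hx _ hy
  · intro m h φ hφ ψ hψ i hi ha hb
    exact h (φ * ψ) ((MCG g n).mul_mem hφ hψ) i hi ha hb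
  · intro φ hφ x
    constructor
    · intro hx
      have h1 : Ls (H.comap φ.toMonoidHom) (fun x => f (φ x)) ≤
          (Ls H f).comap φ.toMonoidHom := by
        refine (Subgroup.closure_le _).mpr ?_
        rintro y ⟨h1, h2, h3⟩
        exact Subgroup.subset_closure ⟨h1, h2, Frm_sm h3 hφ⟩
      exact h1 hx
    · intro hx
      have h1 : Ls H f ≤ (Ls (H.comap φ.toMonoidHom) (fun x => f (φ x))).comap
          (φ⁻¹ : MulAut (F g n)).toMonoidHom := by
        refine (Subgroup.closure_le _).mpr ?_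
        rintro y ⟨h1, h2, h3⟩
        have h4 : φ ((φ⁻¹ : MulAut (F g n)) y) = y := by simp
        refine Subgroup.subset_closure ⟨?_, ?_, Frm_sm h3 ((MCG g n).inv_mem hφ)⟩
        · show φ ((φ⁻¹ : MulAut (F g n)) y) ∈ H
          rw [h4]
          exact h1
        · show f (φ ((φ⁻¹ : MulAut (F g n)) y)) = 1
          rw [h4]
          exact h2
      have h2 : (φ⁻¹ : MulAut (F g n)) (φ x) ∈
          Ls (H.comap φ.toMonoidHom) (fun x => f (φ x)) := h1 hx
      have h3 : (φ⁻¹ : MulAut (F g n)) (φ x) = x := by simp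
      rwa [h3] at h2
  · intro y hy x hx
    have h1 : Ls H f ≤ (Ls H f).comap (MulAut.conj y).toMonoidHom := by
      refine (Subgroup.closure_le _).mpr ?_
      rintro z ⟨h1, h2, h3⟩
      have h4 : MulAut.conj y z = y * z * y⁻¹ := MulAut.conj_apply y z
      refine Subgroup.subset_closure ⟨?_, ?_, Frm_sm h3 (Frm_conj y)⟩
      · show MulAut.conj y z ∈ H
        rw [h4]
        exact H.mul_mem (H.mul_mem hy h1) (H.inv_mem hy)
      · show f (MulAut.conj y z) = 1
        rw [h4, hf _ (H.mul_mem hy h1) _ (H.inv_mem hy), hf _ hy _ h1, h2, mul_one,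
          Frm_inv hf hy, mul_inv_cancel]
    have h2 := h1 hx
    change MulAut.conj y x ∈ Ls H f at h2
    rwa [MulAut.conj_apply] at h2
  · intro x hx
    let E : Subgroup (F g n) :=
      { carrier := {x | x ∈ H ∧ f x = 1}
        one_mem' := ⟨H.one_mem, Frm_one hf⟩
        mul_mem' := fun {a b} ha hb => ⟨H.mul_mem ha.1 hb.1, by
          rw [hf _ ha.1 _ hb.1, ha.2, hb.2, mul_one]⟩
        inv_mem' := fun {a} ha => ⟨H.inv_mem ha.1, by rw [Frm_inv hf ha.1, ha.2, inv_one]⟩ }
    have h1 : Ls H f ≤ E := (Subgroup.closure_le _).mpr fun y hy => ⟨hy.1, hy.2.1⟩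
    exact h1 hx
  · intro S hS x hx
    let E : Subgroup (F g n) :=
      { carrier := {x | x ∈ H ∧ f x ∈ Subgroup.closure (f '' S)}
        one_mem' := ⟨H.one_mem, by rw [Frm_one hf]; exact Subgroup.one_mem _⟩
        mul_mem' := fun {a b} ha hb => ⟨H.mul_mem ha.1 hb.1, by
          rw [hf _ ha.1 _ hb.1]
          exact Subgroup.mul_mem _ ha.2 hb.2⟩
        inv_mem' := fun {a} ha => ⟨H.inv_mem ha.1, by
          rw [Frm_inv hf ha.1]
          exact Subgroup.inv_mem _ ha.2⟩ }
    have h1 : Subgroup.closure S ≤ E := (Subgroup.closure_le _).mpr fun y hy =>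
      ⟨hS hy, Subgroup.subset_closure ⟨y, hy, rfl⟩⟩
    exact (h1 hx).2

end Pool.Agent.PWG
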