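import Pool.Agent.PWG.St

/-!
# Campaign PWG, module Hnd: a handle in `K`, such that the other handles are transitive
-/

set_option autoImplicit false

open scoped BigOperators

namespace Pool.Agent.PWG

open Pool.Agent.PW Pool.Agent.PWM Pool.Agent.PWB Pool.Agent.PWX Pool.Agent.PWF Pool.Agent.PWL
  Pool.Agent.PWY Pool.Agent.PWE
open scoped Classical

private theorem Hnd_Ds {H : Type} [Group H] (S : Subgroup H) (l : List H) :
    (∀ y ∈ l, y ∈ S) → ∀ x ∈ Ds (⊤ : Subgroup H) l, x ∈ S := by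
  induction l with
  | nil =>
    intro _ x hx
    rw [Ds, Finset.mem_singleton] at hx
    rw [hx]
    exact S.one_mem
  | cons a l ih =>
    intro h x hx
    rw [Ds, if_pos (Subgroup.mem_top a), Finset.mem_union, Finset.mem_image] at hx
    rcases hx with hx | ⟨e, he, rfl⟩
    · exact ih (fun y hy => h y (List.mem_cons_of_mem _ hy)) x hx
    · exact S.mul_mem (ih (fun y hy => h y (List.mem_cons_of_mem _ hy)) e he)
        (h a (List.mem_cons_self ..))

private theorem Hnd_split {Q : Type} [Group Q] {g n : ℕ} (ρ : F g n →* Q) (k : ℕ) :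
    lst ρ 0 (1 + 2 * k) = vls ρ 0 :: (lst ρ 1 k ++ lst ρ (1 + k) k) := by
  apply List.ext_getElem
  · simp [lst]
    omega
  · intro i h1 h2
    rcases i with _ | i
    · simp [lst]
    · simp only [lst, List.getElem_map, List.getElem_range, List.getElem_cons_succ]
      rcases Nat.lt_or_ge i k with hi | hi
      · rw [List.getElem_append_left (by simpa using hi)]
        simp only [List.getElem_map, List.getElem_range]
        congr 1
        omega
      · rw [List.getElem_append_right (by simpa using hi)]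
        simp only [List.getElem_map, List.getElem_range, List.length_map, List.length_range]
        congr 1
        omega

private theorem Hnd_bk {g n : ℕ} (a k : ℕ) (h : a + k ≤ g) :
    (lst (MonoidHom.id (F g n)) a k).map Prod.snd = ((gbl g n).drop a).take k := by
  apply List.ext_getElem
  · simp [lst, gbl]
    omega
  · intro i h1 h2
    have hi : i < k := by
      simpa [lst] using h1
    have hi2 : a + i < g := by omega
    simp [lst, gbl, vls, hi2]

theorem thm_Hnd (hBlo : St_Blo) (hCuf : St_Cuf) (hReb : St_Reb) : St_Hnd := by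
  intro h n K hK hg
  obtain ⟨k, φ, hk, hk3, hφ, hJ⟩ := hBlo K hK hg
  set K' := K.comap φ.toMonoidHom with hK'
  have hbas := Pool.Agent.PWH.bBas
  obtain ⟨hb1, hb2, -, hb4, -, hb6, -⟩ := hbas
  have hblk : ∀ t, t < 3 → (lst (MonoidHom.id (F (h + 1) n)) (1 + t * k) k).map Prod.snd =
      bk (h + 1) n k t := by
    intro t ht
    unfold bk
    apply Hnd_bk
    have : t * k ≤ 2 * k := Nat.mul_le_mul_right k (by omega)
    omega
  set B0 := lst (MonoidHom.id (F (h + 1) n)) 1 k with hB0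
  set B1 := lst (MonoidHom.id (F (h + 1) n)) (1 + k) k with hB1
  have hB0m : B0.map Prod.snd = bk (h + 1) n k 0 := by
    have := hblk 0 (by norm_num)
    simpa using this
  have hB1m : B1.map Prod.snd = bk (h + 1) n k 1 := by
    have := hblk 1 (by norm_num)
    simpa using this
  obtain ⟨p, hp⟩ : ∃ p : F (h + 1) n × F (h + 1) n, p = vls (MonoidHom.id (F (h + 1) n)) 0 := ⟨_, rfl⟩
  -- first letter
  obtain ⟨d, hd, hdK⟩ := hJ 0 (by norm_num) p.2 1
  rw [inv_one, one_mul] at hdK
  obtain ⟨p', P', hL1, hp2, -⟩ := hCuf B0 [] p d (by rw [hB0m]; exact hd)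
  rw [List.nil_append] at hL1
  -- second letter
  obtain ⟨d', hd', hdK'⟩ := hJ 1 (by norm_num) (rt p').2 1
  rw [inv_one, one_mul] at hdK'
  obtain ⟨p'', P'', hL2, hq2, hq1⟩ := hCuf B1 P' (rt p') d' (by rw [hB1m]; exact hd')
  have hL : LG (lst (MonoidHom.id (F (h + 1) n)) 0 (1 + 2 * k)) (p'' :: P'') := by
    rw [Hnd_split, ← hp, ← hB0, ← hB1]
    have h1 : LG (p :: (B0 ++ B1)) (p' :: (P' ++ B1)) := by
      have := hb4 [] (p :: B0) (p' :: P') B1 hL1
      simpa using this
    have h2 : LG (p' :: (P' ++ B1)) (rt p' :: (P' ++ B1)) := by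
      have := hb4 [] [p'] [rt p'] (P' ++ B1) (hb6 p')
      simpa using this
    exact hb2 _ _ _ h1 (hb2 _ _ _ h2 hL2)
  obtain ⟨θ, hθ, hθL, hθo, -⟩ := hReb (MonoidHom.id (F (h + 1) n)) (p'' :: P'') (m := 0)
    (k := 1 + 2 * k) (by omega) hL
  have hhead : vls ((MonoidHom.id (F (h + 1) n)).comp (MulEquiv.toMonoidHom θ)) 0 = p'' := by
    rw [Hnd_split] at hθL
    exact (List.cons.inj hθL).1
  have h0 : (0 : ℕ) < h + 1 := by omega
  have hga : θ (ga 0) = p''.1 := by
    rw [← hhead, vls, dif_pos h0]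
    rfl
  have hgb : θ (gb 0) = p''.2 := by
    rw [← hhead, vls, dif_pos h0]
    rfl
  have hfix : ∀ j : Fin (h + 1), 1 + 2 * k ≤ (j : ℕ) → θ (gb j) = gb j := by
    intro j hj
    have h1 := hθo j (Or.inr (by omega))
    rw [vls, vls, dif_pos j.2, dif_pos j.2] at h1
    exact (Prod.mk.inj h1).2
  have hbk2 : ∀ x ∈ Ds (⊤ : Subgroup (F (h + 1) n)) (bk (h + 1) n k 2), x ∈ Pl θ 1 := by
    apply Hnd_Ds
    intro y hy
    rw [← hblk 2 (by norm_num)] at hy
    obtain ⟨q, hq, rfl⟩ := List.mem_map.1 hy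
    unfold lst at hq
    obtain ⟨i, hi, rfl⟩ := List.mem_map.1 hq
    have hik : i < k := by simpa using hi
    have hlt : 1 + 2 * k + i < h + 1 := by omega
    refine Subgroup.subset_closure ⟨⟨1 + 2 * k + i, hlt⟩, by simp; omega, Or.inr ?_⟩
    rw [hfix _ (by simp), vls, dif_pos hlt]
    rfl
  refine ⟨φ * θ, (MB (h + 1) n).mul_mem hφ hθ, ?_, ?_, ?_⟩
  · show φ (θ (ga 0)) ∈ K
    rw [hga, hq1]
    have h1 : (rt p').1 ∈ K' := by
      show p'.2⁻¹ ∈ K'
      rw [hp2]
      exact K'.inv_mem hdK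
    exact h1
  · show φ (θ (gb 0)) ∈ K
    rw [hgb, hq2]
    exact hdK'
  · intro x
    obtain ⟨a, ha, haK⟩ := hJ 2 (by norm_num) 1 (φ⁻¹ x)
    rw [mul_one] at haK
    refine ⟨φ a, ?_, ?_⟩
    · have h1 := hbk2 a ha
      have h2 : φ a ∈ (Pl θ 1).map φ.toMonoidHom := ⟨a, h1, rfl⟩
      unfold Pl at h2
      rw [MonoidHom.map_closure] at h2
      unfold Pl
      refine Subgroup.closure_mono ?_ h2
      rintro _ ⟨y, ⟨i, hi, hy⟩, rfl⟩
      refine ⟨i, hi, ?_⟩
      rcases hy with rfl | rfl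
      · exact Or.inl rfl
      · exact Or.inr rfl
    · have h1 : φ ((φ⁻¹ x)⁻¹ * a) ∈ K := haK
      have h2 := K.inv_mem h1
      have h3 : (φ ((φ⁻¹ x)⁻¹ * a))⁻¹ = (φ a)⁻¹ * x := by
        rw [map_mul, map_inv]
        have h4 : φ (φ⁻¹ x) = x := by simp
        rw [h4]
        group
      rwa [h3] at h2

end Pool.Agent.PWG
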