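import Pool.Agent.PWG.StC

/-!
# The elements of the handle group in the kernel
-/

set_option autoImplicit false

open scoped BigOperators

namespace Pool.Agent.PWG

open Pool.Agent.PW Pool.Agent.PWM Pool.Agent.PWB Pool.Agent.PWX Pool.Agent.PWF Pool.Agent.PWL
  Pool.Agent.PWY Pool.Agent.PWE
open scoped Classical

/-- the restriction of `f` to `H` -/
private noncomputable def Inh_hom {g n : ℕ} {A : Type} [CommGroup A] {H : Subgroup (F g n)}
    {f : F g n → A} (hf : Mu H f) : H →* A :=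
  MonoidHom.mk' (fun x => f x) fun x y => hf x x.2 y y.2

theorem thm_Inh : St_Inh := by
  intro hMov hEuk hFrm h n A _ _ _ H f hf ha hb x hx hfx
  have hCH : Subgroup.closure {(ga 0 : F (h + 1) n), gb 0} ≤ H := by
    rw [Subgroup.closure_le]
    rintro y (rfl | rfl)
    · exact ha
    · exact hb
  have hfC : Mu (Subgroup.closure {(ga 0 : F (h + 1) n), gb 0}) f :=
    fun y hy z hz => hf y (hCH hy) z (hCH hz)
  obtain ⟨ζ, hζ⟩ := IsCyclic.exists_generator (α := A)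
  obtain ⟨α, hα⟩ := Subgroup.mem_zpowers_iff.1 (hζ (f (ga 0)))
  obtain ⟨β, hβ⟩ := Subgroup.mem_zpowers_iff.1 (hζ (f (gb 0)))
  obtain ⟨⟨θ, hθ, hθb⟩, -⟩ := hEuk 0 f ζ α β hfC hα.symm hβ.symm
  -- the new letters
  have hmem : ∀ y ∈ Subgroup.closure {(ga 0 : F (h + 1) n), gb 0}, θ y ∈ H := by
    intro y hy
    apply hCH
    rw [← hθ.map]
    exact ⟨y, hy, rfl⟩
  have ha' : θ (ga 0) ∈ H := hmem _ (Subgroup.subset_closure (Set.mem_insert _ _))
  have hb' : θ (gb 0) ∈ H :=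
    hmem _ (Subgroup.subset_closure (Set.mem_insert_of_mem _ (Set.mem_singleton _)))
  obtain ⟨-, -, -, hnor, hLs, -⟩ := hFrm H f hf
  have hbL : θ (gb 0) ∈ Ls H f :=
    Subgroup.subset_closure ⟨hb', hθb, θ, hθ.mem.1, 0, rfl⟩
  have hz : ∀ k : ℤ, f (θ (ga 0) ^ k) = f (θ (ga 0)) ^ k := by
    intro k
    have := map_zpow (Inh_hom hf) (⟨θ (ga 0), ha'⟩ : H) k
    exact this
  -- the power
  have hmL : θ (ga 0) ^ ((orderOf (f (θ (ga 0))) : ℕ) : ℤ) ∈ Ls H f := by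
    obtain ⟨e, he, -, he2, -, -⟩ := hMov.2.2.2.2 (0 : Fin (h + 1)) ((orderOf (f (θ (ga 0))) : ℕ) : ℤ)
    have h1 : θ (gb 0) * θ (ga 0) ^ ((orderOf (f (θ (ga 0))) : ℕ) : ℤ) ∈ Ls H f := by
      refine Subgroup.subset_closure ⟨H.mul_mem hb' (H.zpow_mem ha' _), ?_, θ * e,
        (MCG (h + 1) n).mul_mem hθ.mem.1 he.1, 0, ?_⟩
      · rw [hf _ hb' _ (H.zpow_mem ha' _), hθb, hz, zpow_natCast, pow_orderOf_eq_one, one_mul]
      · rw [MulAut.mul_apply, he2, map_mul, map_zpow]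
    have h2 := (Ls H f).mul_mem ((Ls H f).inv_mem hbL) h1
    rwa [inv_mul_cancel_left] at h2
  -- normal form
  have hnf : ∀ y ∈ Subgroup.closure {(θ (ga 0) : F (h + 1) n), θ (gb 0)},
      ∃ k : ℤ, (θ (ga 0) ^ k)⁻¹ * y ∈ Ls H f := by
    intro y hy
    induction hy using Subgroup.closure_induction with
    | mem y hy =>
      rcases hy with rfl | rfl
      · exact ⟨1, by rw [zpow_one, inv_mul_cancel]; exact one_mem _⟩
      · exact ⟨0, by rw [zpow_zero, inv_one, one_mul]; exact hbL⟩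
    | one => exact ⟨0, by rw [zpow_zero, inv_one, one_mul]; exact one_mem _⟩
    | mul y z _ _ h1 h2 =>
      obtain ⟨k, hk⟩ := h1
      obtain ⟨l, hl⟩ := h2
      refine ⟨k + l, ?_⟩
      have h3 := hnor ((θ (ga 0) ^ l)⁻¹) (H.inv_mem (H.zpow_mem ha' _)) _ hk
      have h4 := (Ls H f).mul_mem h3 hl
      have e : (θ (ga 0) ^ (k + l))⁻¹ * (y * z) =
          (θ (ga 0) ^ l)⁻¹ * ((θ (ga 0) ^ k)⁻¹ * y) * ((θ (ga 0) ^ l)⁻¹)⁻¹ *
            ((θ (ga 0) ^ l)⁻¹ * z) := by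
        rw [zpow_add]
        group
      rw [e]
      exact h4
    | inv y _ h1 =>
      obtain ⟨k, hk⟩ := h1
      refine ⟨-k, ?_⟩
      have h3 := hnor (θ (ga 0) ^ k) (H.zpow_mem ha' _) _ ((Ls H f).inv_mem hk)
      have e : (θ (ga 0) ^ (-k))⁻¹ * y⁻¹ =
          θ (ga 0) ^ k * ((θ (ga 0) ^ k)⁻¹ * y)⁻¹ * (θ (ga 0) ^ k)⁻¹ := by
        group
      rw [e]
      exact h3
  have hx' : x ∈ Subgroup.closure {(θ (ga 0) : F (h + 1) n), θ (gb 0)} := by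
    have h1 := hθ.map
    rw [MonoidHom.map_closure] at h1
    have h2 : (⇑θ.toMonoidHom '' {(ga 0 : F (h + 1) n), gb 0}) = {θ (ga 0), θ (gb 0)} := by
      rw [Set.image_pair]
      rfl
    rw [h2] at h1
    rw [h1]
    exact hx
  obtain ⟨k, hk⟩ := hnf x hx'
  obtain ⟨hkH, hk1⟩ := hLs _ hk
  have hxe : x = θ (ga 0) ^ k * ((θ (ga 0) ^ k)⁻¹ * x) := by group
  have h5 : f (θ (ga 0)) ^ k = 1 := by
    have h6 := hf _ (H.zpow_mem ha' k) _ hkH
    rw [← hxe, hfx, hk1, mul_one, hz] at h6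
    exact h6.symm
  obtain ⟨q, hq⟩ := orderOf_dvd_iff_zpow_eq_one.2 h5
  have h7 : θ (ga 0) ^ k ∈ Ls H f := by
    rw [hq, zpow_mul]
    exact (Ls H f).zpow_mem hmL q
  rw [hxe]
  exact (Ls H f).mul_mem h7 hk

end Pool.Agent.PWG
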