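import Pool.Agent.PWG.StC

/-!
# Campaign PWG, part Ker: the kernel of `f` is generated by simple curves
-/

set_option autoImplicit false

namespace Pool.Agent.PWG

open Pool.Agent.PW Pool.Agent.PWM Pool.Agent.PWB Pool.Agent.PWX Pool.Agent.PWF Pool.Agent.PWL
  Pool.Agent.PWY Pool.Agent.PWE
open scoped Classical

/-- The products of elements of `A` and of `B`, if `A` normalises `B`. -/
private def Ker_D {G : Type} [Group G] (A B : Subgroup G) (h : ∀ s ∈ A, ∀ l ∈ B, s * l * s⁻¹ ∈ B) :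
    Subgroup G where
  carrier := {x | ∃ s ∈ A, ∃ l ∈ B, x = s * l}
  one_mem' := ⟨1, A.one_mem, 1, B.one_mem, by simp⟩
  mul_mem' := by
    rintro x y ⟨s, hs, l, hl, rfl⟩ ⟨s', hs', l', hl', rfl⟩
    refine ⟨s * s', A.mul_mem hs hs', s'⁻¹ * l * s' * l', B.mul_mem ?_ hl', by group⟩
    have := h s'⁻¹ (A.inv_mem hs') l hl
    rwa [inv_inv] at this
  inv_mem' := by
    rintro x ⟨s, hs, l, hl, rfl⟩
    exact ⟨s⁻¹, A.inv_mem hs, s * l⁻¹ * s⁻¹, h s hs _ (B.inv_mem hl), by group⟩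

private theorem Ker_sup {G : Type} [Group G] (A B : Subgroup G)
    (h : ∀ s ∈ A, ∀ l ∈ B, s * l * s⁻¹ ∈ B) (x : G) (hx : x ∈ A ⊔ B) :
    ∃ s ∈ A, ∃ l ∈ B, x = s * l := by
  have h1 : A ⊔ B ≤ Ker_D A B h := by
    refine sup_le ?_ ?_
    · intro s hs
      exact ⟨s, hs, 1, B.one_mem, by simp⟩
    · intro l hl
      exact ⟨1, A.one_mem, l, hl, by simp⟩
  exact h1 hx

/-- The elements `x` such that `x` and its inverse are in a set which is closed under products. -/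
private def Ker_E {G : Type} [Group G] (E : Set G) (h1 : (1 : G) ∈ E)
    (hm : ∀ x ∈ E, ∀ y ∈ E, x * y ∈ E) : Subgroup G where
  carrier := {x | x ∈ E ∧ x⁻¹ ∈ E}
  one_mem' := ⟨h1, by rwa [inv_one]⟩
  mul_mem' := by
    rintro x y ⟨h1, h2⟩ ⟨h3, h4⟩
    exact ⟨hm x h1 y h3, by rw [mul_inv_rev]; exact hm _ h4 _ h2⟩
  inv_mem' := by
    rintro x ⟨h1, h2⟩
    exact ⟨h2, by rwa [inv_inv]⟩

private theorem Ker_Pl {g n : ℕ} (φ : MulAut (F g n)) (k : ℕ) (y : F g n) (hy : y ∈ Pl φ k) :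
    φ⁻¹ y ∈ Pl (1 : MulAut (F g n)) k := by
  have h1 : Pl φ k ≤ (Pl (1 : MulAut (F g n)) k).comap (φ⁻¹ : MulAut (F g n)).toMonoidHom := by
    unfold Pl
    rw [Subgroup.closure_le]
    rintro z ⟨i, hi, rfl | rfl⟩
    · refine Subgroup.subset_closure ⟨i, hi, Or.inl ?_⟩
      show φ⁻¹ (φ (ga i)) = ga i
      exact φ.symm_apply_apply _
    · refine Subgroup.subset_closure ⟨i, hi, Or.inr ?_⟩
      show φ⁻¹ (φ (gb i)) = gb i
      exact φ.symm_apply_apply _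
  exact h1 hy

/-- The claim in the good frame. -/
private theorem Ker_core (hExt : St_Ext) (hMov : St_Mov) (hFrm : St_Frm) (hFng : St_Fng)
    (hInh : St_Inh) (hEuk : St_Euk) (hBsd : St_Bsd) (hSml : St_Sml) (hUcl : St_Ucl)
    {h n : ℕ} {A : Type} [CommGroup A] [Finite A] [IsCyclic A] (H : Subgroup (F (h + 3) n))
    (f : F (h + 3) n → A) (hH : H.index ≠ 0) (hl : 340 * (Nat.log 2 H.index + 1) ≤ h + 1)
    (hMu : Mu H f) (m : ℕ) (hMx : Mx H f m) (ha0 : ga 0 ∈ H) (hb0 : gb 0 ∈ H) (ha1 : ga 1 ∈ H)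
    (hb1 : gb 1 ∈ H) (ho0 : oc (f (ga 0)) (f (gb 0)) = m) (ho1 : oc (f (ga 1)) (f (gb 1)) = m)
    (htr : ∀ x : F (h + 3) n, ∃ y ∈ Pl (1 : MulAut (F (h + 3) n)) 2, y⁻¹ * x ∈ H) :
    ∀ x ∈ H, f x = 1 → x ∈ Ls H f := by
  obtain ⟨hF1, hF2, hF3, hF4, hF5, hF6⟩ := hFrm H f hMu
  obtain ⟨σ, hσ, hσa0, hσb0, hσa1, hσb1, hσl, -⟩ :=
    (hMov (g := h + 3) (n := n)).2.1 0 1 (by simp)
  have hσM : σ ∈ MCG (h + 3) n := hσ.1
  obtain ⟨c, hc⟩ : ∃ c : F (h + 3) n, c = Pool.Agent.PWM.dl 1 := ⟨_, rfl⟩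
  rw [← hc] at hσa1 hσb1
  have hidx : (H.comap σ.toMonoidHom).index = H.index := (hExt (h := h + 3) (n := n)).2.2.2.2.2.1 H σ
  -- (i)
  have hi : ∀ x, sh (h + 2) n x ∈ H → sh (h + 2) n x ∈ Uu H f :=
    hFng hExt hMov hBsd hSml hUcl H f m hH hl hMu hMx ha0 hb0 ho0
  -- (ii)
  have hii0 : ∀ x, sh (h + 2) n x ∈ H.comap σ.toMonoidHom →
      sh (h + 2) n x ∈ Uu (H.comap σ.toMonoidHom) (fun x => f (σ x)) :=
    hFng hExt hMov hBsd hSml hUcl (H.comap σ.toMonoidHom) (fun x => f (σ x)) m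
      (by rw [hidx]; exact hH) (by rw [hidx]; exact hl) (hF1 σ) (hF2 m hMx σ hσM)
      (by show σ (ga 0) ∈ H; rw [hσa0]; exact ha1) (by show σ (gb 0) ∈ H; rw [hσb0]; exact hb1)
      (by show oc (f (σ (ga 0))) (f (σ (gb 0))) = m; rw [hσa0, hσb0]; exact ho1)
  obtain ⟨U1, hU1⟩ : ∃ U1 : Subgroup (F (h + 3) n),
      U1 = Subgroup.closure {ga 1, gb 1} ⊔ Ls H f := ⟨_, rfl⟩
  have hii1 : Uu (H.comap σ.toMonoidHom) (fun x => f (σ x)) ≤ U1.comap σ.toMonoidHom := by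
    unfold Uu
    refine sup_le ?_ ?_
    · rw [Subgroup.closure_le]
      rintro z (rfl | rfl)
      · show σ (ga 0) ∈ U1
        rw [hσa0, hU1]
        exact Subgroup.mem_sup_left (Subgroup.subset_closure (by simp))
      · show σ (gb 0) ∈ U1
        rw [hσb0, hU1]
        exact Subgroup.mem_sup_left (Subgroup.subset_closure (by simp))
    · intro z hz
      show σ z ∈ U1
      rw [hU1]
      exact Subgroup.mem_sup_right ((hF3 σ hσM z).1 hz)
  have hii : ∀ x, σ (sh (h + 2) n x) ∈ H → σ (sh (h + 2) n x) ∈ U1 := fun x hx =>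
    hii1 (hii0 x hx)
  -- the letters of the second handle
  have hsa : ∀ i : Fin (h + 2), sh (h + 2) n (ga i) = ga i.succ := fun i => by simp [sh, ga]
  have hsb : ∀ i : Fin (h + 2), sh (h + 2) n (gb i) = gb i.succ := fun i => by simp [sh, gb, ga]
  have hsa1 : sh (h + 2) n (ga 0) = ga 1 := by rw [hsa]; rfl
  have hsb1 : sh (h + 2) n (gb 0) = gb 1 := by rw [hsb]; rfl
  have hcc : c ∈ Subgroup.closure {(ga 1 : F (h + 3) n), gb 1} := by
    have h1 : (ga 1 : F (h + 3) n) ∈ Subgroup.closure {(ga 1 : F (h + 3) n), gb 1} :=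
      Subgroup.subset_closure (by simp)
    have h2 : (gb 1 : F (h + 3) n) ∈ Subgroup.closure {(ga 1 : F (h + 3) n), gb 1} :=
      Subgroup.subset_closure (by simp)
    rw [hc]
    unfold Pool.Agent.PWM.dl
    exact Subgroup.mul_mem _ (Subgroup.mul_mem _ (Subgroup.mul_mem _ h1 h2)
      (Subgroup.inv_mem _ h1)) (Subgroup.inv_mem _ h2)
  have hcle : ∀ E : Subgroup (F (h + 3) n), ga 1 ∈ E → gb 1 ∈ E → c ∈ E := by
    intro E h1 h2
    have h3 : Subgroup.closure {(ga 1 : F (h + 3) n), gb 1} ≤ E := by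
      rw [Subgroup.closure_le]
      rintro z (rfl | rfl)
      · exact h1
      · exact h2
    exact h3 hcc
  have hcH : c ∈ H := hcle H ha1 hb1
  have hcR : ∃ c', sh (h + 2) n c' = c := by
    have := hcle (sh (h + 2) n).range ⟨_, hsa1⟩ ⟨_, hsb1⟩
    exact this
  -- (iii)
  have hU10 : U1 ≤ Uu H f := by
    rw [hU1]
    refine sup_le ?_ ?_
    · rw [Subgroup.closure_le]
      rintro z (rfl | rfl)
      · have := hi (ga 0) (by rw [hsa1]; exact ha1)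
        rwa [hsa1] at this
      · have := hi (gb 0) (by rw [hsb1]; exact hb1)
        rwa [hsb1] at this
    · exact le_sup_right
  have hcU : c ∈ U1 := by
    rw [hU1]
    exact Subgroup.mem_sup_left hcc
  have hU01 : Uu H f ≤ U1 := by
    unfold Uu
    refine sup_le ?_ ?_
    · rw [Subgroup.closure_le]
      have key : ∀ z : F (h + 3) n, z ∈ H → (∃ w, σ (sh (h + 2) n w) = c⁻¹ * z * c) → z ∈ U1 := by
        rintro z hz ⟨w, hw⟩
        have h1 := hii w (by rw [hw]; exact H.mul_mem (H.mul_mem (H.inv_mem hcH) hz) hcH)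
        rw [hw] at h1
        have h2 : z = c * (c⁻¹ * z * c) * c⁻¹ := by group
        rw [h2]
        exact U1.mul_mem (U1.mul_mem hcU h1) (U1.inv_mem hcU)
      rintro z (rfl | rfl)
      · exact key _ ha0 ⟨ga 0, by rw [hsa1, hσa1]⟩
      · exact key _ hb0 ⟨gb 0, by rw [hsb1, hσb1]⟩
    · rw [hU1]
      exact le_sup_right
  have hUeq : U1 = Uu H f := le_antisymm hU10 hU01
  -- `P` lies in both complements
  have hPR : ∀ y ∈ Pl (1 : MulAut (F (h + 3) n)) 2, ∃ w, sh (h + 2) n w = y := by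
    have h1 : Pl (1 : MulAut (F (h + 3) n)) 2 ≤ (sh (h + 2) n).range := by
      unfold Pl
      rw [Subgroup.closure_le]
      rintro z ⟨i, hi2, hz⟩
      obtain ⟨j, rfl⟩ : ∃ j : Fin (h + 2), i = j.succ :=
        ⟨⟨i - 1, by omega⟩, by ext; simp; omega⟩
      rcases hz with rfl | rfl
      · exact ⟨ga j, hsa j⟩
      · exact ⟨gb j, hsb j⟩
    exact fun y hy => h1 hy
  have hPσ : ∀ y ∈ Pl (1 : MulAut (F (h + 3) n)) 2, ∃ w, σ (sh (h + 2) n w) = y := by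
    have h1 : Pl (1 : MulAut (F (h + 3) n)) 2 ≤ (σ.toMonoidHom.comp (sh (h + 2) n)).range := by
      unfold Pl
      rw [Subgroup.closure_le]
      rintro z ⟨i, hi2, hz⟩
      have hi0 : i ≠ 0 := by
        rintro rfl
        simp at hi2
      have hi1 : i ≠ 1 := by
        rintro rfl
        simp at hi2
      obtain ⟨h3, h4⟩ := hσl i hi0 hi1
      obtain ⟨j, rfl⟩ : ∃ j : Fin (h + 2), i = j.succ :=
        ⟨⟨i - 1, by omega⟩, by ext; simp; omega⟩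
      rcases hz with rfl | rfl
      · refine ⟨ga j, ?_⟩
        show σ (sh (h + 2) n (ga j)) = _
        rw [hsa, h3]
        rfl
      · refine ⟨gb j, ?_⟩
        show σ (sh (h + 2) n (gb j)) = _
        rw [hsb, h4]
        rfl
    exact fun y hy => h1 hy
  -- (iv)
  obtain ⟨E, hE⟩ : ∃ E : Set (F (h + 3) n), E = {x | ∀ y ∈ Pl (1 : MulAut (F (h + 3) n)) 2,
      ∃ p ∈ Pl (1 : MulAut (F (h + 3) n)) 2, ∃ u ∈ Uu H f, x * y = p * u} := ⟨_, rfl⟩
  have hE1 : (1 : F (h + 3) n) ∈ E := by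
    rw [hE]
    intro y hy
    exact ⟨y, hy, 1, Subgroup.one_mem _, by simp⟩
  have hEm : ∀ x ∈ E, ∀ y ∈ E, x * y ∈ E := by
    rw [hE]
    intro x hx x' hx' y hy
    obtain ⟨p, hp, u, hu, h1⟩ := hx' y hy
    obtain ⟨p', hp', u', hu', h2⟩ := hx p hp
    refine ⟨p', hp', u' * u, Subgroup.mul_mem _ hu' hu, ?_⟩
    rw [mul_assoc, h1, ← mul_assoc, h2, mul_assoc]
  have hER : ∀ w, sh (h + 2) n w ∈ E := by
    intro w
    rw [hE]
    intro y hy
    obtain ⟨y', hy', h1⟩ := htr (sh (h + 2) n w * y)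
    obtain ⟨v, rfl⟩ := hPR y hy
    obtain ⟨v', rfl⟩ := hPR y' hy'
    refine ⟨_, hy', (sh (h + 2) n v')⁻¹ * (sh (h + 2) n w * sh (h + 2) n v), ?_, by group⟩
    have h2 : (sh (h + 2) n v')⁻¹ * (sh (h + 2) n w * sh (h + 2) n v) =
        sh (h + 2) n (v'⁻¹ * (w * v)) := by
      rw [map_mul, map_mul, map_inv]
    rw [h2] at h1 ⊢
    exact hi _ h1
  have hEσ : ∀ w, σ (sh (h + 2) n w) ∈ E := by
    intro w
    rw [hE]
    intro y hy
    obtain ⟨y', hy', h1⟩ := htr (σ (sh (h + 2) n w) * y)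
    obtain ⟨v, rfl⟩ := hPσ y hy
    obtain ⟨v', rfl⟩ := hPσ y' hy'
    refine ⟨_, hy', (σ (sh (h + 2) n v'))⁻¹ * (σ (sh (h + 2) n w) * σ (sh (h + 2) n v)), ?_,
      by group⟩
    have h2 : (σ (sh (h + 2) n v'))⁻¹ * (σ (sh (h + 2) n w) * σ (sh (h + 2) n v)) =
        σ (sh (h + 2) n (v'⁻¹ * (w * v))) := by
      rw [map_mul, map_mul, map_inv, map_mul, map_mul, map_inv]
    rw [h2] at h1 ⊢
    rw [← hUeq]
    exact hii _ h1
  have hEtop : Ker_E E hE1 hEm = ⊤ := by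
    obtain ⟨c', hc'⟩ := hcR
    have key : ∀ z : F (h + 3) n, (∃ w, σ (sh (h + 2) n w) = c⁻¹ * z * c) → z ∈ E := by
      rintro z ⟨w, hw⟩
      have h2 : z = sh (h + 2) n c' * (σ (sh (h + 2) n w)) * sh (h + 2) n c'⁻¹ := by
        rw [hw, map_inv, hc']
        group
      rw [h2]
      exact hEm _ (hEm _ (hER _) _ (hEσ _)) _ (hER _)
    apply (hExt (h := h + 2) (n := n)).2.2.2.1
    · refine ⟨key _ ⟨ga 0, by rw [hsa1, hσa1]⟩, key _ ⟨(ga 0)⁻¹, ?_⟩⟩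
      rw [map_inv, map_inv, hsa1, hσa1]
      group
    · refine ⟨key _ ⟨gb 0, by rw [hsb1, hσb1]⟩, key _ ⟨(gb 0)⁻¹, ?_⟩⟩
      rw [map_inv, map_inv, hsb1, hσb1]
      group
    · intro x
      exact ⟨hER x, by rw [← map_inv]; exact hER _⟩
  -- (v)
  have hAH : Subgroup.closure {(ga 0 : F (h + 3) n), gb 0} ≤ H := by
    rw [Subgroup.closure_le]
    rintro z (rfl | rfl)
    · exact ha0
    · exact hb0
  have hUH : Uu H f ≤ H := sup_le hAH fun z hz => (hF5 z hz).1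
  have hHU : H ≤ Uu H f := by
    intro x hx
    have h1 : x ∈ Ker_E E hE1 hEm := by rw [hEtop]; exact Subgroup.mem_top _
    have h2 : x ∈ E := h1.1
    rw [hE] at h2
    obtain ⟨p, hp, u, hu, h3⟩ := h2 1 (Subgroup.one_mem _)
    rw [mul_one] at h3
    obtain ⟨v, rfl⟩ := hPR p hp
    have h4 : sh (h + 2) n v ∈ H := by
      have h5 : sh (h + 2) n v = x * u⁻¹ := by rw [h3]; group
      rw [h5]
      exact H.mul_mem hx (H.inv_mem (hUH hu))
    rw [h3]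
    exact Subgroup.mul_mem _ (hi v h4) hu
  -- (vi)
  intro x hx hfx
  obtain ⟨s, hs, l, hl', rfl⟩ := Ker_sup _ _ (fun s hs l hl' => hF4 s (hAH hs) l hl') x (hHU hx)
  obtain ⟨h1, h2⟩ := hF5 l hl'
  have h3 := hMu s (hAH hs) l h1
  rw [hfx, h2, mul_one] at h3
  exact Subgroup.mul_mem _ (hInh hMov hEuk hFrm H f hMu ha0 hb0 s hs h3.symm) hl'

/-- (Ker) The kernel of `f` is generated by simple curves. -/
theorem thm_Ker (hEuk : St_Euk) (hHnd : St_Hnd) (hTwo : St_Two) (hTrn : St_Trn) (hBsd : St_Bsd)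
    (hSml : St_Sml) (hUcl : St_Ucl) : St_Ker := by
  intro hExt hMov hFrm hPrp hFng hInh h n A _ _ _ H f hH hl hMu x hx hfx
  obtain ⟨φ, hφ, m, hMx, h1, h2, h3, h4, h5, h6, h7⟩ :=
    hPrp hExt hMov hEuk hHnd hFrm hTwo hTrn H f hH hl hMu
  obtain ⟨hF1, hF2, hF3, -⟩ := hFrm H f hMu
  have hidx : (H.comap φ.toMonoidHom).index = H.index := (hExt (h := h + 3) (n := n)).2.2.2.2.2.1 H φ
  have hφφ : ∀ z, φ (φ⁻¹ z) = z := fun z => φ.apply_symm_apply z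
  have h8 := Ker_core hExt hMov hFrm hFng hInh hEuk hBsd hSml hUcl (H.comap φ.toMonoidHom)
    (fun x => f (φ x)) (by rw [hidx]; exact hH) (by rw [hidx]; exact hl) (hF1 φ) m (hF2 m hMx φ hφ)
    h1 h2 h3 h4 h5 h6 (by
      intro z
      obtain ⟨y, hy, hy2⟩ := h7 (φ z)
      refine ⟨φ⁻¹ y, Ker_Pl φ 2 y hy, ?_⟩
      show φ ((φ⁻¹ y)⁻¹ * z) ∈ H
      rw [map_mul, map_inv, hφφ]
      exact hy2) (φ⁻¹ x) (by show φ (φ⁻¹ x) ∈ H; rw [hφφ]; exact hx)
    (by show f (φ (φ⁻¹ x)) = 1; rw [hφφ]; exact hfx)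
  have h9 := (hF3 φ hφ _).1 h8
  rwa [hφφ] at h9

end Pool.Agent.PWG
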