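import Pool.Agent.PWG.StC

/-!
# PWG, module Kls: an invariant class with finite orbit vanishes if the group is generated by simple curves
(offer 16702, helper26)

`thm_Kls : St_Kls`.
-/

set_option autoImplicit false

open scoped BigOperators

namespace Pool.Agent.PWG

open Pool.Agent.PW Pool.Agent.PWE

/-- **Kls** -/
theorem thm_Kls : St_Kls := by
  intro hMov hAdx g n N M f h hNM hinv hgen
  obtain ⟨f1, hadd, hf1⟩ := hAdx g n N M f h hNM hinv
  have hN := h.normal
  have hF := h.fin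
  obtain ⟨L, hL, hLN⟩ := exists_exp hN hF
  have hL0 : (L : ℚ) ≠ 0 := by exact_mod_cast hL.ne'
  have h1 : f1 1 = 0 := by
    have h2 := hadd 1 M.one_mem 1 M.one_mem
    rw [mul_one] at h2
    linarith
  have hpow : ∀ x ∈ M, ∀ k : ℕ, f1 (x ^ k) = k * f1 x := by
    intro x hx k
    induction k with
    | zero =>
      rw [pow_zero, h1]
      simp
    | succ k ih =>
      rw [pow_succ, hadd _ (M.pow_mem hx k) x hx, ih]
      push_cast
      ring
  have hinv1 : ∀ x ∈ M, f1 x⁻¹ = - f1 x := by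
    intro x hx
    have h2 := hadd x hx x⁻¹ (M.inv_mem hx)
    rw [mul_inv_cancel, h1] at h2
    linarith
  have hS : ∀ x, x ∈ M → Sm x → f1 x = 0 := by
    rintro x hx ⟨φ, hφ, i, rfl⟩
    have hg : 0 < g := lt_of_le_of_lt (Nat.zero_le _) i.2
    obtain ⟨θ, hθ, -, hθb⟩ := (hMov (g := g) (n := n)).1 ⟨0, hg⟩ i rfl
    have e : (φ * θ) (gb (⟨0, hg⟩ : Fin g)) = φ (gb i) := by
      rw [MulAut.mul_apply, hθb]
    have h2 := h.kill_b' (z := (⟨0, hg⟩ : Fin g)) rfl ((MCG g n).mul_mem hφ hθ.1) (m := L)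
      (hLN _) 1
    rw [e, one_mul, inv_one, mul_one] at h2
    have h3 := hpow _ hx L
    rw [hf1 _ (hLN _), h2] at h3
    rcases mul_eq_zero.mp h3.symm with h4 | h4
    · exact absurd h4 hL0
    · exact h4
  have key : ∀ x ∈ Subgroup.closure {x : F g n | x ∈ M ∧ Sm x}, x ∈ M ∧ f1 x = 0 := by
    intro x hx
    induction hx using Subgroup.closure_induction with
    | mem x hx => exact ⟨hx.1, hS x hx.1 hx.2⟩
    | one => exact ⟨M.one_mem, h1⟩
    | mul x y _ _ ihx ihy =>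
      exact ⟨M.mul_mem ihx.1 ihy.1, by rw [hadd x ihx.1 y ihy.1, ihx.2, ihy.2, add_zero]⟩
    | inv x _ ihx => exact ⟨M.inv_mem ihx.1, by rw [hinv1 x ihx.1, ihx.2, neg_zero]⟩
  intro x hx
  rw [← hf1 x hx]
  exact (key x (hgen (hNM hx))).2

end Pool.Agent.PWG
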