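import Pool.Agent.PWG.St
import Pool.Agent.PWX.Real

/-!
# PWG Mov: explicit mapping classes
-/

set_option autoImplicit false

namespace Pool.Agent.PWG

open Pool.Agent.PW Pool.Agent.PWM Pool.Agent.PWB Pool.Agent.PWX Pool.Agent.PWF Pool.Agent.PWL
  Pool.Agent.PWY Pool.Agent.PWE
open scoped Classical

theorem Mov_lst2 {g n : ℕ} {Q : Type} [Group Q] (φ : F g n →* Q) (i j : Fin g)
    (h : (j : ℕ) = i + 1) :
    lst φ i 2 = [(φ (ga i), φ (gb i)), (φ (ga j), φ (gb j))] := by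
  have h1 : vls φ (i + 0) = (φ (ga i), φ (gb i)) := vls_lt φ i.2
  have hj : (i : ℕ) + 1 < g := by rw [← h]; exact j.2
  have h2 : vls φ (i + 1) = (φ (ga j), φ (gb j)) := by
    rw [vls_lt φ hj]
    have e : (⟨(i : ℕ) + 1, hj⟩ : Fin g) = j := Fin.ext h.symm
    rw [e]
  have h3 : List.range 2 = [0, 1] := rfl
  unfold lst
  rw [h3, List.map_cons, List.map_cons, List.map_nil, h1, h2]

theorem Mov_first {g n : ℕ} (z : Fin g) (hz : (z : ℕ) = 0) (m : ℕ) (hm : m < g) :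
    ∃ θ ∈ MB g n, θ (ga z) = ga ⟨m, hm⟩ ∧ θ (gb z) = gb ⟨m, hm⟩ := by
  induction m with
  | zero =>
    have e : z = ⟨0, hm⟩ := Fin.ext hz
    rw [e]
    exact ⟨1, (MB g n).one_mem, rfl, rfl⟩
  | succ m ih =>
    obtain ⟨φ, hφ, h1, h2⟩ := ih (by omega)
    have h : ((⟨m + 1, hm⟩ : Fin g) : ℕ) = ((⟨m, by omega⟩ : Fin g) : ℕ) + 1 := rfl
    have hS : Sw (n := n) ⟨m, by omega⟩ ⟨m + 1, hm⟩ h ∈ MB g n := ⟨Sw_mem h, Sw_bdry h⟩
    refine ⟨(Sw ⟨m, by omega⟩ ⟨m + 1, hm⟩ h)⁻¹ * φ, (MB g n).mul_mem ((MB g n).inv_mem hS) hφ,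
      ?_, ?_⟩
    · rw [MulAut.mul_apply, h1, Sw_inv_ai h]
    · rw [MulAut.mul_apply, h2, Sw_inv_bi h]

theorem Mov_slide (hReb : St_Reb) {g n : ℕ} (i j : Fin g) (h : (j : ℕ) = i + 1) :
    ∃ θ ∈ MB g n, θ (ga i) = ga i ∧ θ (gb i) = gb j * gb i ∧
    θ (ga j) = gb j * gb i * ga i * (gb i)⁻¹ * (ga j)⁻¹ * (gb j)⁻¹ ∧
    θ (gb j) = gb j * ga j * (gb j)⁻¹ * (ga j)⁻¹ * (gb j)⁻¹ ∧
    (∀ l, l ≠ i → l ≠ j → θ (ga l) = ga l ∧ θ (gb l) = gb l) ∧ ∀ l, θ (gc l) = gc l := by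
  obtain ⟨φ, hφ, h1, h2, h3⟩ := hReb (m := i) (k := 2) (MonoidHom.id (F g n))
    [(mg (ga i, gb i) (ga j, gb j)).1, (mg (ga i, gb i) (ga j, gb j)).2]
    (by have := j.2; omega)
    (by rw [Mov_lst2 _ i j h]; exact (eFrt.2.1 (ga i, gb i) (ga j, gb j)).1)
  rw [Mov_lst2 _ i j h] at h1
  have e1 : (φ (ga i), φ (gb i)) = (mg (ga i, gb i) (ga j, gb j)).1 := by
    have := List.cons.inj h1
    exact this.1
  have e2 : (φ (ga j), φ (gb j)) = (mg (ga i, gb i) (ga j, gb j)).2 := by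
    have := List.cons.inj (List.cons.inj h1).2
    exact this.1
  have a1 := congrArg Prod.fst e1
  have a2 := congrArg Prod.snd e1
  have a3 := congrArg Prod.fst e2
  have a4 := congrArg Prod.snd e2
  simp only [mg, tv, rt] at a1 a2 a3 a4
  refine ⟨φ, hφ, a1, ?_, ?_, ?_, ?_, h3⟩
  · rw [a2]; group
  · rw [a3]; group
  · rw [a4]; group
  · intro l hl hl'
    have hl1 : (l : ℕ) ≠ i := fun e => hl (Fin.ext e)
    have hl2 : (l : ℕ) ≠ j := fun e => hl' (Fin.ext e)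
    have h4 := h2 l (by omega)
    rw [vls_lt _ l.2, vls_lt _ l.2] at h4
    exact ⟨congrArg Prod.fst h4, congrArg Prod.snd h4⟩

/-- **(Mov)** Explicit mapping classes. -/
theorem thm_Mov (hReb : St_Reb) : St_Mov := by
  intro g n
  refine ⟨fun z i hz => ?_, fun i j h => ?_, fun i j h => Mov_slide hReb i j h, fun i => ?_,
    fun i k => ?_⟩
  · obtain ⟨θ, hθ, h1, h2⟩ := Mov_first (n := n) z hz i i.2
    exact ⟨θ, hθ, h1, h2⟩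
  · refine ⟨(Sw i j h)⁻¹, (MB g n).inv_mem ⟨Sw_mem h, Sw_bdry h⟩, Sw_inv_ai h, Sw_inv_bi h,
      Sw_inv_aj h, Sw_inv_bj h, fun l h1 h2 => ⟨inv_of_fix _ (Sw_a' h h1 h2),
        inv_of_fix _ (Sw_b' h h1 h2)⟩, fun l => inv_of_fix _ (Sw_c h l)⟩
  · exact ⟨(rr i)⁻¹, (MB g n).inv_mem ⟨rr_mem i, rr_bdry i⟩, rri_a i, rri_b i,
      fun l hl => ⟨rri_a' hl, rri_b' hl⟩, fun l => rri_c i l⟩
  · exact ⟨e1 i k, ⟨e1_mem i k, e1_bdry i k⟩, e1_a i i k, e1_b i k,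
      fun l hl => ⟨e1_a i l k, e1_b' hl k⟩, fun l => e1_c i l k⟩

end Pool.Agent.PWG
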