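import Pool.Agent.PWG.St
import Pool.Agent.PWE.Dsp

/-!
# Campaign PWG: products of letters are simple and based (module Prd)
-/

set_option autoImplicit false

namespace Pool.Agent.PWG

open Pool.Agent.PW Pool.Agent.PWM Pool.Agent.PWB Pool.Agent.PWX Pool.Agent.PWF Pool.Agent.PWL
  Pool.Agent.PWY Pool.Agent.PWE
open scoped Classical

private theorem Prd_lst {Q : Type} [Group Q] {g n : ℕ} (ρ : F g n →* Q) (m k : ℕ) :
    lst ρ m (k + 1) = vls ρ m :: lst ρ (m + 1) k := by
  unfold lst
  rw [List.range_succ_eq_map, List.map_cons, List.map_map]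
  refine congrArg₂ _ rfl (List.map_congr_left fun i _ => ?_)
  show vls ρ (m + (i + 1)) = vls ρ (m + 1 + i)
  rw [show m + (i + 1) = m + 1 + i by omega]

private theorem Prd_ds {G : Type} [Group G] (x y : G) (l : List G) (h : y ∈ Ds ⊤ (x :: l)) :
    y ∈ Ds ⊤ l ∨ ∃ d ∈ Ds ⊤ l, d * x = y := by
  rw [Ds, if_pos (Subgroup.mem_top _)] at h
  rcases Finset.mem_union.1 h with h | h
  · exact Or.inl h
  · exact Or.inr (Finset.mem_image.1 h)

private theorem Prd_key (hReb : St_Reb) {g n : ℕ} : ∀ (k m : ℕ), m + k = g → ∀ x : F g n,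
    x ∈ Ds ⊤ ((lst (MonoidHom.id (F g n)) m k).map Prod.snd) → x = 1 ∨ Sb x := by
  intro k
  induction k with
  | zero =>
    intro m _ x hx
    left
    simpa [lst, Ds] using hx
  | succ k ih =>
    intro m hm x hx
    have hmg : m < g := by omega
    have hl := Prd_lst (MonoidHom.id (F g n)) m k
    rw [hl, List.map_cons] at hx
    rcases Prd_ds _ _ _ hx with h | ⟨d, hd, rfl⟩
    · exact ih (m + 1) (by omega) x h
    · right
      obtain ⟨p', P', hL, hp⟩ := eCub eFrt ⊤ (lst (MonoidHom.id (F g n)) (m + 1) k) []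
        (vls (MonoidHom.id (F g n)) m) d hd
      rw [List.nil_append, ← hl] at hL
      obtain ⟨φ, hφ, h1, _, _⟩ := hReb (MonoidHom.id (F g n)) (p' :: P') (by omega) hL
      rw [Prd_lst] at h1
      have h2 := congrArg Prod.snd (List.cons.inj h1).1
      refine ⟨φ, hφ, ⟨m, hmg⟩, ?_⟩
      rw [← hp, ← h2]
      simp [vls, hmg]

private theorem Prd_gbl {g n : ℕ} (θ : MulAut (F g n)) :
    (lst ((MonoidHom.id (F g n)).comp (MulEquiv.toMonoidHom θ)) 0 g).map Prod.snd
      = (gbl g n).map (MulEquiv.toMonoidHom θ) := by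
  unfold lst gbl
  rw [List.map_map, List.map_map]
  refine List.ext_getElem (by simp) fun i h1 h2 => ?_
  have hi : i < g := by simpa using h1
  simp [vls, hi]

theorem thm_Prd (hReb : St_Reb) : St_Prd := by
  intro g n L' hL x hx
  obtain ⟨θ, hθ, h1, _, _⟩ := hReb (MonoidHom.id (F g n)) L' (by omega) hL
  rw [← h1, Prd_gbl] at hx
  obtain ⟨y, hy, rfl⟩ := (thm_Dsp.2.2 (MulEquiv.toMonoidHom θ) (gbl g n) x).1 hx
  have hy' : y = 1 ∨ Sb y := by
    refine Prd_key hReb g 0 (by omega) y ?_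
    have h : (lst (MonoidHom.id (F g n)) 0 g).map Prod.snd = gbl g n := by
      unfold lst gbl
      rw [List.map_map]
      refine List.ext_getElem (by simp) fun i h1 h2 => ?_
      have hi : i < g := by simpa using h1
      simp [vls, hi]
    rw [h]
    exact hy
  rcases hy' with rfl | ⟨φ, hφ, i, rfl⟩
  · left; exact map_one _
  · right
    exact ⟨θ * φ, (MB g n).mul_mem hθ hφ, i, rfl⟩

end Pool.Agent.PWG
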