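import Pool.Agent.PWG.StC

/-! Campaign PWG: module Sml. -/

set_option autoImplicit false

namespace Pool.Agent.PWG

open Pool.Agent.PW Pool.Agent.PWM Pool.Agent.PWB Pool.Agent.PWX Pool.Agent.PWF Pool.Agent.PWL
  Pool.Agent.PWY Pool.Agent.PWE
open scoped Classical

private theorem Sml_memMCG {g n : ℕ} {θ : MulAut (F g n)} (h : θ ∈ MB g n) : θ ∈ MCG g n := h.1

private theorem Sml_sha {h n : ℕ} (i : Fin h) : sh h n (ga i) = ga i.succ := by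
  simp [sh, ga]

private theorem Sml_shb {h n : ℕ} (i : Fin h) : sh h n (gb i) = gb i.succ := by
  simp [sh, gb]

/-- The last step: all three handles are in the subgroup. -/
private theorem Sml_last (hMov : St_Mov) (hEuk : St_Euk) (hFrm : St_Frm) (hTwo : St_Two)
    {h n : ℕ} {A : Type} [CommGroup A] [Finite A] [IsCyclic A]
    (H : Subgroup (F (h + 3) n)) (f : F (h + 3) n → A) (m : ℕ) (hMu : Mu H f) (hMx : Mx H f m)
    (h0 : ga 0 ∈ H) (h0' : gb 0 ∈ H) (h1' : gb 1 ∈ H) (h2 : ga 2 ∈ H) (h2' : gb 2 ∈ H)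
    (hm : oc (f (ga 0)) (f (gb 0)) = m) : f (gb 1) ∈ Va f := by
  obtain ⟨-, hsw, hsl, -, -⟩ := hMov (g := h + 3) (n := n)
  have e12 : ((2 : Fin (h + 3)) : ℕ) = ((1 : Fin (h + 3)) : ℕ) + 1 := by
    rw [Fin.val_two, Fin.val_one]
  have n01 : (0 : Fin (h + 3)) ≠ 1 := by
    intro hh
    have := congrArg Fin.val hh
    rw [Fin.val_one] at this
    simp at this
  have n02 : (0 : Fin (h + 3)) ≠ 2 := by
    intro hh
    have := congrArg Fin.val hh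
    rw [Fin.val_two] at this
    simp at this
  obtain ⟨θ, hθ, ta1, tb1, ta2, tb2, tl, -⟩ := hsw 1 2 e12
  obtain ⟨σ, hσ, sa1, sb1, -, -, sl, -⟩ := hsl 1 2 e12
  obtain ⟨t0, t0'⟩ := tl 0 n01 n02
  obtain ⟨s0, s0'⟩ := sl 0 n01 n02
  obtain ⟨hf1, hf2, -, -, -, hf6⟩ := hFrm H f hMu
  have hdl : (Pool.Agent.PWM.dl (2 : Fin (h + 3)) : F (h + 3) n) ∈ H := by
    show ga 2 * gb 2 * (ga 2)⁻¹ * (gb 2)⁻¹ ∈ H
    exact H.mul_mem (H.mul_mem (H.mul_mem h2 h2') (H.inv_mem h2)) (H.inv_mem h2')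
  -- first frame
  have k1 := hTwo hMov hEuk hFrm (h := h + 1) (n := n) (A := A) (H.comap θ.toMonoidHom)
    (fun x => f (θ x)) m (hf1 θ) (hf2 m hMx θ hθ.1) (by show θ (ga 0) ∈ H; rw [t0]; exact h0)
    (by show θ (gb 0) ∈ H; rw [t0']; exact h0') (by show θ (ga 1) ∈ H; rw [ta1]; exact h2)
    (by show θ (gb 1) ∈ H; rw [tb1]; exact h2') (by
      show oc (f (θ (ga 0))) (f (θ (gb 0))) = m
      rw [t0, t0']; exact hm)
  -- second frame
  have hb : θ (σ (gb 1)) = (Pool.Agent.PWM.dl 2)⁻¹ * gb 1 * Pool.Agent.PWM.dl 2 * gb 2 := by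
    rw [sb1, map_mul, tb2, tb1]
  have k2 := hTwo hMov hEuk hFrm (h := h + 1) (n := n) (A := A) (H.comap (θ * σ).toMonoidHom)
    (fun x => f ((θ * σ) x)) m (hf1 (θ * σ))
    (hf2 m hMx (θ * σ) ((MCG (h + 3) n).mul_mem hθ.1 hσ.1))
    (by show θ (σ (ga 0)) ∈ H; rw [s0, t0]; exact h0)
    (by show θ (σ (gb 0)) ∈ H; rw [s0', t0']; exact h0')
    (by show θ (σ (ga 1)) ∈ H; rw [sa1, ta1]; exact h2)
    (by show θ (σ (gb 1)) ∈ H
        rw [hb]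
        exact H.mul_mem (H.mul_mem (H.mul_mem (H.inv_mem hdl) h1') hdl) h2') (by
      show oc (f (θ (σ (ga 0)))) (f (θ (σ (gb 0)))) = m
      rw [s0, s0', t0, t0']; exact hm)
  have v1 : Va (fun x => f (θ x)) = Va f := by
    unfold Va
    show Subgroup.closure {f (θ (ga 0)), f (θ (gb 0))} = _
    rw [t0, t0']
  have v2 : Va (fun x => f ((θ * σ) x)) = Va f := by
    unfold Va
    show Subgroup.closure {f (θ (σ (ga 0))), f (θ (σ (gb 0)))} = _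
    rw [s0, s0', t0, t0']
  have w1 : f (gb 2) ∈ Va f := by
    have := k1.2
    have q : f (θ (gb 1)) ∈ Va (fun x => f (θ x)) := this
    rw [tb1] at q
    rw [← v1]
    exact q
  have w2 : f (gb 1) * f (gb 2) ∈ Va f := by
    have q : f (θ (σ (gb 1))) ∈ Va (fun x => f ((θ * σ) x)) := k2.2
    rw [hb, hMu _ (H.mul_mem (H.mul_mem (H.inv_mem hdl) h1') hdl) _ h2',
      hMu _ (H.mul_mem (H.inv_mem hdl) h1') _ hdl, hMu _ (H.inv_mem hdl) _ h1', hf6.2.1 _ hdl] at q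
    have e : (f (Pool.Agent.PWM.dl 2))⁻¹ * f (gb 1) * f (Pool.Agent.PWM.dl 2) * f (gb 2) =
        f (gb 1) * f (gb 2) := by
      rw [mul_comm (f (Pool.Agent.PWM.dl 2))⁻¹ (f (gb 1)), inv_mul_cancel_right]
    rw [e] at q
    rw [← v2]
    exact q
  have w3 := (Va f).mul_mem w2 ((Va f).inv_mem w1)
  rwa [mul_inv_cancel_right] at w3

/-- The case of the trivial frame. -/
private theorem Sml_one (hExt : St_Ext) (hMov : St_Mov) (hHnd : St_Hnd) (hEuk : St_Euk)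
    (hFrm : St_Frm) (hTwo : St_Two)
    {h n : ℕ} {A : Type} [CommGroup A] [Finite A] [IsCyclic A]
    (H : Subgroup (F (h + 3) n)) (f : F (h + 3) n → A) (m : ℕ) (hi : H.index ≠ 0)
    (hn : 340 * (Nat.log 2 H.index + 1) ≤ h + 1) (hMu : Mu H f) (hMx : Mx H f m)
    (h0 : ga 0 ∈ H) (h0' : gb 0 ∈ H) (h1' : gb 1 ∈ H)
    (hm : oc (f (ga 0)) (f (gb 0)) = m) : f (gb 1) ∈ Va f := by
  obtain ⟨-, -, -, -, x5, -, -, -⟩ := hExt (h := h + 2) (n := n)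
  obtain ⟨-, -, -, -, y5, -, -, -⟩ := hExt (h := h + 1) (n := n)
  obtain ⟨-, z2, -, -, -, -, -, -⟩ := hExt (h := h + 1) (n := n)
  obtain ⟨-, u2, -, -, -, -, -, -⟩ := hExt (h := h + 2) (n := n)
  obtain ⟨a1, a2⟩ := x5 H hi
  obtain ⟨b1, b2⟩ := y5 (H.comap (sh (h + 2) n)) a1
  have c2 := b2.trans a2
  obtain ⟨θ, hθ, k1, k2, -⟩ := hHnd (h := h) (n := n)
    ((H.comap (sh (h + 2) n)).comap (sh (h + 1) n)) b1
    (le_trans (Nat.mul_le_mul_left _ (Nat.add_le_add_right (Nat.log_mono_right c2) 1)) hn)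
  obtain ⟨Φ, hΦ, p1, p2, p3⟩ := z2 θ hθ
  obtain ⟨Θ, hΘ, q1, q2, q3⟩ := u2 Φ hΦ
  obtain ⟨hf1, hf2, -, -, -, hf6⟩ := hFrm H f hMu
  have g1 : (gb 1 : F (h + 3) n) = sh (h + 2) n (gb 0) := by
    rw [Sml_shb]; rfl
  have g2 : (gb 2 : F (h + 3) n) = sh (h + 2) n (sh (h + 1) n (gb 0)) := by
    rw [Sml_shb, Sml_shb]; rfl
  have g3 : (ga 2 : F (h + 3) n) = sh (h + 2) n (sh (h + 1) n (ga 0)) := by
    rw [Sml_sha, Sml_sha]; rfl
  have r1 : Θ (gb 1) = gb 1 := by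
    rw [g1, q3, p2]
  have r2 : Θ (gb 2) ∈ H := by
    rw [g2, q3, p3]; exact k2
  have r3 : Θ (ga 2) ∈ H := by
    rw [g3, q3, p3]; exact k1
  have v : Va (fun x => f (Θ x)) = Va f := by
    unfold Va
    show Subgroup.closure {f (Θ (ga 0)), f (Θ (gb 0))} = _
    rw [q1, q2]
  have key := Sml_last hMov hEuk hFrm hTwo (H.comap Θ.toMonoidHom) (fun x => f (Θ x)) m (hf1 Θ)
    (hf2 m hMx Θ hΘ.1) (by show Θ (ga 0) ∈ H; rw [q1]; exact h0)
    (by show Θ (gb 0) ∈ H; rw [q2]; exact h0') (by show Θ (gb 1) ∈ H; rw [r1]; exact h1')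
    r3 r2 (by
      show oc (f (Θ (ga 0))) (f (Θ (gb 0))) = m
      rw [q1, q2]; exact hm)
  have key2 : f (Θ (gb 1)) ∈ Va (fun x => f (Θ x)) := key
  rw [r1, v] at key2
  exact key2

theorem thm_Sml : St_Euk → St_Sml := by
  intro hEuk hExt hMov hHnd hFrm hTwo h n A _ _ _ H f m hi hn hMu hMx h0 h0' hm ψ hψ p0 p0' p1
  obtain ⟨-, -, -, -, -, x6, -, -⟩ := hExt (h := h + 3) (n := n)
  obtain ⟨hf1, hf2, -, -, -, hf6⟩ := hFrm H f hMu
  have v : Va (fun x => f (ψ x)) = Va f := by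
    unfold Va
    show Subgroup.closure {f (ψ (ga 0)), f (ψ (gb 0))} = _
    rw [p0, p0']
  have key : f (ψ (gb 1)) ∈ Va (fun x => f (ψ x)) :=
    Sml_one hExt hMov hHnd hEuk hFrm hTwo (H.comap ψ.toMonoidHom) (fun x => f (ψ x)) m
      (by rw [x6]; exact hi) (by rw [x6]; exact hn) (hf1 ψ) (hf2 m hMx ψ hψ)
      (by show ψ (ga 0) ∈ H; rw [p0]; exact h0)
      (by show ψ (gb 0) ∈ H; rw [p0']; exact h0') p1 (by
        show oc (f (ψ (ga 0))) (f (ψ (gb 0))) = m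
        rw [p0, p0']; exact hm)
  rw [v] at key
  exact key

end Pool.Agent.PWG
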