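import Pool.Agent.PWG.St

/-!
# Campaign PWG, part Tbs: basic facts on the section
-/

set_option autoImplicit false

namespace Pool.Agent.PWG

open Pool.Agent.PW Pool.Agent.PWM Pool.Agent.PWB Pool.Agent.PWX Pool.Agent.PWF Pool.Agent.PWL
  Pool.Agent.PWY Pool.Agent.PWE
open scoped Classical

private theorem tbs_lst (g n : ℕ) :
    (lst (MonoidHom.id (F g n)) 0 g).map Prod.snd = gbl g n := by
  apply List.ext_getElem
  · simp [lst, gbl]
  · intro i h1 h2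
    have h3 : i < g := by simpa [gbl] using h2
    simp [lst, gbl, vls, h3]

private theorem tbs_sub {α : Type} (l : List α) {k i j : ℕ} (h : i < j) :
    List.Sublist (((l.drop (1 + i * k)).take k) ++ ((l.drop (1 + j * k)).take k)) l := by
  have h1 : (1 + i * k) + k ≤ 1 + j * k := by nlinarith [Nat.mul_le_mul_right k h]
  have h2 : List.Sublist ((l.drop (1 + i * k)).take k) (l.take (1 + j * k)) := by
    rw [List.take_drop]
    refine (List.drop_sublist _ _).trans ?_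
    have h5 : l.take (1 + i * k + k) = (l.take (1 + j * k)).take (1 + i * k + k) := by
      rw [List.take_take, min_eq_left h1]
    rw [h5]
    exact List.take_sublist _ _
  have h3 : List.Sublist ((l.drop (1 + j * k)).take k) (l.drop (1 + j * k)) :=
    List.take_sublist _ _
  have h4 := h2.append h3
  rwa [List.take_append_drop] at h4

private theorem tbs_le {g n : ℕ} (K : Subgroup (F g n)) : Lb K ≤ K :=
  (Subgroup.closure_le _).2 fun _ h => h.1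

private theorem tbs_mem {g n : ℕ} {K : Subgroup (F g n)} {x : F g n} (h : x = 1 ∨ Sb x)
    (hx : x ∈ K) : x ∈ Lb K := by
  rcases h with h | h
  · rw [h]
    exact (Lb K).one_mem
  · exact Subgroup.subset_closure ⟨hx, h⟩

theorem thm_Tbs : St_Prd → Pool.Agent.PWE.St_Dsp → St_Tbs := by
  intro hPrd hDsp g n k K _ _ hJ
  have e0 : ∀ (L' : List (F g n × F g n)), LG (lst (MonoidHom.id (F g n)) 0 g) L' →
      ∀ x ∈ Ds (⊤ : Subgroup (F g n)) (L'.map Prod.snd), x ∈ K → x ∈ Lb K :=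
    fun L' hL x hx hK => tbs_mem (hPrd L' hL x hx) hK
  have e1 : ∀ i j, i < j → ∀ x ∈ Ds (⊤ : Subgroup (F g n)) (bk g n k i),
      ∀ a ∈ Ds (⊤ : Subgroup (F g n)) (bk g n k j), a * x ∈ K → a * x ∈ Lb K := by
    intro i j hij x hx a ha hK
    refine e0 _ (PWH.bBas.1 _) _ ?_ hK
    rw [tbs_lst]
    exact (@hDsp (F g n) _).2.1 (gbl g n) _ (tbs_sub (gbl g n) hij)
      ((@hDsp (F g n) _).1 _ _ x a hx ha)
  have e2 : ∀ t ∈ TT K k, ∃ x ∈ Ds (⊤ : Subgroup (F g n)) (bk g n k 0), x⁻¹ * t ∈ Lb K :=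
    fun t ht => ht
  have c1 : ∀ w : F g n, ∃ t ∈ TT K k, w⁻¹ * t ∈ K := by
    intro w
    obtain ⟨x, hx, h1⟩ := hJ 0 (by norm_num) 1 w
    refine ⟨x, ⟨x, hx, ?_⟩, ?_⟩
    · rw [inv_mul_cancel]
      exact (Lb K).one_mem
    · rwa [mul_one] at h1
  have c2 : ∀ t ∈ TT K k, ∀ t' ∈ TT K k, t⁻¹ * t' ∈ K → t⁻¹ * t' ∈ Lb K := by
    intro t ht t' ht' h
    obtain ⟨x, hx, hl⟩ := e2 t ht
    obtain ⟨x', hx', hl'⟩ := e2 t' ht'
    obtain ⟨a, ha, h1⟩ := hJ 1 (by norm_num) x 1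
    rw [inv_one, one_mul] at h1
    have h2 : a * x' ∈ K := by
      have h3 : a * x' = (a * x) * ((x⁻¹ * t) * (t⁻¹ * t') * (x'⁻¹ * t')⁻¹) := by group
      rw [h3]
      exact K.mul_mem h1 (K.mul_mem (K.mul_mem (tbs_le K hl) h) (K.inv_mem (tbs_le K hl')))
    have h4 := e1 0 1 (by norm_num) x hx a ha h1
    have h5 := e1 0 1 (by norm_num) x' hx' a ha h2
    have h6 : t⁻¹ * t' = (x⁻¹ * t)⁻¹ * ((a * x)⁻¹ * (a * x')) * (x'⁻¹ * t') := by group
    rw [h6]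
    exact (Lb K).mul_mem ((Lb K).mul_mem ((Lb K).inv_mem hl)
      ((Lb K).mul_mem ((Lb K).inv_mem h4) h5)) hl'
  have c4 : ∀ t ∈ TT K k, ∃ x ∈ Ds (⊤ : Subgroup (F g n)) (bk g n k 1), x⁻¹ * t ∈ Lb K := by
    intro t ht
    obtain ⟨x, hx, h1⟩ := hJ 1 (by norm_num) 1 t
    rw [mul_one] at h1
    obtain ⟨y, hy, hl⟩ := e2 t ht
    obtain ⟨a, ha, h2⟩ := hJ 2 (by norm_num) x 1
    rw [inv_one, one_mul] at h2
    have h3 : a * y ∈ K := by
      have h4 : a * y = (a * x) * ((t⁻¹ * x)⁻¹ * (y⁻¹ * t)⁻¹) := by group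
      rw [h4]
      exact K.mul_mem h2 (K.mul_mem (K.inv_mem h1) (K.inv_mem (tbs_le K hl)))
    have h5 := e1 1 2 (by norm_num) x hx a ha h2
    have h6 := e1 0 2 (by norm_num) y hy a ha h3
    refine ⟨x, hx, ?_⟩
    have h7 : x⁻¹ * t = (a * x)⁻¹ * (a * y) * (y⁻¹ * t) := by group
    rw [h7]
    exact (Lb K).mul_mem ((Lb K).mul_mem ((Lb K).inv_mem h5) h6) hl
  refine ⟨c1, c2, ?_, c4, ?_, e0⟩
  · intro s hs1 _ a ha
    obtain ⟨x, hx, h1⟩ := hJ 0 (by norm_num) 1 a⁻¹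
    rw [inv_inv, mul_one] at h1
    refine ⟨x, hx, ?_⟩
    have h2 : x⁻¹ * a⁻¹ = (a * x)⁻¹ := by group
    rw [h2]
    exact (Lb K).inv_mem (e1 0 s (by omega) x hx a ha h1)
  · intro y hy t
    refine ⟨fun ht => ?_, fun ht => hy t ht⟩
    obtain ⟨t', ht', h1⟩ := c1 t
    have h2 := hy t' ht'
    have h3 : (y * t)⁻¹ * (y * t') = t⁻¹ * t' := by group
    have h4 := c2 _ ht _ h2 (by rw [h3]; exact h1)
    rw [h3] at h4
    obtain ⟨x, hx, hl⟩ := e2 t' ht'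
    refine ⟨x, hx, ?_⟩
    have h5 : x⁻¹ * t = (x⁻¹ * t') * (t⁻¹ * t')⁻¹ := by group
    rw [h5]
    exact (Lb K).mul_mem hl ((Lb K).inv_mem h4)

end Pool.Agent.PWG
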