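import Pool.Agent.PWG.StC

/-!
# Campaign PWG, module Trn: a handle in `H` with the largest group of values and a transitive complement
-/

set_option autoImplicit false

open scoped BigOperators

namespace Pool.Agent.PWG

open Pool.Agent.PW Pool.Agent.PWM Pool.Agent.PWB Pool.Agent.PWX Pool.Agent.PWF Pool.Agent.PWL
  Pool.Agent.PWY Pool.Agent.PWE
open scoped Classical Pointwise

private theorem Trn_rel {G : Type} [Group G] (H K : Subgroup G) :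
    H.relIndex K = {p : G ⧸ H | ∃ k ∈ K, p = ((k : G) : G ⧸ H)}.ncard := by
  have h1 := MulAction.index_stabilizer (G := K) (X := G ⧸ H) (x := ((1 : G) : G ⧸ H))
  have h2 : MulAction.stabilizer K ((1 : G) : G ⧸ H) = H.subgroupOf K := by
    ext k
    rw [MulAction.mem_stabilizer_iff, Subgroup.mem_subgroupOf]
    have h3 : k • ((1 : G) : G ⧸ H) = (((k : G) * 1 : G) : G ⧸ H) := rfl
    rw [h3, QuotientGroup.eq, mul_one, mul_one]
    exact H.inv_mem_iff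
  have h4 : MulAction.orbit K ((1 : G) : G ⧸ H) = {p : G ⧸ H | ∃ k ∈ K, p = ((k : G) : G ⧸ H)} := by
    ext p
    constructor
    · rintro ⟨k, rfl⟩
      refine ⟨k, k.2, ?_⟩
      show (((k : G) * 1 : G) : G ⧸ H) = _
      rw [mul_one]
    · rintro ⟨k, hk, rfl⟩
      refine ⟨⟨k, hk⟩, ?_⟩
      show (((k : G) * 1 : G) : G ⧸ H) = _
      rw [mul_one]
  rw [h2, h4] at h1
  exact h1

private theorem Trn_idx {G G' : Type} [Group G] [Group G'] (H : Subgroup G) (j : G' →* G) :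
    (H.comap j).index = {p : G ⧸ H | ∃ x : G', p = ((j x : G) : G ⧸ H)}.ncard := by
  rw [Subgroup.index_comap, Trn_rel]
  congr 1
  ext p
  constructor
  · rintro ⟨k, ⟨x, rfl⟩, rfl⟩
    exact ⟨x, rfl⟩
  · rintro ⟨x, rfl⟩
    exact ⟨_, ⟨x, rfl⟩, rfl⟩

private theorem Trn_Pl {h n : ℕ} (σ : MulAut (F (h + 3) n))
    (hσ : ∀ l : Fin (h + 3), l ≠ 0 → l ≠ 1 → σ (ga l) = ga l ∧ σ (gb l) = gb l) :
    ∀ y ∈ Pl (1 : MulAut (F (h + 3) n)) 2, σ y = y ∧ ∃ z, sh (h + 2) n z = y := by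
  intro y hy
  unfold Pl at hy
  have hl : ∀ i : Fin (h + 3), 2 ≤ (i : ℕ) → i ≠ 0 ∧ i ≠ 1 ∧ ∃ i' : Fin (h + 2), i'.succ = i := by
    intro i hi
    refine ⟨?_, ?_, ?_⟩
    · rintro rfl
      simp at hi
    · rintro rfl
      simp at hi
    · refine ⟨⟨(i : ℕ) - 1, by omega⟩, ?_⟩
      apply Fin.ext
      simp
      omega
  induction hy using Subgroup.closure_induction with
  | mem x hx =>
    obtain ⟨i, hi, hx⟩ := hx
    obtain ⟨h0, h1, i', rfl⟩ := hl i hi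
    rcases hx with rfl | rfl
    · refine ⟨(hσ _ h0 h1).1, ga i', ?_⟩
      simp [sh, ga]
    · refine ⟨(hσ _ h0 h1).2, gb i', ?_⟩
      simp [sh, gb]
  | one => exact ⟨map_one σ, 1, map_one _⟩
  | mul x y _ _ hx hy =>
    obtain ⟨hx1, zx, hzx⟩ := hx
    obtain ⟨hy1, zy, hzy⟩ := hy
    exact ⟨by rw [map_mul, hx1, hy1], zx * zy, by rw [map_mul, hzx, hzy]⟩
  | inv x _ hx =>
    obtain ⟨hx1, zx, hzx⟩ := hx
    exact ⟨by rw [map_inv, hx1], zx⁻¹, by rw [map_inv, hzx]⟩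

private theorem Trn_S0 (hMov : St_Mov) {h n : ℕ} {A : Type} [CommGroup A]
    (H : Subgroup (F (h + 3) n)) (f : F (h + 3) n → A) (hH : H.index ≠ 0) (hf : Mu H f)
    (ha0 : ga 0 ∈ H) (hb0 : gb 0 ∈ H) (hb1 : gb 1 ∈ H) (hfb : f (gb 1) = 1)
    (hPl : ∀ x, ∃ y ∈ Pl (1 : MulAut (F (h + 3) n)) 2, y⁻¹ * sh (h + 2) n x ∈ H)
    (x₀ : F (h + 2) n)
    (hx₀ : ∀ y, (sh (h + 2) n y)⁻¹ * (gb 0 * ga 0 * (gb 0)⁻¹ * sh (h + 2) n x₀) ∉ H) :
    ∃ σ ∈ MCG (h + 3) n, σ (ga 0) ∈ H ∧ σ (gb 0) ∈ H ∧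
      oc (f (σ (ga 0))) (f (σ (gb 0))) = oc (f (ga 0)) (f (gb 0)) ∧
      (H.comap (sh (h + 2) n)).index <
        ((H.comap σ.toMonoidHom).comap (sh (h + 2) n)).index := by
  obtain ⟨-, -, hM3, -, -⟩ := hMov (g := h + 3) (n := n)
  obtain ⟨σ, hσ, hσa, hσb, hσa1, -, hσl, -⟩ := hM3 0 1 (by simp)
  have hP := Trn_Pl σ hσl
  have : H.FiniteIndex := ⟨hH⟩
  have hfin : Finite (F (h + 3) n ⧸ H) := Subgroup.finite_quotient_of_finiteIndex
  refine ⟨σ, hσ.1, ?_, ?_, ?_, ?_⟩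
  · rw [hσa]
    exact ha0
  · rw [hσb]
    exact H.mul_mem hb1 hb0
  · rw [hσa, hσb, hf _ hb1 _ hb0, hfb, one_mul]
  · rw [Trn_idx H (sh (h + 2) n), Subgroup.comap_comap,
      Trn_idx H (σ.toMonoidHom.comp (sh (h + 2) n))]
    have hs1 : sh (h + 2) n (gb 0) = gb 1 := by
      simp [sh, gb]
    have hs2 : sh (h + 2) n (ga 0) = ga 1 := by
      simp [sh, ga]
    apply Set.ncard_lt_ncard _ (Set.toFinite _)
    refine ⟨?_, ?_⟩
    · rintro p ⟨x, rfl⟩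
      obtain ⟨y, hy, hyx⟩ := hPl x
      obtain ⟨hy1, z, hz⟩ := hP y hy
      refine ⟨z, ?_⟩
      show ((sh (h + 2) n x : F (h + 3) n) : F (h + 3) n ⧸ H) =
        ((σ (sh (h + 2) n z) : F (h + 3) n) : F (h + 3) n ⧸ H)
      rw [hz, hy1]
      exact (QuotientGroup.eq.2 hyx).symm
    · intro hsub
      obtain ⟨y, hy, hyx⟩ := hPl (gb 0 * ga 0 * x₀)
      obtain ⟨hy1, z, hz⟩ := hP y hy
      obtain ⟨y', hy'⟩ := hsub ⟨ga 0 * z, rfl⟩
      have h1 : ((σ (sh (h + 2) n (ga 0 * z)) : F (h + 3) n) : F (h + 3) n ⧸ H) =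
        ((sh (h + 2) n y' : F (h + 3) n) : F (h + 3) n ⧸ H) := hy'
      rw [eq_comm, QuotientGroup.eq, map_mul, hs2, hz, map_mul, hy1, hσa1] at h1
      rw [map_mul, map_mul, hs1, hs2] at hyx
      apply hx₀ ((gb 0)⁻¹ * y')
      rw [map_mul, map_inv, hs1]
      have h2 := H.mul_mem h1 hyx
      have h3 : (sh (h + 2) n y')⁻¹ * (gb 1 * gb 0 * ga 0 * (gb 0)⁻¹ * (ga 1)⁻¹ * (gb 1)⁻¹ * y) *
          (y⁻¹ * (gb 1 * ga 1 * sh (h + 2) n x₀)) =
          ((gb 1)⁻¹ * sh (h + 2) n y')⁻¹ * (gb 0 * ga 0 * (gb 0)⁻¹ * sh (h + 2) n x₀) := by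
        group
      rwa [h3] at h2

private theorem Trn_sha {h n : ℕ} (i : Fin h) : sh h n (ga i) = ga i.succ := by
  simp [sh, ga]

private theorem Trn_shb {h n : ℕ} (i : Fin h) : sh h n (gb i) = gb i.succ := by
  simp [sh, gb]

private theorem Trn_shc {h n : ℕ} (i : Fin n) : sh h n (gc i) = gc i := by
  simp [sh, gc]

private theorem Trn_oc {A : Type} [CommGroup A] (x y : A) : oc y⁻¹ x = oc x y := by
  unfold oc
  have h1 : Subgroup.closure {y⁻¹, x} = Subgroup.closure {x, y} := by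
    apply le_antisymm
    · rw [Subgroup.closure_le]
      rintro z (rfl | rfl)
      · exact Subgroup.inv_mem _ (Subgroup.subset_closure (by simp))
      · exact Subgroup.subset_closure (by simp)
    · rw [Subgroup.closure_le]
      rintro z (rfl | rfl)
      · exact Subgroup.subset_closure (by simp)
      · have h2 : z⁻¹ ∈ Subgroup.closure {z⁻¹, x} := Subgroup.subset_closure (by simp)
        simpa using Subgroup.inv_mem _ h2
  rw [h1]

private theorem Trn_S1 (hExt : St_Ext) (hMov : St_Mov) (hFrm : St_Frm) {h n : ℕ} {A : Type}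
    [CommGroup A] (H : Subgroup (F (h + 3) n)) (f : F (h + 3) n → A) (hH : H.index ≠ 0)
    (hf : Mu H f) (ha0 : ga 0 ∈ H) (hb0 : gb 0 ∈ H) (hb1 : gb 1 ∈ H) (hfb : f (gb 1) = 1)
    (hPl : ∀ x, ∃ y ∈ Pl (1 : MulAut (F (h + 3) n)) 2, y⁻¹ * sh (h + 2) n x ∈ H)
    (x : F (h + 3) n) (hx : ∀ y, (sh (h + 2) n y)⁻¹ * x ∉ H) :
    ∃ σ ∈ MCG (h + 3) n, σ (ga 0) ∈ H ∧ σ (gb 0) ∈ H ∧
      oc (f (σ (ga 0))) (f (σ (gb 0))) = oc (f (ga 0)) (f (gb 0)) ∧
      (H.comap (sh (h + 2) n)).index <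
        ((H.comap σ.toMonoidHom).comap (sh (h + 2) n)).index := by
  by_cases h1 : ∃ x₀, ∀ y, (sh (h + 2) n y)⁻¹ * (gb 0 * ga 0 * (gb 0)⁻¹ * sh (h + 2) n x₀) ∉ H
  · obtain ⟨x₀, hx₀⟩ := h1
    exact Trn_S0 hMov H f hH hf ha0 hb0 hb1 hfb hPl x₀ hx₀
  obtain ⟨-, -, -, hM4, -⟩ := hMov (g := h + 3) (n := n)
  obtain ⟨ρ, hρ, hρa, hρb, hρl, hρc⟩ := hM4 0
  have hρsh : ∀ y, ρ (sh (h + 2) n y) = sh (h + 2) n y := by
    intro y
    have h2 : (ρ.toMonoidHom.comp (sh (h + 2) n)) = sh (h + 2) n := by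
      apply hom_ext
      · intro i
        show ρ (sh (h + 2) n (ga i)) = sh (h + 2) n (ga i)
        rw [Trn_sha]
        exact (hρl _ (Fin.succ_ne_zero i)).1
      · intro i
        show ρ (sh (h + 2) n (gb i)) = sh (h + 2) n (gb i)
        rw [Trn_shb]
        exact (hρl _ (Fin.succ_ne_zero i)).2
      · intro i
        show ρ (sh (h + 2) n (gc i)) = sh (h + 2) n (gc i)
        rw [Trn_shc]
        exact hρc i
    exact DFunLike.congr_fun h2 y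
  have hρP := Trn_Pl ρ (fun l hl _ => hρl l hl)
  obtain ⟨hF1, -, -, -, -, hF6⟩ := hFrm H f hf
  by_cases h2 : ∃ x₀, ∀ y, (sh (h + 2) n y)⁻¹ *
      (gb 0 * ga 0 * (gb 0)⁻¹ * sh (h + 2) n x₀) ∉ H.comap ρ.toMonoidHom
  · obtain ⟨x₀, hx₀⟩ := h2
    obtain ⟨σ, hσ, hσ1, hσ2, hσ3, hσ4⟩ := Trn_S0 hMov (H.comap ρ.toMonoidHom) (fun x => f (ρ x))
      (by
        have h3 := (hExt (h := h + 3) (n := n)).2.2.2.2.2.1 H ρ
        rw [h3]
        exact hH)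
      (hF1 ρ)
      (by
        show ρ (ga 0) ∈ H
        rw [hρa]
        exact H.inv_mem hb0)
      (by
        show ρ (gb 0) ∈ H
        rw [hρb]
        exact H.mul_mem (H.mul_mem hb0 ha0) (H.inv_mem hb0))
      (by
        show ρ (gb 1) ∈ H
        rw [(hρl 1 (by simp)).2]
        exact hb1)
      (by
        show f (ρ (gb 1)) = 1
        rw [(hρl 1 (by simp)).2]
        exact hfb)
      (by
        intro z
        obtain ⟨y, hy, hyz⟩ := hPl z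
        refine ⟨y, hy, ?_⟩
        show ρ (y⁻¹ * sh (h + 2) n z) ∈ H
        rw [map_mul, map_inv, (hρP y hy).1, hρsh]
        exact hyz) x₀ hx₀
    refine ⟨ρ * σ, (MCG (h + 3) n).mul_mem hρ.1 hσ, hσ1, hσ2, ?_, ?_⟩
    · have h3 : oc (f (ρ (σ (ga 0)))) (f (ρ (σ (gb 0)))) = oc (f (ρ (ga 0))) (f (ρ (gb 0))) := hσ3
      show oc (f (ρ (σ (ga 0)))) (f (ρ (σ (gb 0)))) = _
      rw [h3, hρa, hρb, hF6.2.1 _ hb0, hf _ (H.mul_mem hb0 ha0) _ (H.inv_mem hb0), hf _ hb0 _ ha0,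
        hF6.2.1 _ hb0, mul_comm (f (gb 0)) (f (ga 0)), mul_inv_cancel_right, Trn_oc]
    · have h3 : (H.comap ρ.toMonoidHom).comap (sh (h + 2) n) = H.comap (sh (h + 2) n) := by
        ext z
        show ρ (sh (h + 2) n z) ∈ H ↔ sh (h + 2) n z ∈ H
        rw [hρsh]
      rw [h3] at hσ4
      exact hσ4
  · exfalso
    push Not at h1 h2
    have : H.FiniteIndex := ⟨hH⟩
    have hfin : Finite (F (h + 3) n ⧸ H) := Subgroup.finite_quotient_of_finiteIndex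
    obtain ⟨Ω₀, hΩ⟩ : ∃ Ω₀ : Set (F (h + 3) n ⧸ H), Ω₀ = {p | ∃ z, p =
      ((sh (h + 2) n z : F (h + 3) n) : F (h + 3) n ⧸ H)} := ⟨_, rfl⟩
    have hcrit : ∀ w : F (h + 3) n, (∀ z, ∃ y, (sh (h + 2) n y)⁻¹ * (w * sh (h + 2) n z) ∈ H) →
        w ∈ MulAction.stabilizer (F (h + 3) n) Ω₀ := by
      intro w hw
      rw [MulAction.mem_stabilizer_set_iff_smul_set_subset (Set.toFinite _)]
      rintro _ ⟨p, hp, rfl⟩
      rw [hΩ] at hp ⊢
      obtain ⟨z, rfl⟩ := hp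
      obtain ⟨y, hy⟩ := hw z
      refine ⟨y, ?_⟩
      show ((w * sh (h + 2) n z : F (h + 3) n) : F (h + 3) n ⧸ H) = _
      exact (QuotientGroup.eq.2 hy).symm
    have hc := hcrit (gb 0 * ga 0 * (gb 0)⁻¹) h1
    have hc' := hcrit (ρ (gb 0 * ga 0 * (gb 0)⁻¹)) (by
      intro z
      obtain ⟨y, hy⟩ := h2 z
      refine ⟨y, ?_⟩
      have h3 : ρ ((sh (h + 2) n y)⁻¹ * (gb 0 * ga 0 * (gb 0)⁻¹ * sh (h + 2) n z)) ∈ H := hy
      rw [map_mul, map_inv, hρsh, map_mul ρ (gb 0 * ga 0 * (gb 0)⁻¹), hρsh] at h3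
      exact h3)
    have hsh : ∀ z, sh (h + 2) n z ∈ MulAction.stabilizer (F (h + 3) n) Ω₀ := by
      intro z
      apply hcrit
      intro z'
      refine ⟨z * z', ?_⟩
      rw [map_mul]
      simp
    obtain ⟨E, hE⟩ : ∃ E, E = MulAction.stabilizer (F (h + 3) n) Ω₀ := ⟨_, rfl⟩
    rw [← hE] at hc hc'
    have hb : gb 0 ∈ E := by
      rw [map_mul, map_mul, map_inv, hρa, hρb] at hc'
      have h3 := E.mul_mem (E.mul_mem (E.inv_mem hc) hc') hc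
      have h4 := E.inv_mem h3
      have h5 : ((gb 0 * ga 0 * (gb 0)⁻¹)⁻¹ * (gb 0 * ga 0 * (gb 0)⁻¹ * (gb 0)⁻¹ *
          (gb 0 * ga 0 * (gb 0)⁻¹)⁻¹) * (gb 0 * ga 0 * (gb 0)⁻¹))⁻¹ = (gb 0 : F (h + 3) n) := by
        group
      rwa [h5] at h4
    have ha : ga 0 ∈ E := by
      have h3 := E.mul_mem (E.mul_mem (E.inv_mem hb) hc) hb
      have h5 : (gb 0)⁻¹ * (gb 0 * ga 0 * (gb 0)⁻¹) * gb 0 = (ga 0 : F (h + 3) n) := by
        group
      rwa [h5] at h3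
    have htop : E = ⊤ := (hExt (h := h + 2) (n := n)).2.2.2.1 E ha hb (fun z => hE ▸ hsh z)
    have hxE : x ∈ MulAction.stabilizer (F (h + 3) n) Ω₀ := by
      rw [← hE, htop]
      exact Subgroup.mem_top x
    have h1m : ((1 : F (h + 3) n) : F (h + 3) n ⧸ H) ∈ Ω₀ := by
      rw [hΩ]
      exact ⟨1, by rw [map_one]⟩
    have h3 := (MulAction.mem_stabilizer_set.1 hxE ((1 : F (h + 3) n) : F (h + 3) n ⧸ H)).2 h1m
    rw [hΩ] at h3
    obtain ⟨z, hz⟩ := h3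
    have h4 : ((x * 1 : F (h + 3) n) : F (h + 3) n ⧸ H) =
      ((sh (h + 2) n z : F (h + 3) n) : F (h + 3) n ⧸ H) := hz
    rw [mul_one, eq_comm, QuotientGroup.eq] at h4
    exact hx z h4

/-- the conclusion of one step -/
private def Big {h n : ℕ} {A : Type} [CommGroup A] (H : Subgroup (F (h + 3) n))
    (f : F (h + 3) n → A) : Prop :=
  ∃ σ ∈ MCG (h + 3) n, σ (ga 0) ∈ H ∧ σ (gb 0) ∈ H ∧
      oc (f (σ (ga 0))) (f (σ (gb 0))) = oc (f (ga 0)) (f (gb 0)) ∧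
      (H.comap (sh (h + 2) n)).index <
        ((H.comap σ.toMonoidHom).comap (sh (h + 2) n)).index

/-- change of the frame by a mapping class which fixes the first handle -/
private theorem Trn_tr {h n : ℕ} {A : Type} [CommGroup A] (H : Subgroup (F (h + 3) n))
    (f : F (h + 3) n → A) (θ : MulAut (F (h + 3) n)) (hθ : θ ∈ MCG (h + 3) n)
    (ha : θ (ga 0) = ga 0) (hb : θ (gb 0) = gb 0)
    (hi : ((H.comap θ.toMonoidHom).comap (sh (h + 2) n)).index = (H.comap (sh (h + 2) n)).index)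
    (hB : Big (H.comap θ.toMonoidHom) fun x => f (θ x)) : Big H f := by
  obtain ⟨σ, hσ, hσ1, hσ2, hσ3, hσ4⟩ := hB
  refine ⟨θ * σ, (MCG (h + 3) n).mul_mem hθ hσ, hσ1, hσ2, ?_, ?_⟩
  · have h3 : oc (f (θ (σ (ga 0)))) (f (θ (σ (gb 0)))) = oc (f (θ (ga 0))) (f (θ (gb 0))) := hσ3
    show oc (f (θ (σ (ga 0)))) (f (θ (σ (gb 0)))) = _
    rw [h3, ha, hb]
  · rw [hi] at hσ4
    exact hσ4

private theorem Trn_S2 (hExt : St_Ext) (hMov : St_Mov) (hEuk : St_Euk) (hFrm : St_Frm) {h n : ℕ}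
    {A : Type} [CommGroup A] [Finite A] [IsCyclic A] (H : Subgroup (F (h + 3) n))
    (f : F (h + 3) n → A) (hH : H.index ≠ 0)
    (hf : Mu H f) (ha0 : ga 0 ∈ H) (hb0 : gb 0 ∈ H) (ha1 : ga 1 ∈ H) (hb1 : gb 1 ∈ H)
    (hPl : ∀ x, ∃ y ∈ Pl (1 : MulAut (F (h + 3) n)) 2, y⁻¹ * sh (h + 2) n x ∈ H)
    (x : F (h + 3) n) (hx : ∀ y, (sh (h + 2) n y)⁻¹ * x ∉ H) : Big H f := by
  obtain ⟨ζ, hζ⟩ := IsCyclic.exists_generator (α := A)
  obtain ⟨α, hα⟩ := Subgroup.mem_zpowers_iff.1 (hζ (f (ga 1)))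
  obtain ⟨β, hβ⟩ := Subgroup.mem_zpowers_iff.1 (hζ (f (gb 1)))
  have hcl : Subgroup.closure {(ga 1 : F (h + 3) n), gb 1} ≤ H := by
    rw [Subgroup.closure_le]
    rintro z (rfl | rfl)
    · exact ha1
    · exact hb1
  obtain ⟨⟨θ, hθ, hθ1⟩, -⟩ := hEuk (n := n) (1 : Fin (h + 3)) f ζ α β
    (fun y hy z hz => hf y (hcl hy) z (hcl hz)) hα.symm hβ.symm
  obtain ⟨hF1, -, -, -, -, -⟩ := hFrm H f hf
  have h01 : (0 : Fin (h + 3)) ≠ 1 := by simp
  have hθcl : ∀ y ∈ Subgroup.closure {(ga 1 : F (h + 3) n), gb 1},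
      θ y ∈ Subgroup.closure {(ga 1 : F (h + 3) n), gb 1} := by
    intro y hy
    have h1 : θ y ∈ (Subgroup.closure {(ga 1 : F (h + 3) n), gb 1}).map θ.toMonoidHom := ⟨y, hy, rfl⟩
    rw [hθ.map] at h1
    exact h1
  have hcla : ga 1 ∈ Subgroup.closure {(ga 1 : F (h + 3) n), gb 1} :=
    Subgroup.subset_closure (by simp)
  have hclb : gb 1 ∈ Subgroup.closure {(ga 1 : F (h + 3) n), gb 1} :=
    Subgroup.subset_closure (by simp)
  have hs0 : (0 : Fin (h + 2)).succ = (1 : Fin (h + 3)) := rfl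
  have hclR : Subgroup.closure {(ga 1 : F (h + 3) n), gb 1} ≤ (sh (h + 2) n).range := by
    rw [Subgroup.closure_le]
    rintro z (rfl | rfl)
    · exact ⟨ga 0, by rw [Trn_sha, hs0]⟩
    · exact ⟨gb 0, by rw [Trn_shb, hs0]⟩
  -- the range of the shift is preserved
  have hR1 : ∀ z, ∃ z', θ (sh (h + 2) n z) = sh (h + 2) n z' := by
    have htop : ((sh (h + 2) n).range.comap θ.toMonoidHom).comap (sh (h + 2) n) = ⊤ := by
      apply eq_top_of_gens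
      · intro i
        show θ (sh (h + 2) n (ga i)) ∈ (sh (h + 2) n).range
        by_cases hi : i = 0
        · rw [hi, Trn_sha, hs0]
          exact hclR (hθcl _ hcla)
        · rw [Trn_sha, (hθ.out _ (by
            intro hc
            rw [← hs0] at hc
            exact hi (Fin.succ_injective _ hc))).1]
          exact ⟨ga i, Trn_sha i⟩
      · intro i
        show θ (sh (h + 2) n (gb i)) ∈ (sh (h + 2) n).range
        by_cases hi : i = 0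
        · rw [hi, Trn_shb, hs0]
          exact hclR (hθcl _ hclb)
        · rw [Trn_shb, (hθ.out _ (by
            intro hc
            rw [← hs0] at hc
            exact hi (Fin.succ_injective _ hc))).2]
          exact ⟨gb i, Trn_shb i⟩
      · intro i
        show θ (sh (h + 2) n (gc i)) ∈ (sh (h + 2) n).range
        rw [Trn_shc, hθ.cc]
        exact ⟨gc i, Trn_shc i⟩
    intro z
    have h1 : z ∈ ((sh (h + 2) n).range.comap θ.toMonoidHom).comap (sh (h + 2) n) := by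
      rw [htop]
      exact Subgroup.mem_top z
    obtain ⟨z', hz'⟩ := h1
    exact ⟨z', hz'.symm⟩
  have hR2 : ∀ z, ∃ z', sh (h + 2) n z = θ (sh (h + 2) n z') := by
    have hclM : ∀ y ∈ Subgroup.closure {(ga 1 : F (h + 3) n), gb 1},
        y ∈ (sh (h + 2) n).range.map θ.toMonoidHom := by
      intro y hy
      rw [← hθ.map] at hy
      obtain ⟨y', hy', rfl⟩ := hy
      exact ⟨y', hclR hy', rfl⟩
    have htop : ((sh (h + 2) n).range.map θ.toMonoidHom).comap (sh (h + 2) n) = ⊤ := by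
      apply eq_top_of_gens
      · intro i
        show sh (h + 2) n (ga i) ∈ (sh (h + 2) n).range.map θ.toMonoidHom
        by_cases hi : i = 0
        · rw [hi, Trn_sha, hs0]
          exact hclM _ hcla
        · refine ⟨sh (h + 2) n (ga i), ⟨_, rfl⟩, ?_⟩
          show θ (sh (h + 2) n (ga i)) = sh (h + 2) n (ga i)
          rw [Trn_sha, (hθ.out _ (by
            intro hc
            rw [← hs0] at hc
            exact hi (Fin.succ_injective _ hc))).1]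
      · intro i
        show sh (h + 2) n (gb i) ∈ (sh (h + 2) n).range.map θ.toMonoidHom
        by_cases hi : i = 0
        · rw [hi, Trn_shb, hs0]
          exact hclM _ hclb
        · refine ⟨sh (h + 2) n (gb i), ⟨_, rfl⟩, ?_⟩
          show θ (sh (h + 2) n (gb i)) = sh (h + 2) n (gb i)
          rw [Trn_shb, (hθ.out _ (by
            intro hc
            rw [← hs0] at hc
            exact hi (Fin.succ_injective _ hc))).2]
      · intro i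
        refine ⟨sh (h + 2) n (gc i), ⟨_, rfl⟩, ?_⟩
        show θ (sh (h + 2) n (gc i)) = sh (h + 2) n (gc i)
        rw [Trn_shc, hθ.cc]
    intro z
    have h1 : z ∈ ((sh (h + 2) n).range.map θ.toMonoidHom).comap (sh (h + 2) n) := by
      rw [htop]
      exact Subgroup.mem_top z
    obtain ⟨_, ⟨z', rfl⟩, hz'⟩ := h1
    exact ⟨z', hz'.symm⟩
  have hθP := Trn_Pl θ (fun l _ hl => hθ.out l hl)
  refine Trn_tr H f θ hθ.mem.1 (hθ.out 0 h01).1 (hθ.out 0 h01).2 ?_ ?_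
  · rw [Subgroup.comap_comap, Trn_idx, Trn_idx]
    congr 1
    ext p
    constructor
    · rintro ⟨z, rfl⟩
      obtain ⟨z', hz'⟩ := hR1 z
      refine ⟨z', ?_⟩
      show ((θ (sh (h + 2) n z) : F (h + 3) n) : F (h + 3) n ⧸ H) = _
      rw [hz']
    · rintro ⟨z, rfl⟩
      obtain ⟨z', hz'⟩ := hR2 z
      refine ⟨z', ?_⟩
      show _ = ((θ (sh (h + 2) n z') : F (h + 3) n) : F (h + 3) n ⧸ H)
      rw [← hz']
  · refine Trn_S1 hExt hMov hFrm (H.comap θ.toMonoidHom) (fun x => f (θ x)) ?_ (hF1 θ) ?_ ?_ ?_ hθ1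
      ?_ (θ⁻¹ x) ?_
    · have h3 := (hExt (h := h + 3) (n := n)).2.2.2.2.2.1 H θ
      rw [h3]
      exact hH
    · show θ (ga 0) ∈ H
      rw [(hθ.out 0 h01).1]
      exact ha0
    · show θ (gb 0) ∈ H
      rw [(hθ.out 0 h01).2]
      exact hb0
    · exact hcl (hθcl _ hclb)
    · intro z
      obtain ⟨z', hz'⟩ := hR1 z
      obtain ⟨y, hy, hyz⟩ := hPl z'
      refine ⟨y, hy, ?_⟩
      show θ (y⁻¹ * sh (h + 2) n z) ∈ H
      rw [map_mul, map_inv, (hθP y hy).1, hz']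
      exact hyz
    · intro y hy
      have h1 : θ ((sh (h + 2) n y)⁻¹ * θ⁻¹ x) ∈ H := hy
      obtain ⟨y', hy'⟩ := hR1 y
      have h2 : θ (θ⁻¹ x) = x := by simp
      rw [map_mul, map_inv, hy', h2] at h1
      exact hx y' h1

private theorem Trn_Pls {h n : ℕ} (θ : MulAut (F (h + 2) n)) :
    ∀ y ∈ Pl θ 1, ∃ z, θ z = y ∧ sh (h + 2) n z ∈ Pl (1 : MulAut (F (h + 3) n)) 2 := by
  intro y hy
  unfold Pl at hy
  induction hy using Subgroup.closure_induction with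
  | mem x hx =>
    obtain ⟨i, hi, hx⟩ := hx
    rcases hx with rfl | rfl
    · refine ⟨ga i, rfl, Subgroup.subset_closure ⟨i.succ, ?_, Or.inl ?_⟩⟩
      · rw [Fin.val_succ]
        omega
      · rw [Trn_sha]
        rfl
    · refine ⟨gb i, rfl, Subgroup.subset_closure ⟨i.succ, ?_, Or.inr ?_⟩⟩
      · rw [Fin.val_succ]
        omega
      · rw [Trn_shb]
        rfl
  | one => exact ⟨1, map_one θ, by rw [map_one]; exact Subgroup.one_mem _⟩
  | mul x y _ _ hx hy =>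
    obtain ⟨zx, hzx, hx⟩ := hx
    obtain ⟨zy, hzy, hy⟩ := hy
    exact ⟨zx * zy, by rw [map_mul, hzx, hzy], by rw [map_mul]; exact Subgroup.mul_mem _ hx hy⟩
  | inv x _ hx =>
    obtain ⟨zx, hzx, hx⟩ := hx
    exact ⟨zx⁻¹, by rw [map_inv, hzx], by rw [map_inv]; exact Subgroup.inv_mem _ hx⟩

private theorem Trn_S3 (hExt : St_Ext) (hMov : St_Mov) (hEuk : St_Euk) (hHnd : St_Hnd)
    (hFrm : St_Frm) {h n : ℕ}
    {A : Type} [CommGroup A] [Finite A] [IsCyclic A] (H : Subgroup (F (h + 3) n))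
    (f : F (h + 3) n → A) (hH : H.index ≠ 0) (hg : 340 * (Nat.log 2 H.index + 1) ≤ h + 1)
    (hf : Mu H f) (ha0 : ga 0 ∈ H) (hb0 : gb 0 ∈ H)
    (x : F (h + 3) n) (hx : ∀ y, (sh (h + 2) n y)⁻¹ * x ∉ H) : Big H f := by
  obtain ⟨-, hE2, -, -, hE5, -⟩ := hExt (h := h + 2) (n := n)
  obtain ⟨hK0, hK1⟩ := hE5 H hH
  obtain ⟨θ, hθ, hθa, hθb, hθt⟩ := hHnd (H.comap (sh (h + 2) n)) hK0 (by
    have h1 : Nat.log 2 (H.comap (sh (h + 2) n)).index ≤ Nat.log 2 H.index :=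
      Nat.log_mono_right hK1
    omega)
  obtain ⟨Θ, hΘ, hΘa, hΘb, hΘs⟩ := hE2 θ hθ
  obtain ⟨hF1, -, -, -, -, -⟩ := hFrm H f hf
  have hs0 : (0 : Fin (h + 2)).succ = (1 : Fin (h + 3)) := rfl
  refine Trn_tr H f Θ hΘ.1 hΘa hΘb ?_ ?_
  · have h1 : (H.comap Θ.toMonoidHom).comap (sh (h + 2) n) =
        (H.comap (sh (h + 2) n)).comap θ.toMonoidHom := by
      ext z
      show Θ (sh (h + 2) n z) ∈ H ↔ sh (h + 2) n (θ z) ∈ H
      rw [hΘs]
    rw [h1]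
    exact (hExt (h := h + 2) (n := n)).2.2.2.2.2.1 _ θ
  · refine Trn_S2 hExt hMov hEuk hFrm (H.comap Θ.toMonoidHom) (fun x => f (Θ x)) ?_ (hF1 Θ) ?_ ?_
      ?_ ?_ ?_ (Θ⁻¹ x) ?_
    · have h3 := (hExt (h := h + 3) (n := n)).2.2.2.2.2.1 H Θ
      rw [h3]
      exact hH
    · show Θ (ga 0) ∈ H
      rw [hΘa]
      exact ha0
    · show Θ (gb 0) ∈ H
      rw [hΘb]
      exact hb0
    · show Θ (ga 1) ∈ H
      have h1 : (ga 1 : F (h + 3) n) = sh (h + 2) n (ga 0) := by rw [Trn_sha, hs0]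
      rw [h1, hΘs]
      exact hθa
    · show Θ (gb 1) ∈ H
      have h1 : (gb 1 : F (h + 3) n) = sh (h + 2) n (gb 0) := by rw [Trn_shb, hs0]
      rw [h1, hΘs]
      exact hθb
    · intro z
      obtain ⟨y, hy, hyz⟩ := hθt (θ z)
      obtain ⟨y', hy', hy2⟩ := Trn_Pls θ y hy
      refine ⟨sh (h + 2) n y', hy2, ?_⟩
      show Θ ((sh (h + 2) n y')⁻¹ * sh (h + 2) n z) ∈ H
      rw [map_mul, map_inv, hΘs, hΘs, hy', ← map_inv, ← map_mul]
      exact hyz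
    · intro y hy
      have h1 : Θ ((sh (h + 2) n y)⁻¹ * Θ⁻¹ x) ∈ H := hy
      have h2 : Θ (Θ⁻¹ x) = x := by simp
      rw [map_mul, map_inv, hΘs, h2] at h1
      exact hx _ h1

private theorem Trn_ocle {A : Type} [CommGroup A] [Finite A] (x y : A) : oc x y ≤ Nat.card A :=
  Subgroup.card_le_card_group _

theorem thm_Trn : St_Trn := by
  intro hExt hMov hEuk hHnd hFrm h n A _ _ _ H f hH hg hf
  obtain ⟨S, hS⟩ : ∃ S : Set (MulAut (F (h + 3) n)), S = {φ | φ ∈ MCG (h + 3) n ∧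
    φ (ga 0) ∈ H ∧ φ (gb 0) ∈ H} := ⟨_, rfl⟩
  obtain ⟨u, hu⟩ : ∃ u : MulAut (F (h + 3) n) → ℕ,
    u = fun φ => oc (f (φ (ga 0))) (f (φ (gb 0))) := ⟨_, rfl⟩
  obtain ⟨r, hr⟩ : ∃ r : MulAut (F (h + 3) n) → ℕ,
    r = fun φ => ((H.comap φ.toMonoidHom).comap (sh (h + 2) n)).index := ⟨_, rfl⟩
  have hrle : ∀ φ, r φ ≤ H.index := by
    intro φ
    rw [hr]
    have h1 := (hExt (h := h + 3) (n := n)).2.2.2.2.2.1 H φ
    have h2 := (hExt (h := h + 2) (n := n)).2.2.2.2.1 (H.comap φ.toMonoidHom) (by rw [h1]; exact hH)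
    rw [← h1]
    exact h2.2
  have hule : ∀ φ, u φ ≤ Nat.card A := by
    intro φ
    rw [hu]
    exact Trn_ocle _ _
  have hne : ∃ φ, φ ∈ S := by
    obtain ⟨θ, hθ, hθa, hθb, -⟩ := hHnd H hH (by omega)
    exact ⟨θ, hS ▸ ⟨hθ.1, hθa, hθb⟩⟩
  -- the maximum
  obtain ⟨φ, hφS, hφm⟩ : ∃ φ ∈ S, ∀ ψ ∈ S, u ψ * (H.index + 1) + r ψ ≤ u φ * (H.index + 1) + r φ := by
    obtain ⟨N, hN1, hN2⟩ : ∃ N, N ∈ (fun φ => u φ * (H.index + 1) + r φ) '' S ∧
        ∀ N' ∈ (fun φ => u φ * (H.index + 1) + r φ) '' S, N' ≤ N := by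
      have hb : BddAbove ((fun φ => u φ * (H.index + 1) + r φ) '' S) := by
        refine ⟨Nat.card A * (H.index + 1) + H.index, ?_⟩
        rintro _ ⟨ψ, _, rfl⟩
        exact Nat.add_le_add (Nat.mul_le_mul_right _ (hule ψ)) (hrle ψ)
      obtain ⟨φ₀, hφ₀⟩ := hne
      have hn : ((fun φ => u φ * (H.index + 1) + r φ) '' S).Nonempty := ⟨_, φ₀, hφ₀, rfl⟩
      exact ⟨_, Nat.sSup_mem hn hb, fun N' hN' => le_csSup hb hN'⟩
    obtain ⟨φ, hφ, rfl⟩ := hN1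
    exact ⟨φ, hφ, fun ψ hψ => hN2 _ ⟨ψ, hψ, rfl⟩⟩
  have hφu : ∀ ψ ∈ S, u ψ ≤ u φ := by
    intro ψ hψ
    by_contra hc
    push Not at hc
    have h1 := hφm ψ hψ
    have h2 : (u φ + 1) * (H.index + 1) ≤ u ψ * (H.index + 1) := Nat.mul_le_mul_right _ hc
    have h3 := hrle φ
    nlinarith
  rw [hS] at hφS
  obtain ⟨hφ1, hφ2, hφ3⟩ := hφS
  refine ⟨φ, hφ1, u φ, ?_, hφ2, hφ3, by rw [hu], ?_⟩
  · intro ψ hψ i hi hi1 hi2
    have hi0 : i = 0 := Fin.ext hi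
    rw [hi0] at hi1 hi2 ⊢
    have h1 := hφu ψ (by rw [hS]; exact ⟨hψ, hi1, hi2⟩)
    rw [hu] at h1
    rw [hu]
    exact h1
  · by_contra hc
    push Not at hc
    obtain ⟨x, hx⟩ := hc
    have hH' : (H.comap φ.toMonoidHom).index = H.index :=
      (hExt (h := h + 3) (n := n)).2.2.2.2.2.1 H φ
    obtain ⟨hF1, -, -, -, -, -⟩ := hFrm H f hf
    obtain ⟨σ, hσ, hσ1, hσ2, hσ3, hσ4⟩ := Trn_S3 hExt hMov hEuk hHnd hFrm (H.comap φ.toMonoidHom)
      (fun x => f (φ x)) (by rw [hH']; exact hH) (by rw [hH']; exact hg) (hF1 φ) hφ2 hφ3 (φ⁻¹ x)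
      (by
        intro y hy
        have h1 : φ ((sh (h + 2) n y)⁻¹ * φ⁻¹ x) ∈ H := hy
        have h2 : φ (φ⁻¹ x) = x := by simp
        rw [map_mul, map_inv, h2] at h1
        exact hx y h1)
    have h1 := hφm (φ * σ) (by rw [hS]; exact ⟨(MCG (h + 3) n).mul_mem hφ1 hσ, hσ1, hσ2⟩)
    have h2 : u (φ * σ) = u φ := by
      rw [hu]
      exact hσ3
    have h3 : r φ < r (φ * σ) := by
      rw [hr]
      exact hσ4
    rw [h2] at h1
    omega

end Pool.Agent.PWG
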