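import Pool.Agent.PWG.StC

/-!
# Campaign PWG: two handles, the first one with the largest group of values
-/

set_option autoImplicit false

open scoped BigOperators

namespace Pool.Agent.PWG

open Pool.Agent.PW Pool.Agent.PWM Pool.Agent.PWB Pool.Agent.PWX Pool.Agent.PWF Pool.Agent.PWL
  Pool.Agent.PWY Pool.Agent.PWE
open scoped Classical

/-- a mapping class in one handle fixes the group of another handle -/
private theorem Two_fix {g n : ℕ} {i j : Fin g} (hij : j ≠ i) {θ : MulAut (F g n)} (hθ : Ih i θ)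
    {x : F g n} (hx : x ∈ Subgroup.closure {(ga j : F g n), gb j}) : θ x = x := by
  have : Subgroup.closure {(ga j : F g n), gb j} ≤ θ.toMonoidHom.eqLocus (MonoidHom.id _) := by
    rw [Subgroup.closure_le]
    rintro y (rfl | rfl)
    · exact (hθ.out j hij).1
    · exact (hθ.out j hij).2
  exact this hx

private theorem Two_mem {g n : ℕ} {i : Fin g} {θ : MulAut (F g n)} (hθ : Ih i θ) :
    θ (ga i) ∈ Subgroup.closure {(ga i : F g n), gb i} ∧
      θ (gb i) ∈ Subgroup.closure {(ga i : F g n), gb i} := by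
  have h1 : ∀ x ∈ Subgroup.closure {(ga i : F g n), gb i},
      θ x ∈ Subgroup.closure {(ga i : F g n), gb i} := by
    intro x hx
    have : θ x ∈ (Subgroup.closure {(ga i : F g n), gb i}).map θ.toMonoidHom := ⟨x, hx, rfl⟩
    rwa [hθ.map] at this
  exact ⟨h1 _ (Subgroup.subset_closure (by simp)), h1 _ (Subgroup.subset_closure (by simp))⟩

private theorem Two_gen {g n : ℕ} {i : Fin g} {θ : MulAut (F g n)} (hθ : Ih i θ) :
    Subgroup.closure {(ga i : F g n), gb i} = Subgroup.closure {θ (ga i), θ (gb i)} := by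
  conv_lhs => rw [← hθ.map]
  rw [MonoidHom.map_closure, Set.image_pair]
  rfl

private theorem Two_one {A : Type} [CommGroup A] (x : A) :
    Subgroup.closure {x, 1} = Subgroup.closure {x} ∧
      Subgroup.closure {1, x} = Subgroup.closure {x} := by
  have h : Subgroup.closure {x, 1} = Subgroup.closure {x} := by
    apply le_antisymm
    · rw [Subgroup.closure_le]
      rintro z (rfl | rfl)
      · exact Subgroup.subset_closure rfl
      · exact Subgroup.one_mem _
    · rw [Subgroup.closure_le]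
      rintro z rfl
      exact Subgroup.subset_closure (by simp)
  exact ⟨h, by rw [Set.pair_comm, h]⟩

theorem thm_Two : St_Two := by
  intro hMov hEuk hFrm h n A _ _ _ H f m hMu hMx ha0 hb0 ha1 hb1 hoc
  have e01 : (0 : Fin (h + 2)) ≠ 1 := by
    intro h1
    have := congrArg Fin.val h1
    simp at this
  obtain ⟨-, -, -, -, -, G1, G2, G3⟩ := hFrm H f hMu
  obtain ⟨ζ, hζ⟩ := IsCyclic.exists_generator (α := A)
  have cl0 : ∀ x ∈ Subgroup.closure {(ga 0 : F (h + 2) n), gb 0}, x ∈ H := by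
    intro x hx
    have : Subgroup.closure {(ga 0 : F (h + 2) n), gb 0} ≤ H := by
      rw [Subgroup.closure_le]
      rintro y (rfl | rfl)
      · exact ha0
      · exact hb0
    exact this hx
  have cl1 : ∀ x ∈ Subgroup.closure {(ga 1 : F (h + 2) n), gb 1}, x ∈ H := by
    intro x hx
    have : Subgroup.closure {(ga 1 : F (h + 2) n), gb 1} ≤ H := by
      rw [Subgroup.closure_le]
      rintro y (rfl | rfl)
      · exact ha1
      · exact hb1
    exact this hx
  obtain ⟨k0, hk0⟩ := Subgroup.mem_zpowers_iff.mp (hζ (f (ga 0)))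
  obtain ⟨l0, hl0⟩ := Subgroup.mem_zpowers_iff.mp (hζ (f (gb 0)))
  obtain ⟨k1, hk1⟩ := Subgroup.mem_zpowers_iff.mp (hζ (f (ga 1)))
  obtain ⟨l1, hl1⟩ := Subgroup.mem_zpowers_iff.mp (hζ (f (gb 1)))
  obtain ⟨⟨θ0, hθ0, hθ0v⟩, -⟩ := hEuk (0 : Fin (h + 2)) f ζ k0 l0
    (fun x hx y hy => hMu x (cl0 x hx) y (cl0 y hy)) hk0.symm hl0.symm
  obtain ⟨-, θ1, hθ1, hθ1v⟩ := hEuk (1 : Fin (h + 2)) f ζ k1 l1
    (fun x hx y hy => hMu x (cl1 x hx) y (cl1 y hy)) hk1.symm hl1.symm
  -- the values of the handle `0`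
  have hVa : ∀ x ∈ Subgroup.closure {(ga 0 : F (h + 2) n), gb 0},
      f x ∈ Subgroup.closure {f (θ0 (ga 0))} := by
    intro x hx
    rw [Two_gen hθ0] at hx
    have h1 := G3 {θ0 (ga 0), θ0 (gb 0)} (by
      rintro y (rfl | rfl)
      · exact cl0 _ (Two_mem hθ0).1
      · exact cl0 _ (Two_mem hθ0).2) x hx
    rw [Set.image_pair, hθ0v, (Two_one _).1] at h1
    exact h1
  have hVb : ∀ x ∈ Subgroup.closure {(ga 1 : F (h + 2) n), gb 1},
      f x ∈ Subgroup.closure {f (θ1 (gb 1))} := by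
    intro x hx
    rw [Two_gen hθ1] at hx
    have h1 := G3 {θ1 (ga 1), θ1 (gb 1)} (by
      rintro y (rfl | rfl)
      · exact cl1 _ (Two_mem hθ1).1
      · exact cl1 _ (Two_mem hθ1).2) x hx
    rw [Set.image_pair, hθ1v, (Two_one _).2] at h1
    exact h1
  have hα : f (θ0 (ga 0)) ∈ Va f := by
    have h1 := G3 {(ga 0 : F (h + 2) n), gb 0} (by
      rintro y (rfl | rfl)
      · exact ha0
      · exact hb0) _ (Two_mem hθ0).1
    rw [Set.image_pair] at h1
    exact h1
  have hVaeq : Subgroup.closure {f (ga 0), f (gb 0)} = Subgroup.closure {f (θ0 (ga 0))} := by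
    apply le_antisymm
    · rw [Subgroup.closure_le]
      rintro z (rfl | rfl)
      · exact hVa _ (Subgroup.subset_closure (by simp))
      · exact hVa _ (Subgroup.subset_closure (by simp))
    · rw [Subgroup.closure_le]
      rintro z rfl
      exact hα
  -- the slide
  obtain ⟨-, -, hM3, -, -⟩ := hMov (g := h + 2) (n := n)
  obtain ⟨σ, hσ, hσa, hσb, -, -, -, -⟩ := hM3 0 1 (by simp)
  have hφM : θ0 * θ1 * σ ∈ MCG (h + 2) n :=
    (MCG _ _).mul_mem ((MCG _ _).mul_mem hθ0.mem.1 hθ1.mem.1) hσ.1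
  have va0 : (θ0 * θ1 * σ) (ga 0) = θ0 (ga 0) := by
    rw [MulAut.mul_apply, MulAut.mul_apply, hσa, (hθ1.out 0 e01).1]
  have vb0 : (θ0 * θ1 * σ) (gb 0) = θ1 (gb 1) * θ0 (gb 0) := by
    rw [MulAut.mul_apply, MulAut.mul_apply, hσb, map_mul, map_mul, (hθ1.out 0 e01).2,
      Two_fix e01.symm hθ0 (Two_mem hθ1).2]
  have mb1 : θ1 (gb 1) ∈ H := cl1 _ (Two_mem hθ1).2
  have mb0 : θ0 (gb 0) ∈ H := cl0 _ (Two_mem hθ0).2
  have hmx := hMx _ hφM 0 rfl (by rw [va0]; exact cl0 _ (Two_mem hθ0).1)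
    (by rw [vb0]; exact H.mul_mem mb1 mb0)
  rw [va0, vb0, hMu _ mb1 _ mb0, hθ0v, mul_one, ← hoc] at hmx
  unfold oc at hmx
  rw [hVaeq] at hmx
  have hle : Subgroup.closure {f (θ0 (ga 0))} ≤
      Subgroup.closure {f (θ0 (ga 0)), f (θ1 (gb 1))} := by
    apply Subgroup.closure_mono
    intro z hz
    exact Or.inl hz
  have heq : Subgroup.closure {f (θ0 (ga 0))} =
      Subgroup.closure {f (θ0 (ga 0)), f (θ1 (gb 1))} :=
    Subgroup.eq_of_le_of_card_ge hle hmx
  have hγ : f (θ1 (gb 1)) ∈ Subgroup.closure {f (θ0 (ga 0))} := by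
    rw [heq]
    exact Subgroup.subset_closure (by simp)
  have hVa2 : Subgroup.closure {f (θ1 (gb 1))} ≤ Va f := by
    unfold Va
    rw [hVaeq, Subgroup.closure_le]
    rintro z rfl
    exact hγ
  exact ⟨hVa2 (hVb _ (Subgroup.subset_closure (by simp))),
    hVa2 (hVb _ (Subgroup.subset_closure (by simp)))⟩

end Pool.Agent.PWG
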