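import Pool.Agent.PWG.StC

/-!
# Campaign PWG, module Ucl: simple curves which are disjoint from the first handle
-/

set_option autoImplicit false

namespace Pool.Agent.PWG

open Pool.Agent.PW Pool.Agent.PWM Pool.Agent.PWB Pool.Agent.PWX Pool.Agent.PWF Pool.Agent.PWL
  Pool.Agent.PWY Pool.Agent.PWE
open scoped Classical

private theorem Ucl_npow {g n : ℕ} {A : Type} [CommGroup A] {H : Subgroup (F g n)} {f : F g n → A}
    (hM : Mu H f) (h1 : f 1 = 1) {x : F g n} (hx : x ∈ H) (k : ℕ) : f (x ^ k) = f x ^ k := by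
  induction k with
  | zero => rw [pow_zero, pow_zero, h1]
  | succ k ih => rw [pow_succ, pow_succ, hM _ (H.pow_mem hx k) _ hx, ih]

private theorem Ucl_zpow {g n : ℕ} {A : Type} [CommGroup A] {H : Subgroup (F g n)} {f : F g n → A}
    (hM : Mu H f) (h1 : f 1 = 1) (hi : ∀ x ∈ H, f x⁻¹ = (f x)⁻¹) {x : F g n} (hx : x ∈ H)
    (k : ℤ) : f (x ^ k) = f x ^ k := by
  obtain ⟨m, rfl | rfl⟩ := k.eq_nat_or_neg
  · rw [zpow_natCast, zpow_natCast, Ucl_npow hM h1 hx]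
  · rw [zpow_neg, zpow_neg, zpow_natCast, zpow_natCast, hi _ (H.pow_mem hx m),
      Ucl_npow hM h1 hx]

theorem thm_Ucl : St_Ucl := by
  intro hMov hEuk hFrm h n A _ _ _ H f hMu ha hb ψ hψ hψa hψb hzH hzV
  obtain ⟨hf1, hfi, hfc⟩ := (hFrm H f hMu).2.2.2.2.2
  obtain ⟨ζ, hζ⟩ := IsCyclic.exists_generator (α := A)
  obtain ⟨α, hα⟩ := Subgroup.mem_zpowers_iff.1 (hζ (f (ga 0)))
  obtain ⟨β, hβ⟩ := Subgroup.mem_zpowers_iff.1 (hζ (f (gb 0)))
  have hS : Subgroup.closure {(ga 0 : F (h + 2) n), gb 0} ≤ H := by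
    rw [Subgroup.closure_le]
    rintro x (rfl | rfl)
    · exact ha
    · exact hb
  have hMuS : Mu (Subgroup.closure {(ga 0 : F (h + 2) n), gb 0}) f :=
    fun x hx y hy => hMu x (hS hx) y (hS hy)
  obtain ⟨⟨θ, hθ, hθb⟩, -⟩ := hEuk (0 : Fin (h + 2)) f ζ α β hMuS hα.symm hβ.symm
  -- images of the two letters
  have hin : ∀ x ∈ Subgroup.closure {(ga 0 : F (h + 2) n), gb 0},
      θ x ∈ Subgroup.closure {(ga 0 : F (h + 2) n), gb 0} := by
    intro x hx
    have : θ x ∈ (Subgroup.closure {(ga 0 : F (h + 2) n), gb 0}).map θ.toMonoidHom :=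
      Subgroup.mem_map.2 ⟨x, hx, rfl⟩
    rwa [hθ.map] at this
  have hga : (ga 0 : F (h + 2) n) ∈ Subgroup.closure {(ga 0 : F (h + 2) n), gb 0} :=
    Subgroup.subset_closure (Or.inl rfl)
  have hgb : (gb 0 : F (h + 2) n) ∈ Subgroup.closure {(ga 0 : F (h + 2) n), gb 0} :=
    Subgroup.subset_closure (Or.inr rfl)
  have hcl : Subgroup.closure {(ga 0 : F (h + 2) n), gb 0} =
      Subgroup.closure {θ (ga 0), θ (gb 0)} := by
    rw [← hθ.map, MonoidHom.map_closure, Set.image_pair]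
    rfl
  have hSθ : ({θ (ga 0), θ (gb 0)} : Set (F (h + 2) n)) ⊆ H := by
    rintro x (rfl | rfl)
    · exact hS (hin _ hga)
    · exact hS (hin _ hgb)
  have hval : ∀ x ∈ Subgroup.closure {(ga 0 : F (h + 2) n), gb 0},
      f x ∈ Subgroup.zpowers (f (θ (ga 0))) := by
    intro x hx
    rw [hcl] at hx
    have h1 := hfc _ hSθ x hx
    have h2 : Subgroup.closure (f '' {θ (ga 0), θ (gb 0)}) ≤
        Subgroup.zpowers (f (θ (ga 0))) := by
      rw [Subgroup.closure_le, Set.image_pair]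
      rintro y (rfl | rfl)
      · exact Subgroup.mem_zpowers _
      · rw [hθb]
        exact Subgroup.one_mem _
    exact h2 h1
  have hVa : Va f ≤ Subgroup.zpowers (f (θ (ga 0))) := by
    unfold Va
    rw [Subgroup.closure_le]
    rintro y (rfl | rfl)
    · exact hval _ hga
    · exact hval _ hgb
  obtain ⟨k, hk⟩ := Subgroup.mem_zpowers_iff.1 (hVa hzV)
  -- the twist
  have hMv := @hMov (h + 2) n
  obtain ⟨e, he, hea, heb, heo, -⟩ := hMv.2.2.2.2 0 (-k)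
  obtain ⟨σ, hσ, -, hσb, -⟩ := hMv.2.2.1 0 1 (by simp)
  have h10 : (1 : Fin (h + 2)) ≠ 0 := by simp
  have hqS : θ (e (gb 0)) ∈ Subgroup.closure {(ga 0 : F (h + 2) n), gb 0} := by
    apply hin
    rw [heb]
    exact mul_mem hgb (zpow_mem hga _)
  have hq : θ (e (gb 0)) = θ (gb 0) * θ (ga 0) ^ (-k) := by
    rw [heb, map_mul, map_zpow]
  have hψS : ∀ x ∈ Subgroup.closure {(ga 0 : F (h + 2) n), gb 0}, ψ x = x := by
    intro x hx
    induction hx using Subgroup.closure_induction with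
    | mem x hx =>
      rcases hx with rfl | rfl
      · exact hψa
      · exact hψb
    | one => exact map_one ψ
    | mul x y _ _ hx hy => rw [map_mul, hx, hy]
    | inv x _ hx => rw [map_inv, hx]
  have hθaH : θ (ga 0) ∈ H := hS (hin _ hga)
  have hθbH : θ (gb 0) ∈ H := hS (hin _ hgb)
  have hfq : f (θ (e (gb 0))) = (f (ψ (gb 1)))⁻¹ := by
    rw [hq, hMu _ hθbH _ (H.zpow_mem hθaH _), hθb, one_mul, Ucl_zpow hMu hf1 hfi hθaH, zpow_neg,
      hk]
  have hzq : ψ (gb 1) * θ (e (gb 0)) = (ψ * θ * e * σ) (gb 0) := by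
    have h1 : (ψ * θ * e * σ) (gb 0 : F (h + 2) n) = ψ (θ (e (σ (gb 0)))) := rfl
    rw [h1, hσb, map_mul, map_mul, map_mul, (heo 1 h10).2, (hθ.out 1 h10).2, hψS _ hqS]
  have hzqL : ψ (gb 1) * θ (e (gb 0)) ∈ Ls H f := by
    apply Subgroup.subset_closure
    refine ⟨H.mul_mem hzH (hS hqS), ?_, ?_⟩
    · rw [hMu _ hzH _ (hS hqS), hfq, mul_inv_cancel]
    · exact ⟨ψ * θ * e * σ, (MCG (h + 2) n).mul_mem ((MCG (h + 2) n).mul_mem
        ((MCG (h + 2) n).mul_mem hψ hθ.mem.1) he.1) hσ.1, 0, hzq⟩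
  have hfin : ψ (gb 1) = ψ (gb 1) * θ (e (gb 0)) * (θ (e (gb 0)))⁻¹ := by
    rw [mul_inv_cancel_right]
  rw [hfin]
  unfold Uu
  exact mul_mem (Subgroup.mem_sup_right hzqL)
    (Subgroup.inv_mem _ (Subgroup.mem_sup_left hqS))

end Pool.Agent.PWG
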