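import Pool.Agent.PWG.StC

/-!
Campaign PWG: the proof of `St_Vli` (one eigenvector).
-/

set_option autoImplicit false

open scoped BigOperators

namespace Pool.Agent.PWG

open Pool.Agent.PW Pool.Agent.PWM Pool.Agent.PWB Pool.Agent.PWX Pool.Agent.PWF Pool.Agent.PWL
  Pool.Agent.PWY Pool.Agent.PWE
open Pool.Agent.PWK Pool.Agent.PWI
open scoped Classical

section

variable {g n : ℕ} (N : Subgroup (F g n)) [hN : N.Normal]

private theorem Vli_cancel (v : N → ℂ) (x : F g n) : Rt N x⁻¹ (Rt N x v) = v := by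
  have h : (Rt N x⁻¹ * Rt N x) v = v := by
    rw [← map_mul, inv_mul_cancel, map_one]; rfl
  exact h

private theorem Vli_ne {v : N → ℂ} (hv : v ≠ 0) {x : F g n} {z : ℂ} (h : Rt N x v = z • v) :
    z ≠ 0 := by
  rintro rfl
  rw [zero_smul] at h
  apply hv
  have h1 := Vli_cancel N v x
  rw [h, map_zero] at h1
  exact h1.symm

private theorem Vli_mul (v : N → ℂ) {x y : F g n} {a b : ℂ} (ha : Rt N x v = a • v)
    (hb : Rt N y v = b • v) : Rt N (x * y) v = (a * b) • v := by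
  rw [map_mul]
  show Rt N x (Rt N y v) = _
  rw [hb, map_smul, ha, smul_smul, mul_comm]

private def Vli_H {v : N → ℂ} (hv : v ≠ 0) : Subgroup (F g n) where
  carrier := {x | ∃ z : ℂ, Rt N x v = z • v}
  one_mem' := ⟨1, by rw [map_one, one_smul]; rfl⟩
  mul_mem' := by
    rintro x y ⟨a, ha⟩ ⟨b, hb⟩
    exact ⟨a * b, Vli_mul N v ha hb⟩
  inv_mem' := by
    rintro x ⟨a, ha⟩
    refine ⟨a⁻¹, ?_⟩
    have h0 := Vli_ne N hv ha
    have h1 := Vli_cancel N v x
    rw [ha, map_smul] at h1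
    calc Rt N x⁻¹ v = a⁻¹ • (a • Rt N x⁻¹ v) := by rw [smul_smul, inv_mul_cancel₀ h0, one_smul]
      _ = a⁻¹ • v := by rw [h1]

private noncomputable def Vli_c {v : N → ℂ} (hv : v ≠ 0) (x : Vli_H N hv) : ℂ :=
  Classical.choose x.2

private theorem Vli_cs {v : N → ℂ} (hv : v ≠ 0) (x : Vli_H N hv) :
    Rt N (x : F g n) v = Vli_c N hv x • v := Classical.choose_spec x.2

private theorem Vli_cu {v : N → ℂ} (hv : v ≠ 0) (x : Vli_H N hv) (z : ℂ)
    (h : Rt N (x : F g n) v = z • v) : Vli_c N hv x = z := by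
  have h1 := (Vli_cs N hv x).symm.trans h
  exact smul_left_injective ℂ hv h1

private noncomputable def Vli_x {v : N → ℂ} (hv : v ≠ 0) : Vli_H N hv →* ℂˣ where
  toFun x := Units.mk0 (Vli_c N hv x) (Vli_ne N hv (Vli_cs N hv x))
  map_one' := by
    ext
    show Vli_c N hv 1 = 1
    refine Vli_cu N hv 1 1 ?_
    rw [Subgroup.coe_one, map_one, one_smul]
    rfl
  map_mul' x y := by
    ext
    show Vli_c N hv (x * y) = Vli_c N hv x * Vli_c N hv y
    refine Vli_cu N hv (x * y) _ ?_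
    rw [Subgroup.coe_mul]
    exact Vli_mul N v (Vli_cs N hv x) (Vli_cs N hv y)

private theorem Vli_fin {v : N → ℂ} (hv : v ≠ 0) (hfin : N.FiniteIndex)
    (hN1 : ∀ x ∈ N, Rt N x v = v) : Finite (Vli_x N hv).range := by
  have h1 : N.subgroupOf (Vli_H N hv) ≤ (Vli_x N hv).ker := by
    intro x hx
    rw [Subgroup.mem_subgroupOf] at hx
    rw [MonoidHom.mem_ker]
    ext
    show Vli_c N hv x = 1
    refine Vli_cu N hv x 1 ?_
    rw [one_smul]
    exact hN1 _ hx
  have h2 : (Vli_x N hv).ker.FiniteIndex := Subgroup.finiteIndex_of_le h1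
  have h3 : Finite (Vli_H N hv ⧸ (Vli_x N hv).ker) := inferInstance
  exact Finite.of_equiv _ (QuotientGroup.quotientKerEquivRange (Vli_x N hv)).toEquiv

end

theorem thm_Vli : St_Vli := by
  intro hCOM hAvg hKls hMov hAdx g n d N H hN f hf hH0 hHd v hHv hNv hcomb hKer
  by_contra hv
  have hfin : N.FiniteIndex := hf.good.fin
  have hHH : H ≤ Vli_H N hv := fun x hx => hHv x hx
  have hdvd : (Vli_H N hv).index ∣ H.index := Subgroup.index_dvd_of_le hHH
  have hi0 : (Vli_H N hv).index ≠ 0 := fun h => hH0 (by rw [h, zero_dvd_iff] at hdvd; exact hdvd)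
  have hid : (Vli_H N hv).index ≤ d := le_trans (Nat.le_of_dvd (Nat.pos_of_ne_zero hH0) hdvd) hHd
  haveI : Finite (Vli_x N hv).range := Vli_fin N hv hfin hNv
  let fA : F g n → (Vli_x N hv).range := fun x =>
    if h : x ∈ Vli_H N hv then ⟨Vli_x N hv ⟨x, h⟩, ⟨_, rfl⟩⟩ else 1
  have hfA : ∀ x (h : x ∈ Vli_H N hv), fA x = ⟨Vli_x N hv ⟨x, h⟩, ⟨_, rfl⟩⟩ := fun x h => dif_pos h
  have hMu : Mu (Vli_H N hv) fA := by
    intro x hx y hy
    rw [hfA x hx, hfA y hy, hfA (x * y) (Subgroup.mul_mem _ hx hy)]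
    apply Subtype.ext
    show Vli_x N hv ⟨x * y, _⟩ = Vli_x N hv ⟨x, hx⟩ * Vli_x N hv ⟨y, hy⟩
    rw [← map_mul]
    rfl
  have hone : ∀ x (h : x ∈ Vli_H N hv), fA x = 1 ↔ Rt N x v = v := by
    intro x h
    rw [hfA x h]
    constructor
    · intro e
      have e1 : Vli_x N hv ⟨x, h⟩ = 1 := congrArg Subtype.val e
      have e2 : Vli_c N hv ⟨x, h⟩ = 1 := congrArg Units.val e1
      have e3 := Vli_cs N hv ⟨x, h⟩
      rw [e2, one_smul] at e3
      exact e3
    · intro e
      apply Subtype.ext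
      show Vli_x N hv ⟨x, h⟩ = 1
      ext
      show Vli_c N hv ⟨x, h⟩ = 1
      exact Vli_cu N hv ⟨x, h⟩ 1 (by rw [one_smul]; exact e)
  let M : Subgroup (F g n) :=
    { carrier := {x | Rt N x v = v}
      one_mem' := by
        show Rt N 1 v = v
        rw [map_one]; rfl
      mul_mem' := by
        intro x y hx hy
        show Rt N (x * y) v = v
        have h1 : Rt N x v = (1 : ℂ) • v := by rw [one_smul]; exact hx
        have h2 : Rt N y v = (1 : ℂ) • v := by rw [one_smul]; exact hy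
        have h3 := Vli_mul N v h1 h2
        rwa [mul_one, one_smul] at h3
      inv_mem' := by
        intro x hx
        show Rt N x⁻¹ v = v
        have h1 := Vli_cancel N v x
        have h2 : Rt N x v = v := hx
        rwa [h2] at h1 }
  have hMmem : ∀ x, x ∈ M ↔ Rt N x v = v := fun x => Iff.rfl
  have hMH : M ≤ Vli_H N hv := fun x hx => ⟨1, by rw [one_smul]; exact hx⟩
  have hNM : N ≤ M := fun x hx => hNv x hx
  have hMcl : M ≤ Subgroup.closure {x | x ∈ M ∧ Sm x} := by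
    intro x hx
    have h1 : x ∈ Ls (Vli_H N hv) fA :=
      hKer (Vli_H N hv) fA hi0 hid hMu x (hMH hx) ((hone x (hMH hx)).mpr hx)
    refine Subgroup.closure_mono ?_ h1
    rintro y ⟨hy1, hy2, hy3⟩
    exact ⟨(hone y hy1).mp hy2, hy3⟩
  refine hv (hAvg hCOM g n N M f hf hNM ?_ v (fun m hm => hm) hcomb)
  intro f1 hf1 hinv
  exact hKls hMov hAdx g n N M f1 hf1.good hNM hinv hMcl

end Pool.Agent.PWG
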