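import Pool.Agent.PWE.All
import Pool.Agent.PWG.Ext
import Pool.Agent.PWG.Reb
import Pool.Agent.PWG.Mov
import Pool.Agent.PWG.Euk
import Pool.Agent.PWG.Blo
import Pool.Agent.PWG.Prd
import Pool.Agent.PWG.Tbs
import Pool.Agent.PWG.Emi
import Pool.Agent.PWG.Ele
import Pool.Agent.PWG.Bsc
import Pool.Agent.PWG.Bsd
import Pool.Agent.PWG.Cuf
import Pool.Agent.PWG.Hnd
import Pool.Agent.PWG.Frm
import Pool.Agent.PWG.Sml
import Pool.Agent.PWG.Trn
import Pool.Agent.PWG.Prp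
import Pool.Agent.PWG.Ucl
import Pool.Agent.PWG.Inh
import Pool.Agent.PWG.Ker
import Pool.Agent.PWG.Avg
import Pool.Agent.PWG.Eri
import Pool.Agent.PWG.Two
import Pool.Agent.PWG.Fng
import Pool.Agent.PWG.Adx
import Pool.Agent.PWG.Kls
import Pool.Agent.PWG.Vli
import Pool.Agent.PWG.Fin
import Pool.Agent.PWK.SIM
import Pool.Agent.PWK.COM

/-!
# Campaign PWG: assembly (helper1)
-/

set_option autoImplicit false

namespace Pool.Agent.PWG

open Pool.Agent.PW Pool.Agent.PWK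
open scoped Classical

theorem all_Mov : St_Mov := thm_Mov thm_Reb

theorem all_Euk : St_Euk := thm_Euk all_Mov

theorem all_Blo : St_Blo :=
  thm_Blo PWE.thm_Gnv PWE.thm_Dch PWE.thm_Mrg PWE.thm_Orb PWE.thm_Shf PWE.thm_Trb PWE.thm_Prl
    PWE.thm_Ntw PWE.thm_Dec PWE.thm_Gpl PWE.thm_Lta PWE.thm_Lwr PWE.thm_Ctr PWE.thm_Num PWE.thm_Pos
    PWE.thm_Dsp PWE.thm_Red thm_Ext

theorem all_Prd : St_Prd := thm_Prd thm_Reb

theorem all_Tbs : St_Tbs := thm_Tbs all_Prd PWE.thm_Dsp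

theorem all_Emi : St_Emi := thm_Emi all_Tbs all_Prd PWE.thm_Dsp

theorem all_Ele : St_Ele := thm_Ele all_Tbs PWE.thm_Dsp

theorem all_Hnd : St_Hnd := thm_Hnd all_Blo thm_Cuf thm_Reb

theorem all_Eri : St_Eri := thm_Eri all_Tbs PWE.thm_Dsp

theorem all_Bsc : St_Bsc := thm_Bsc all_Tbs all_Emi all_Ele all_Eri all_Mov

theorem all_Bsd : St_Bsd := thm_Bsd all_Blo all_Bsc thm_Ext

/-- The kernel of a homomorphism from a subgroup of small index to a finite cyclic group is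
generated by simple closed curves. -/
theorem all_Ker {h n : ℕ} {A : Type} [CommGroup A] [Finite A] [IsCyclic A]
    (H : Subgroup (F (h + 3) n)) (f : F (h + 3) n → A) (h1 : H.index ≠ 0)
    (h2 : 340 * (Nat.log 2 H.index + 1) ≤ h + 1) (h3 : Mu H f) :
    ∀ x ∈ H, f x = 1 → x ∈ Ls H f :=
  thm_Ker all_Euk all_Hnd thm_Two thm_Trn all_Bsd (thm_Sml all_Euk) thm_Ucl thm_Ext all_Mov thm_Frm
    thm_Prp (thm_Fng all_Hnd thm_Frm thm_Two all_Euk) thm_Inh H f h1 h2 h3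

/-- Putman-Wieland for representations with eigenlines of subgroups of small index. -/
theorem all_Lin (g n d : ℕ) (K : Subgroup (F g n)) (P : Subgroup (F g n) → Prop) [K.FiniteIndex]
    (h1 : bdry g n ∈ K.normalCore) (h2 : Lin K d P)
    (h3 : ∀ M : Subgroup (F g n), P M → K.normalCore ≤ M → M.Normal → ∀ f1 : F g n → ℚ,
      Fine M f1 → ∀ x ∈ M, f1 x = 0)
    (h4 : ∀ {A : Type} [CommGroup A] [Finite A] [IsCyclic A] (H₀ : Subgroup (F g n))
      (fA : F g n → A), H₀.index ≠ 0 → H₀.index ≤ d → Mu H₀ fA → ∀ x ∈ H₀, fA x = 1 →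
      x ∈ Ls H₀ fA) :
    ∀ f : K → ℚ, IsClass K f → f ≠ 0 → (orbit K f).Infinite :=
  thm_Fin thm_SIM thm_COM thm_Vli thm_Avg thm_Kls all_Mov thm_Adx g n d K P h1 h2 h3 h4

end Pool.Agent.PWG
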