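import Pool.Agent.PWG.St
import Pool.Agent.PWY.Cost
import Pool.Agent.PWM.Blk

/-!
# Campaign PWG: the cost of a subgroup, with a logarithmic step for every subgroup of finite index (helper1)
-/

set_option autoImplicit false

namespace Pool.Agent.PWG

open Pool.Agent.PW Pool.Agent.PWM Pool.Agent.PWB Pool.Agent.PWX Pool.Agent.PWS Pool.Agent.PWH
  Pool.Agent.PWL Pool.Agent.PWY

/-- The subgroup `N` of `G` can be reached from `⊤` with cost `s`.  Steps from `N` to a smaller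
subgroup `M`:
* `M` has index `d` in `N`: cost the smaller one of `d - 1` and `C (log₂ d + 1)`;
* `M` contains the kernel of a homomorphism from `N` to a section `S/T` of `SL_2(F_p)` for some prime
  `p`: cost `C`;
* `N`, `M` normal in `G`, `N/M` solvable, `G/M` generated by `d` elements: cost `d + 2`;
* `N/M` is cyclic: cost 1;
* `N/M` is an abelian chief factor of `G`: cost 1;
* `N`, `M` normal, `N/M` central in `G/M` and made of non-generators of `G/M`: no cost. -/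
inductive Cost9 (C : ℕ) (G : Type) [Group G] : ℕ → Subgroup G → Prop
  | top : Cost9 C G 0 ⊤
  | index {s : ℕ} {N M : Subgroup G} : Cost9 C G s N → M ≤ N → M.relIndex N ≠ 0 →
      Cost9 C G (s + min (M.relIndex N - 1) (C * (Nat.log 2 (M.relIndex N) + 1))) M
  | sl2 {s : ℕ} {N M : Subgroup G} (p : ℕ) [Fact p.Prime]
      (S : Subgroup (Matrix.SpecialLinearGroup (Fin 2) (ZMod p))) (T : Subgroup S) [T.Normal]
      (σ : N →* S ⧸ T) : Cost9 C G s N → M ≤ N → (∀ x : N, σ x = 1 → (x : G) ∈ M) →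
      Cost9 C G (s + C) M
  | solvable {s d : ℕ} {N M : Subgroup G} [N.Normal] [M.Normal] : Cost9 C G s N → M ≤ N →
      Group.IsSolvable (N.map (QuotientGroup.mk' M)) →
      (∃ S : Finset G, S.card ≤ d ∧ Subgroup.closure (S : Set G) ⊔ M = ⊤) →
      Cost9 C G (s + (d + 2)) M
  | cyclic {s : ℕ} {N M : Subgroup G} : Cost9 C G s N → M ≤ N →
      (∀ x ∈ N, ∀ y ∈ M, x * y * x⁻¹ ∈ M) → (∃ c ∈ N, ∀ x ∈ N, ∃ k : ℤ, (c ^ k)⁻¹ * x ∈ M) →
      Cost9 C G (s + 1) M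
  | chief {s : ℕ} {N M : Subgroup G} : Cost9 C G s N → N.Normal → M.Normal → M ≤ N →
      (∀ x ∈ N, ∀ y ∈ N, x * y * x⁻¹ * y⁻¹ ∈ M) →
      (∀ L : Subgroup G, L.Normal → M ≤ L → L ≤ N → L = M ∨ L = N) → Cost9 C G (s + 1) M
  | frattini {s : ℕ} {N M : Subgroup G} : Cost9 C G s N → N.Normal → M.Normal → M ≤ N →
      (∀ x ∈ N, ∀ y, x * y * x⁻¹ * y⁻¹ ∈ M) → (∀ H : Subgroup G, H ⊔ N = ⊤ → H ⊔ M = ⊤) →
      Cost9 C G s M

/-- One more handle in `M`. -/
theorem idx_one (hH : St_Hnd) {Q : Type} [Group Q] {g n k j : ℕ} {N M : Subgroup Q}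
    (hr : M.relIndex N ≠ 0) (ρ : F g n →* Q)
    (hk : k ≤ g) (hj : j + 1 + 340 * (Nat.log 2 (M.relIndex N) + 1) ≤ k)
    {φ : MulAut (F g n)} (hφ : φ ∈ MCG g n)
    (h1 : Inv k N (ρ.comp (MulEquiv.toMonoidHom φ)))
    (h2 : Inv j M (ρ.comp (MulEquiv.toMonoidHom φ))) :
    ∃ φ' ∈ MCG g n, Inv k N (ρ.comp (MulEquiv.toMonoidHom φ')) ∧
      Inv (j + 1) M (ρ.comp (MulEquiv.toMonoidHom φ')) := by
  obtain ⟨h, hh⟩ : ∃ h, k = j + (h + 1) := ⟨k - j - 1, by omega⟩
  have hm : j + (h + 1) ≤ g := by omega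
  let τ : F (h + 1) 0 →* Q := (ρ.comp (MulEquiv.toMonoidHom φ)).comp (blk (h + 1) g n j hm)
  have hτ : τ.range ≤ N := by
    rintro _ ⟨x, rfl⟩
    induction x using FreeGroup.induction_on with
    | C1 => rw [map_one]; exact N.one_mem
    | of x =>
      cases x with
      | a i =>
        have := (h1 ⟨j + i, by omega⟩ (by simp only; omega)).1
        exact this
      | b i =>
        have := (h1 ⟨j + i, by omega⟩ (by simp only; omega)).2
        exact this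
      | c i => exact i.elim0
    | inv_of x hx =>
      rw [map_inv]
      exact N.inv_mem hx
    | mul x y hx hy =>
      rw [map_mul]
      exact N.mul_mem hx hy
  have hidx : (M.comap τ).index = M.relIndex τ.range := Subgroup.index_comap M τ
  have hle : (M.comap τ).index ≤ M.relIndex N := by
    rw [hidx]
    exact Subgroup.relIndex_le_of_le_right hτ hr
  have hne : (M.comap τ).index ≠ 0 := by
    rw [hidx]
    exact fun h0 => hr (Subgroup.relIndex_eq_zero_of_le_right hτ h0)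
  have hlog := Nat.log_mono_right (b := 2) hle
  have hl2 : 340 * (Nat.log 2 (M.comap τ).index + 1) ≤ 340 * (Nat.log 2 (M.relIndex N) + 1) :=
    Nat.mul_le_mul_left _ (Nat.add_le_add_right hlog 1)
  have hl3 : 340 * (Nat.log 2 (M.relIndex N) + 1) ≤ h + 1 := by
    clear hl2 hlog hle hidx hτ
    generalize 340 * (Nat.log 2 (M.relIndex N) + 1) = L at hj ⊢
    omega
  obtain ⟨θ, hθ, ha, hb, -⟩ := hH (M.comap τ) hne (hl2.trans hl3)
  obtain ⟨Θ, hΘ, -, hΘ2, hΘ3, -⟩ := st_Blk (n := n) hm (ψ := θ) hθ.2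
  refine ⟨φ * Θ, (MCG g n).mul_mem hφ hΘ, ?_, ?_⟩
  · intro i hi
    by_cases hij : (i : ℕ) < j
    · have h3 := hΘ3 i (Or.inl hij)
      show ρ (φ (Θ (ga i))) ∈ N ∧ ρ (φ (Θ (gb i))) ∈ N
      rw [h3.1, h3.2]
      exact h1 i hi
    · have ea : (ga i : F g n) = blk (h + 1) g n j hm (ga ⟨i - j, by omega⟩) := by
        show _ = ga (⟨j + (i - j), by omega⟩ : Fin g)
        congr 1
        ext
        simp only
        omega
      have eb : (gb i : F g n) = blk (h + 1) g n j hm (gb ⟨i - j, by omega⟩) := by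
        show _ = gb (⟨j + (i - j), by omega⟩ : Fin g)
        congr 1
        ext
        simp only
        omega
      show ρ (φ (Θ (ga i))) ∈ N ∧ ρ (φ (Θ (gb i))) ∈ N
      rw [ea, eb, hΘ2, hΘ2]
      exact ⟨hτ ⟨_, rfl⟩, hτ ⟨_, rfl⟩⟩
  · intro i hi
    by_cases hij : (i : ℕ) < j
    · have h3 := hΘ3 i (Or.inl hij)
      show ρ (φ (Θ (ga i))) ∈ M ∧ ρ (φ (Θ (gb i))) ∈ M
      rw [h3.1, h3.2]
      exact h2 i hij
    · have e : i = ⟨j + ((0 : Fin (h + 1)) : ℕ), by simp; omega⟩ := by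
        ext
        simp
        omega
      have ea : (ga i : F g n) = blk (h + 1) g n j hm (ga 0) := by
        rw [e]
        rfl
      have eb : (gb i : F g n) = blk (h + 1) g n j hm (gb 0) := by
        rw [e]
        rfl
      show ρ (φ (Θ (ga i))) ∈ M ∧ ρ (φ (Θ (gb i))) ∈ M
      rw [ea, eb, hΘ2, hΘ2]
      exact ⟨ha, hb⟩

/-- The step to a subgroup of finite index. -/
theorem idx_step (hH : St_Hnd) {Q : Type} [Group Q] {g n s c : ℕ} {N M : Subgroup Q}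
    (hr : M.relIndex N ≠ 0) (hc : 340 * (Nat.log 2 (M.relIndex N) + 1) ≤ c) (hs : s + c ≤ g)
    (ρ : F g n →* Q) {φ : MulAut (F g n)} (hφ : φ ∈ MCG g n)
    (h1 : Inv (g - s) N (ρ.comp (MulEquiv.toMonoidHom φ))) :
    ∃ φ' ∈ MCG g n, Inv (g - (s + c)) M (ρ.comp (MulEquiv.toMonoidHom φ')) := by
  have key : ∀ j, j ≤ g - (s + c) → ∃ φ' ∈ MCG g n,
      Inv (g - s) N (ρ.comp (MulEquiv.toMonoidHom φ')) ∧
      Inv j M (ρ.comp (MulEquiv.toMonoidHom φ')) := by
    intro j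
    induction j with
    | zero => exact fun _ => ⟨φ, hφ, h1, fun i hi => absurd hi (Nat.not_lt_zero _)⟩
    | succ j ih =>
      intro hj
      obtain ⟨φ', hφ', h2, h3⟩ := ih (by omega)
      refine idx_one hH hr ρ (Nat.sub_le _ _) ?_ hφ' h2 h3
      generalize 340 * (Nat.log 2 (M.relIndex N) + 1) = L at hc ⊢
      omega
  obtain ⟨φ', hφ', -, h3⟩ := key _ le_rfl
  exact ⟨φ', hφ', h3⟩

/-- After a mapping class the first `g - s` handles go to `N`, if `N` has cost `s`. -/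
theorem go_of_cost9 (kcyc : St_KCyc) (kchr : St_KChr) (kchief : St_KChief) (kfrat : St_KFrat)
    (kind : PWX.St_Ind) (hSol : St_Sol) (hHnd : St_Hnd) {C : ℕ} (hC0 : 340 ≤ C)
    (hC : ∀ (p : ℕ) [Fact p.Prime] (ρ : F C 0 →* SL p), Dead ρ)
    {Q : Type} [Group Q] [Finite Q] {g n s : ℕ} {N : Subgroup Q}
    (hc : Cost9 C Q s N) (hs : s ≤ g) (ρ : F g n →* Q) (hρ : Function.Surjective ρ) :
    ∃ φ ∈ MCG g n, Inv (g - s) N (ρ.comp (MulEquiv.toMonoidHom φ)) := by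
  induction hc with
  | top => exact ⟨1, (MCG g n).one_mem, fun i _ => ⟨Subgroup.mem_top _, Subgroup.mem_top _⟩⟩
  | @index s N M _ hMN hr ih =>
    obtain ⟨φ, hφ, h1⟩ := ih (by omega)
    rcases le_total (M.relIndex N - 1) (C * (Nat.log 2 (M.relIndex N) + 1)) with h2 | h2
    · rw [min_eq_left h2] at hs ⊢
      have e : g - s = (g - (s + (M.relIndex N - 1))) + (M.relIndex N - 1) := by omega
      rw [e] at h1
      obtain ⟨ψ, hψ, h2⟩ := kind (by omega) (ρ.comp (MulEquiv.toMonoidHom φ)) N M (by omega) h1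
      exact ⟨φ * ψ, (MCG g n).mul_mem hφ hψ, h2⟩
    · rw [min_eq_right h2] at hs ⊢
      exact idx_step hHnd hr (Nat.mul_le_mul_right _ hC0) hs ρ hφ h1
  | @sl2 s N M p _ S T _ σ _ hMN hσ ih =>
    obtain ⟨φ, hφ, h1⟩ := ih (by omega)
    exact go_step (dead_of_section (hC p) S T) σ hσ hs ρ hφ h1
  | @solvable s d N M _ _ _ hMN hso hd ih =>
    obtain ⟨φ, hφ, h1⟩ := ih (by omega)
    have e : g - s = (g - (s + (d + 2))) + (d + 2) := by omega
    rw [e] at h1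
    obtain ⟨ψ, hψ, h2⟩ := hSol (by omega) (ρ.comp (MulEquiv.toMonoidHom φ)) N M
      (hρ.comp φ.surjective) hMN hso hd h1
    exact ⟨φ * ψ, (MCG g n).mul_mem hφ hψ, h2⟩
  | @cyclic s N M _ hMN hn hc ih =>
    obtain ⟨φ, hφ, h1⟩ := ih (by omega)
    obtain ⟨m, X, hX⟩ := kchr hMN hn hc
    have e : g - s = (g - (s + 1)) + 1 := by omega
    rw [e] at h1
    obtain ⟨ψ, hψ, h2⟩ := kcyc hX (by omega) (ρ.comp (MulEquiv.toMonoidHom φ)) h1
    exact ⟨φ * ψ, (MCG g n).mul_mem hφ hψ, h2⟩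
  | @chief s N M _ hN hM hMN hab hmin ih =>
    obtain ⟨φ, hφ, h1⟩ := ih (by omega)
    have e : g - s = (g - (s + 1)) + 1 := by omega
    rw [e] at h1
    obtain ⟨ψ, hψ, h2⟩ := kchief (by omega) (ρ.comp (MulEquiv.toMonoidHom φ)) N M
      (hρ.comp φ.surjective) hN hM hMN hab hmin h1
    exact ⟨φ * ψ, (MCG g n).mul_mem hφ hψ, h2⟩
  | @frattini s N M _ hN hM hMN hz hg ih =>
    obtain ⟨φ, hφ, h1⟩ := ih hs
    obtain ⟨ψ, hψ, h2⟩ := kfrat (by omega) (ρ.comp (MulEquiv.toMonoidHom φ)) N M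
      (hρ.comp φ.surjective) hN hM hMN hz hg h1
    exact ⟨φ * ψ, (MCG g n).mul_mem hφ hψ, h2⟩

end Pool.Agent.PWG
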