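import Pool.Agent.PWE.StB
import Pool.Agent.PWM.Rot

/-!
# Campaign PWG: definitions (helper1)

Aim (`St_Ker`): let `H` be a subgroup of `F g n` of index `d ≤ exp (c g)`, `f : H → A` a homomorphism to a finite
cyclic group of any order; then the kernel of `f` is generated by simple closed curves.  So Putman-Wieland holds
for all representations of deck groups which have a line which is stable under a subgroup of index at most `exp (c g)`.

`open scoped Classical` is in force everywhere.
-/

set_option autoImplicit false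

namespace Pool.Agent.PWG

open Pool.Agent.PW Pool.Agent.PWM Pool.Agent.PWB Pool.Agent.PWX Pool.Agent.PWF Pool.Agent.PWL
  Pool.Agent.PWY Pool.Agent.PWE
open scoped Classical

/-- The mapping classes which fix the boundary word. -/
def MB (g n : ℕ) : Subgroup (MulAut (F g n)) where
  carrier := {φ | φ ∈ MCG g n ∧ φ (bdry g n) = bdry g n}
  one_mem' := ⟨(MCG g n).one_mem, rfl⟩
  mul_mem' := by
    rintro φ ψ ⟨h1, h2⟩ ⟨h3, h4⟩
    exact ⟨(MCG g n).mul_mem h1 h3, by rw [MulAut.mul_apply, h4, h2]⟩
  inv_mem' := by
    rintro φ ⟨h1, h2⟩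
    refine ⟨(MCG g n).inv_mem h1, ?_⟩
    have h3 : φ⁻¹ (φ (bdry g n)) = bdry g n := by simp
    rwa [h2] at h3

/-- Simple closed curves based at the boundary. -/
def Sb {g n : ℕ} (x : F g n) : Prop := ∃ φ ∈ MB g n, ∃ i : Fin g, x = φ (gb i)

/-- The shift by one handle. -/
def sh (h n : ℕ) : F h n →* F (h + 1) n :=
  FreeGroup.lift fun x => match x with
    | Gen.a i => ga i.succ
    | Gen.b i => gb i.succ
    | Gen.c j => gc j

/-- The group generated by the letters of the handles from the place `k` on (without the marked points). -/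
def Pl {g n : ℕ} (φ : MulAut (F g n)) (k : ℕ) : Subgroup (F g n) :=
  Subgroup.closure {y | ∃ i : Fin g, k ≤ (i : ℕ) ∧ (y = φ (ga i) ∨ y = φ (gb i))}

/-- `f` is multiplicative on `H`. -/
def Mu {g n : ℕ} {A : Type} [CommGroup A] (H : Subgroup (F g n)) (f : F g n → A) : Prop :=
  ∀ x ∈ H, ∀ y ∈ H, f (x * y) = f x * f y

/-- The group generated by the simple closed curves in the kernel of `f` on `H`. -/
def Ls {g n : ℕ} {A : Type} [CommGroup A] (H : Subgroup (F g n)) (f : F g n → A) :
    Subgroup (F g n) :=
  Subgroup.closure {x | x ∈ H ∧ f x = 1 ∧ Sm x}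

/-- The order of the group generated by two elements. -/
noncomputable def oc {A : Type} [CommGroup A] (x y : A) : ℕ :=
  Nat.card (Subgroup.closure {x, y} : Subgroup A)

/-- No handle in `H` has a larger group of values than `m`. -/
def Mx {g n : ℕ} {A : Type} [CommGroup A] (H : Subgroup (F g n)) (f : F g n → A) (m : ℕ) : Prop :=
  ∀ φ ∈ MCG g n, ∀ i : Fin g, (i : ℕ) = 0 → φ (ga i) ∈ H → φ (gb i) ∈ H →
    oc (f (φ (ga i))) (f (φ (gb i))) ≤ m

end Pool.Agent.PWG
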