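import Pool.Agent.PWG.StC

/-!
# Campaign PWG: two handles with the largest group of values, the others transitive
-/

set_option autoImplicit false

open scoped BigOperators

namespace Pool.Agent.PWG

open Pool.Agent.PW Pool.Agent.PWM Pool.Agent.PWB Pool.Agent.PWX Pool.Agent.PWF Pool.Agent.PWL
  Pool.Agent.PWY Pool.Agent.PWE
open scoped Classical

private theorem Prp_sha {h n : ℕ} (i : Fin h) : sh h n (ga i) = ga i.succ := by
  unfold sh
  have : (ga i : F h n) = FreeGroup.of (Gen.a i) := rfl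
  rw [this, FreeGroup.lift_apply_of]

private theorem Prp_shb {h n : ℕ} (i : Fin h) : sh h n (gb i) = gb i.succ := by
  unfold sh
  have : (gb i : F h n) = FreeGroup.of (Gen.b i) := rfl
  rw [this, FreeGroup.lift_apply_of]

/-- a mapping class in one handle fixes the group of another handle -/
private theorem Prp_fix {g n : ℕ} {i j : Fin g} (hij : j ≠ i) {θ : MulAut (F g n)} (hθ : Ih i θ)
    {x : F g n} (hx : x ∈ Subgroup.closure {(ga j : F g n), gb j}) : θ x = x := by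
  have : Subgroup.closure {(ga j : F g n), gb j} ≤ θ.toMonoidHom.eqLocus (MonoidHom.id _) := by
    rw [Subgroup.closure_le]
    rintro y (rfl | rfl)
    · exact (hθ.out j hij).1
    · exact (hθ.out j hij).2
  exact this hx

private theorem Prp_mem {g n : ℕ} {i : Fin g} {θ : MulAut (F g n)} (hθ : Ih i θ) :
    θ (ga i) ∈ Subgroup.closure {(ga i : F g n), gb i} ∧
      θ (gb i) ∈ Subgroup.closure {(ga i : F g n), gb i} := by
  have h1 : ∀ x ∈ Subgroup.closure {(ga i : F g n), gb i},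
      θ x ∈ Subgroup.closure {(ga i : F g n), gb i} := by
    intro x hx
    have : θ x ∈ (Subgroup.closure {(ga i : F g n), gb i}).map θ.toMonoidHom := ⟨x, hx, rfl⟩
    rwa [hθ.map] at this
  exact ⟨h1 _ (Subgroup.subset_closure (by simp)), h1 _ (Subgroup.subset_closure (by simp))⟩

private theorem Prp_gen {g n : ℕ} {i : Fin g} {θ : MulAut (F g n)} (hθ : Ih i θ) :
    Subgroup.closure {(ga i : F g n), gb i} = Subgroup.closure {θ (ga i), θ (gb i)} := by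
  conv_lhs => rw [← hθ.map]
  rw [MonoidHom.map_closure, Set.image_pair]
  rfl

/-- equality of the groups of values -/
private theorem Prp_oc {A : Type} [CommGroup A] {x y x' y' : A}
    (h1 : x ∈ Subgroup.closure {x', y'}) (h2 : y ∈ Subgroup.closure {x', y'})
    (h3 : x' ∈ Subgroup.closure {x, y}) (h4 : y' ∈ Subgroup.closure {x, y}) :
    oc x y = oc x' y' := by
  have : Subgroup.closure {x, y} = Subgroup.closure {x', y'} := by
    apply le_antisymm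
    · rw [Subgroup.closure_le]
      rintro z (rfl | rfl)
      · exact h1
      · exact h2
    · rw [Subgroup.closure_le]
      rintro z (rfl | rfl)
      · exact h3
      · exact h4
  unfold oc
  rw [this]

private theorem Prp_cl {A : Type} [CommGroup A] {x y : A} :
    x ∈ Subgroup.closure {x, y} ∧ y ∈ Subgroup.closure {x, y} :=
  ⟨Subgroup.subset_closure (by simp), Subgroup.subset_closure (by simp)⟩

theorem thm_Prp : St_Prp := by
  intro hExt hMov hEuk hHnd hFrm hTwo hTrn h n A _ _ _ H f hidx hlog hMu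
  obtain ⟨φ, hφ, m, hMx, ha0, hb0, hoc, htr⟩ :=
    hTrn hExt hMov hEuk hHnd hFrm H f hidx hlog hMu
  obtain ⟨-, hE2, -, -, hE5, -, -, -⟩ := hExt (h := h + 2) (n := n)
  have hE6 : (H.comap φ.toMonoidHom).index = H.index :=
    (hExt (h := h + 3) (n := n)).2.2.2.2.2.1 H φ
  obtain ⟨hK0, hKle⟩ := hE5 (H.comap φ.toMonoidHom) (by rw [hE6]; exact hidx)
  set K : Subgroup (F (h + 2) n) := (H.comap φ.toMonoidHom).comap (sh (h + 2) n) with hK
  have hKlog : 340 * (Nat.log 2 K.index + 1) ≤ h + 1 + 1 := by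
    have h1 : Nat.log 2 K.index ≤ Nat.log 2 H.index := by
      apply Nat.log_mono_right
      rw [← hE6]
      exact hKle
    omega
  obtain ⟨θ, hθ, hθa, hθb, hθt⟩ := hHnd (h := h + 1) K hK0 hKlog
  obtain ⟨Θ, hΘ, hΘa, hΘb, hΘs⟩ := hE2 θ hθ
  have e01 : (0 : Fin (h + 3)) ≠ 1 := by
    intro h1
    have := congrArg Fin.val h1
    simp at this
  have s1 : (0 : Fin (h + 2)).succ = (1 : Fin (h + 3)) := rfl
  -- first frame
  set φ1 : MulAut (F (h + 3) n) := φ * Θ with hφ1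
  have hφ1M : φ1 ∈ MCG (h + 3) n := (MCG _ _).mul_mem hφ hΘ.1
  have h1a0 : φ1 (ga 0) ∈ H := by
    rw [hφ1, MulAut.mul_apply, hΘa]
    exact ha0
  have h1b0 : φ1 (gb 0) ∈ H := by
    rw [hφ1, MulAut.mul_apply, hΘb]
    exact hb0
  have h1a1 : φ1 (ga 1) ∈ H := by
    have e : (ga 1 : F (h + 3) n) = sh (h + 2) n (ga 0) := by rw [Prp_sha, s1]
    rw [hφ1, MulAut.mul_apply, e, hΘs]
    exact hθa
  have h1b1 : φ1 (gb 1) ∈ H := by
    have e : (gb 1 : F (h + 3) n) = sh (h + 2) n (gb 0) := by rw [Prp_shb, s1]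
    rw [hφ1, MulAut.mul_apply, e, hΘs]
    exact hθb
  have h1oc : oc (f (φ1 (ga 0))) (f (φ1 (gb 0))) = m := by
    rw [hφ1, MulAut.mul_apply, MulAut.mul_apply, hΘa, hΘb]
    exact hoc
  have h1t : ∀ x : F (h + 3) n, ∃ y ∈ Pl φ1 2, y⁻¹ * x ∈ H := by
    intro x
    obtain ⟨y0, hy0⟩ := htr x
    obtain ⟨y1, hy1, hy1K⟩ := hθt y0
    refine ⟨φ (sh (h + 2) n y1), ?_, ?_⟩
    · have hle : Pl θ 1 ≤ (Pl φ1 2).comap (φ.toMonoidHom.comp (sh (h + 2) n)) := by
        unfold Pl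
        rw [Subgroup.closure_le]
        rintro z ⟨i, hi, rfl | rfl⟩
        · show φ (sh (h + 2) n (θ (ga i))) ∈ Pl φ1 2
          rw [← hΘs, Prp_sha]
          apply Subgroup.subset_closure
          refine ⟨i.succ, ?_, Or.inl rfl⟩
          rw [Fin.val_succ]
          omega
        · show φ (sh (h + 2) n (θ (gb i))) ∈ Pl φ1 2
          rw [← hΘs, Prp_shb]
          apply Subgroup.subset_closure
          refine ⟨i.succ, ?_, Or.inr rfl⟩
          rw [Fin.val_succ]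
          omega
      exact hle hy1
    · have h2 : φ (sh (h + 2) n (y1⁻¹ * y0)) ∈ H := hy1K
      have h3 := H.mul_mem h2 hy0
      rw [map_mul, map_mul, map_inv, map_inv] at h3
      have e : (φ (sh (h + 2) n y1))⁻¹ * φ (sh (h + 2) n y0) * ((φ (sh (h + 2) n y0))⁻¹ * x) =
          (φ (sh (h + 2) n y1))⁻¹ * x := by group
      rwa [e] at h3
  -- the values of the handle `1`
  obtain ⟨F1, F2, -, -, -, -⟩ := hFrm H f hMu
  have hMu1 := F1 φ1
  have hMx1 := F2 m hMx φ1 hφ1M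
  have hv := hTwo hMov hEuk hFrm (h := h + 1) (H.comap φ1.toMonoidHom) (fun x => f (φ1 x)) m
    hMu1 hMx1 h1a0 h1b0 h1a1 h1b1 h1oc
  obtain ⟨hva, hvb⟩ := hv
  have hva' : f (φ1 (ga 1)) ∈ Subgroup.closure {f (φ1 (ga 0)), f (φ1 (gb 0))} := hva
  have hvb' : f (φ1 (gb 1)) ∈ Subgroup.closure {f (φ1 (ga 0)), f (φ1 (gb 0))} := hvb
  obtain ⟨-, -, -, -, -, G1, G2, G3⟩ := hFrm (H.comap φ1.toMonoidHom) (fun x => f (φ1 x)) hMu1
  -- Euclid in both handles
  obtain ⟨ζ, hζ⟩ := IsCyclic.exists_generator (α := A)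
  have cl0 : ∀ x ∈ Subgroup.closure {(ga 0 : F (h + 3) n), gb 0}, x ∈ H.comap φ1.toMonoidHom := by
    intro x hx
    have : Subgroup.closure {(ga 0 : F (h + 3) n), gb 0} ≤ H.comap φ1.toMonoidHom := by
      rw [Subgroup.closure_le]
      rintro y (rfl | rfl)
      · exact h1a0
      · exact h1b0
    exact this hx
  have cl1 : ∀ x ∈ Subgroup.closure {(ga 1 : F (h + 3) n), gb 1}, x ∈ H.comap φ1.toMonoidHom := by
    intro x hx
    have : Subgroup.closure {(ga 1 : F (h + 3) n), gb 1} ≤ H.comap φ1.toMonoidHom := by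
      rw [Subgroup.closure_le]
      rintro y (rfl | rfl)
      · exact h1a1
      · exact h1b1
    exact this hx
  obtain ⟨k0, hk0⟩ := Subgroup.mem_zpowers_iff.mp (hζ (f (φ1 (ga 0))))
  obtain ⟨l0, hl0⟩ := Subgroup.mem_zpowers_iff.mp (hζ (f (φ1 (gb 0))))
  obtain ⟨k1, hk1⟩ := Subgroup.mem_zpowers_iff.mp (hζ (f (φ1 (ga 1))))
  obtain ⟨l1, hl1⟩ := Subgroup.mem_zpowers_iff.mp (hζ (f (φ1 (gb 1))))
  obtain ⟨⟨θ0, hθ0, hθ0v⟩, -⟩ := hEuk (0 : Fin (h + 3)) (fun x => f (φ1 x)) ζ k0 l0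
    (fun x hx y hy => hMu1 x (cl0 x hx) y (cl0 y hy)) hk0.symm hl0.symm
  obtain ⟨-, θ1, hθ1, hθ1v⟩ := hEuk (1 : Fin (h + 3)) (fun x => f (φ1 x)) ζ k1 l1
    (fun x hx y hy => hMu1 x (cl1 x hx) y (cl1 y hy)) hk1.symm hl1.symm
  have hθ0v' : f (φ1 (θ0 (gb 0))) = 1 := hθ0v
  have hθ1v' : f (φ1 (θ1 (ga 1))) = 1 := hθ1v
  set φ2 : MulAut (F (h + 3) n) := φ1 * (θ0 * θ1) with hφ2
  have hφ2M : φ2 ∈ MCG (h + 3) n := (MCG _ _).mul_mem hφ1M ((MCG _ _).mul_mem hθ0.mem.1 hθ1.mem.1)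
  have v2 : ∀ x, φ2 x = φ1 (θ0 (θ1 x)) := fun x => rfl
  have v2a0 : φ2 (ga 0) = φ1 (θ0 (ga 0)) := by
    rw [v2, (hθ1.out 0 e01).1]
  have v2b0 : φ2 (gb 0) = φ1 (θ0 (gb 0)) := by
    rw [v2, (hθ1.out 0 e01).2]
  have v2a1 : φ2 (ga 1) = φ1 (θ1 (ga 1)) := by
    rw [v2, Prp_fix e01.symm hθ0 (Prp_mem hθ1).1]
  have v2b1 : φ2 (gb 1) = φ1 (θ1 (gb 1)) := by
    rw [v2, Prp_fix e01.symm hθ0 (Prp_mem hθ1).2]
  have m2a0 : φ2 (ga 0) ∈ H := by
    rw [v2a0]
    exact cl0 _ (Prp_mem hθ0).1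
  have m2b0 : φ2 (gb 0) ∈ H := by
    rw [v2b0]
    exact cl0 _ (Prp_mem hθ0).2
  have m2a1 : φ2 (ga 1) ∈ H := by
    rw [v2a1]
    exact cl1 _ (Prp_mem hθ1).1
  have m2b1 : φ2 (gb 1) ∈ H := by
    rw [v2b1]
    exact cl1 _ (Prp_mem hθ1).2
  have f2b0 : f (φ2 (gb 0)) = 1 := by rw [v2b0, hθ0v']
  have f2a1 : f (φ2 (ga 1)) = 1 := by rw [v2a1, hθ1v']
  set α : A := f (φ2 (ga 0)) with hα
  set γ : A := f (φ2 (gb 1)) with hγ
  have im0 : (fun x : F (h + 3) n => f (φ1 x)) '' {(ga 0 : F (h + 3) n), gb 0} =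
      {f (φ1 (ga 0)), f (φ1 (gb 0))} := Set.image_pair _ _ _
  -- the group of values is generated by `α`
  have hα1 : α ∈ Subgroup.closure {f (φ1 (ga 0)), f (φ1 (gb 0))} := by
    have := G3 {(ga 0 : F (h + 3) n), gb 0} (fun x hx => cl0 x (Subgroup.subset_closure hx)) _
      (Prp_mem hθ0).1
    rw [im0] at this
    rw [hα, v2a0]
    exact this
  have hval : ∀ x ∈ Subgroup.closure {(ga 0 : F (h + 3) n), gb 0},
      f (φ1 x) ∈ Subgroup.closure {α, (1 : A)} := by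
    intro x hx
    rw [Prp_gen hθ0] at hx
    have := G3 {θ0 (ga 0), θ0 (gb 0)} (by
      rintro y (rfl | rfl)
      · exact cl0 _ (Prp_mem hθ0).1
      · exact cl0 _ (Prp_mem hθ0).2) x hx
    rw [Set.image_pair] at this
    rw [hα, v2a0, ← hθ0v']
    exact this
  have hα2 : Subgroup.closure {f (φ1 (ga 0)), f (φ1 (gb 0))} ≤ Subgroup.closure {α, (1 : A)} := by
    rw [Subgroup.closure_le]
    rintro y (rfl | rfl)
    · exact hval _ (Subgroup.subset_closure (by simp))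
    · exact hval _ (Subgroup.subset_closure (by simp))
  have hγ1 : γ ∈ Subgroup.closure {α, (1 : A)} := by
    apply hα2
    have h5 := G3 {(ga 1 : F (h + 3) n), gb 1} (fun x hx => cl1 x (Subgroup.subset_closure hx)) _
      (Prp_mem hθ1).2
    rw [Set.image_pair] at h5
    have hle : Subgroup.closure {f (φ1 (ga 1)), f (φ1 (gb 1))} ≤
        Subgroup.closure {f (φ1 (ga 0)), f (φ1 (gb 0))} := by
      rw [Subgroup.closure_le]
      rintro y (rfl | rfl)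
      · exact hva'
      · exact hvb'
    rw [hγ, v2b1]
    exact hle h5
  have hle1 : ∀ y : A, Subgroup.closure {α, (1 : A)} ≤ Subgroup.closure {α, y} := by
    intro y
    rw [Subgroup.closure_le]
    rintro z (rfl | rfl)
    · exact Prp_cl.1
    · exact (Subgroup.closure {α, y}).one_mem
  have hoc2 : ∀ y ∈ Subgroup.closure {α, (1 : A)}, oc α y = m := by
    intro y hy
    rw [← h1oc]
    apply Prp_oc
    · exact hα1
    · have hle2 : Subgroup.closure {α, (1 : A)} ≤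
          Subgroup.closure {f (φ1 (ga 0)), f (φ1 (gb 0))} := by
        rw [Subgroup.closure_le]
        rintro z (rfl | rfl)
        · exact hα1
        · exact (Subgroup.closure _).one_mem
      exact hle2 hy
    · exact hle1 y (hα2 Prp_cl.1)
    · exact hle1 y (hα2 Prp_cl.2)
  -- the slide
  obtain ⟨σ, hσ, σa0, σb0, σa1, σb1, σo, -⟩ := (hMov (g := h + 3) (n := n)).2.2.1 0 1 (by simp)
  have hinv : ∀ x ∈ H, f x⁻¹ = (f x)⁻¹ := by
    obtain ⟨-, -, -, -, -, -, I2, -⟩ := hFrm H f hMu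
    exact I2
  set φ3 : MulAut (F (h + 3) n) := φ2 * σ with hφ3
  have v3 : ∀ x, φ3 x = φ2 (σ x) := fun x => rfl
  have w0 : φ3 (ga 0) = φ2 (ga 0) := by rw [v3, σa0]
  have w1 : φ3 (gb 0) = φ2 (gb 1) * φ2 (gb 0) := by
    rw [v3, σb0, map_mul]
  have w2 : φ3 (ga 1) = φ2 (gb 1) * φ2 (gb 0) * φ2 (ga 0) * (φ2 (gb 0))⁻¹ * (φ2 (ga 1))⁻¹ *
      (φ2 (gb 1))⁻¹ := by
    rw [v3, σa1]
    simp only [map_mul, map_inv]
  have w3 : φ3 (gb 1) = φ2 (gb 1) * φ2 (ga 1) * (φ2 (gb 1))⁻¹ * (φ2 (ga 1))⁻¹ *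
      (φ2 (gb 1))⁻¹ := by
    rw [v3, σb1]
    simp only [map_mul, map_inv]
  refine ⟨φ3, (MCG _ _).mul_mem hφ2M hσ.1, m, hMx, ?_, ?_, ?_, ?_, ?_, ?_, ?_⟩
  · rw [w0]
    exact m2a0
  · rw [w1]
    exact H.mul_mem m2b1 m2b0
  · rw [w2]
    exact H.mul_mem (H.mul_mem (H.mul_mem (H.mul_mem (H.mul_mem m2b1 m2b0) m2a0)
      (H.inv_mem m2b0)) (H.inv_mem m2a1)) (H.inv_mem m2b1)
  · rw [w3]
    exact H.mul_mem (H.mul_mem (H.mul_mem (H.mul_mem m2b1 m2a1) (H.inv_mem m2b1))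
      (H.inv_mem m2a1)) (H.inv_mem m2b1)
  · rw [w0, w1, hMu _ m2b1 _ m2b0, f2b0, mul_one]
    exact hoc2 _ hγ1
  · have e2 : f (φ3 (ga 1)) = α := by
      rw [w2, hMu _ (H.mul_mem (H.mul_mem (H.mul_mem (H.mul_mem m2b1 m2b0) m2a0)
        (H.inv_mem m2b0)) (H.inv_mem m2a1)) _ (H.inv_mem m2b1),
        hMu _ (H.mul_mem (H.mul_mem (H.mul_mem m2b1 m2b0) m2a0) (H.inv_mem m2b0)) _
          (H.inv_mem m2a1),
        hMu _ (H.mul_mem (H.mul_mem m2b1 m2b0) m2a0) _ (H.inv_mem m2b0),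
        hMu _ (H.mul_mem m2b1 m2b0) _ m2a0, hMu _ m2b1 _ m2b0, hinv _ m2b0, hinv _ m2a1,
        hinv _ m2b1, f2b0, f2a1]
      simp only [mul_one, inv_one]
      rw [mul_comm γ, mul_inv_cancel_right]
    have e3 : f (φ3 (gb 1)) = γ⁻¹ := by
      rw [w3, hMu _ (H.mul_mem (H.mul_mem (H.mul_mem m2b1 m2a1) (H.inv_mem m2b1))
        (H.inv_mem m2a1)) _ (H.inv_mem m2b1),
        hMu _ (H.mul_mem (H.mul_mem m2b1 m2a1) (H.inv_mem m2b1)) _ (H.inv_mem m2a1),
        hMu _ (H.mul_mem m2b1 m2a1) _ (H.inv_mem m2b1), hMu _ m2b1 _ m2a1, hinv _ m2a1,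
        hinv _ m2b1, f2a1]
      simp only [mul_one, inv_one, mul_inv_cancel, one_mul]
      rfl
    rw [e2, e3]
    exact hoc2 _ ((Subgroup.closure _).inv_mem hγ1)
  · intro x
    obtain ⟨y, hy, hyx⟩ := h1t x
    refine ⟨y, ?_, hyx⟩
    have hle : Pl φ1 2 ≤ Pl φ3 2 := by
      unfold Pl
      rw [Subgroup.closure_le]
      rintro z ⟨i, hi, hz⟩
      apply Subgroup.subset_closure
      have hi0 : i ≠ 0 := by
        rintro rfl
        simp at hi
      have hi1 : i ≠ 1 := by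
        rintro rfl
        simp at hi
      refine ⟨i, hi, ?_⟩
      have ea : φ3 (ga i) = φ1 (ga i) := by
        rw [v3, (σo i hi0 hi1).1, v2, (hθ1.out i hi1).1, (hθ0.out i hi0).1]
      have eb : φ3 (gb i) = φ1 (gb i) := by
        rw [v3, (σo i hi0 hi1).2, v2, (hθ1.out i hi1).2, (hθ0.out i hi0).2]
      rw [ea, eb]
      exact hz
    exact hle hy

end Pool.Agent.PWG
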