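import Pool.Agent.PWG.Defs

/-!
# Campaign PWG: statements (eigenlines), on top of campaign PWE (helper41)

Every `St_XXX` is proved in its own file `PWG/XXX.lean` as `thm_XXX : St_XXX` (hypotheses of the form `St_YYY →` are allowed:
`thm_XXX : St_YYY → St_XXX`).  Change of the frame: for `φ ∈ MCG` replace `(H, f)` by `(H.comap φ, f ∘ φ)`.

Idea.  `H` of index `d ≤ exp (c g)`, `f : H → A` (cyclic).  (1) A subgroup of index `d` is generated by simple curves based at the boundary (`St_Bsd`) and contains a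
handle, such that the other handles are transitive (`St_Hnd`).  (2) Take a handle in `H` with the largest group of values `A₀`; every based curve in `H` disjoint
from it has its value in `A₀` (`St_Sml`: slide a third handle over it); the handles and the complement can be made transitive (`St_Trn`, `St_Prp`).
(3) `U` = group generated by the handle and by the simple curves in the kernel; the complement of the handle meets `H` in `U` (`St_Fng`), and with two such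
handles `H = U` (`St_Fin`), so the kernel is generated by simple curves (`St_Ker`).

`open scoped Classical` is in force everywhere.
-/

set_option autoImplicit false

namespace Pool.Agent.PWG

open Pool.Agent.PW Pool.Agent.PWM Pool.Agent.PWB Pool.Agent.PWX Pool.Agent.PWF Pool.Agent.PWL
  Pool.Agent.PWY Pool.Agent.PWE
open scoped Classical

/-! ### Part A: surfaces -/

/-- (Ext) The shift.  Proof.  (1) `List.ofFn_succ`, `map_list_prod`.  (2) `Φ` by `FreeGroup.lift` (and `mkAut` of PW/Autos with the same construction for `φ⁻¹`); (1) gives `Φ (bdry) = bdry`; `Φ (gc j) = sh (φ (gc j))` is conjugate to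
`sh (gc j) = gc j` (for `c j` of `F (h + 1) n`).  (3) `φ (bdry) = u * bdry * u⁻¹`; `t = u⁻¹`, `ψ = MulAut.conj t * φ`.  (4) generators (`FreeGroup.closure_range_of`; `Fin.cases`).
(5) index of a comap under a homomorphism (`Subgroup.index_comap`, `relIndex_le...`): cosets of the comap inject into the cosets of `H`. (6) `Sm`, `Sb` are invariant. -/
def St_Ext : Prop := ∀ {h n : ℕ},
  (bdry (h + 1) n = (ga 0 * gb 0 * (ga 0)⁻¹ * (gb 0)⁻¹ : F (h + 1) n) * sh h n (bdry h n)) ∧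
  (∀ φ ∈ MB h n, ∃ Φ ∈ MB (h + 1) n, Φ (ga 0) = ga 0 ∧ Φ (gb 0) = gb 0 ∧
    ∀ x, Φ (sh h n x) = sh h n (φ x)) ∧
  (∀ φ ∈ MCG h n, ∃ (t : F h n) (ψ : MulAut (F h n)), ψ ∈ MB h n ∧ ∀ x, ψ x = t * φ x * t⁻¹) ∧
  (∀ E : Subgroup (F (h + 1) n), ga 0 ∈ E → gb 0 ∈ E → (∀ x, sh h n x ∈ E) → E = ⊤) ∧
  (∀ H : Subgroup (F (h + 1) n), H.index ≠ 0 →
    (H.comap (sh h n)).index ≠ 0 ∧ (H.comap (sh h n)).index ≤ H.index) ∧
  (∀ (H : Subgroup (F h n)) (φ : MulAut (F h n)), (H.comap φ.toMonoidHom).index = H.index) ∧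
  (∀ φ ∈ MCG h n, ∀ x : F h n, Sm x → Sm (φ x)) ∧
  ∀ φ ∈ MB h n, ∀ x : F h n, Sb x → Sb (φ x)

/-- (Reb) The moves on lists are realised by mapping classes which fix the boundary word and the letters `gc j`.
Proof.  As `PWX.st_Real` (PWX/Real) and `PWF.thm_Rea` (PWF/Rea); the mapping classes used there are `(Sw i j h)⁻¹`, `(rr i)⁻¹`, `Sl i j h`, and they fix `bdry g n` (`Sw_bdry`, `e1_bdry`, `e2_bdry`, `ph_bdry`) and all `gc j`. -/
def St_Reb : Prop := ∀ {Q : Type} [Group Q] {g n m k : ℕ} (ρ : F g n →* Q) (l' : List (Q × Q)),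
  m + k ≤ g → LG (lst ρ m k) l' → ∃ φ ∈ MB g n,
    lst (ρ.comp (MulEquiv.toMonoidHom φ)) m k = l' ∧
    (∀ l, l < m ∨ m + k ≤ l → vls (ρ.comp (MulEquiv.toMonoidHom φ)) l = vls ρ l) ∧
    ∀ j, φ (gc j) = gc j

/-- (Mov) Explicit mapping classes: (1) handle `i` becomes handle `0`; (2) exchange of `i`, `j = i + 1`: `(Sw i j h)⁻¹`; (3) the slide; (4) the rotation `(rr i)⁻¹`; (5) the twist `e1 i k`.
Proof.  (1) and (3): `St_Reb` for `ρ = MonoidHom.id _` with `eFrt` (1) (`P` = the first `i` handles), respectively (2), `m = i`, `k = 2`; the formulas for `mg`: `tv (rt (rt q)) = q.2⁻¹` (`tv_rt2`).  (2), (4), (5): PWM/Swp, PWM/Rot. -/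
def St_Mov : Prop := ∀ {g n : ℕ},
  (∀ z i : Fin g, (z : ℕ) = 0 → ∃ θ ∈ MB g n, θ (ga z) = ga i ∧ θ (gb z) = gb i) ∧
  (∀ i j : Fin g, (j : ℕ) = i + 1 → ∃ θ ∈ MB g n, θ (ga i) = ga j ∧ θ (gb i) = gb j ∧
    θ (ga j) = (dl j)⁻¹ * ga i * dl j ∧ θ (gb j) = (dl j)⁻¹ * gb i * dl j ∧
    (∀ l, l ≠ i → l ≠ j → θ (ga l) = ga l ∧ θ (gb l) = gb l) ∧ ∀ l, θ (gc l) = gc l) ∧
  (∀ i j : Fin g, (j : ℕ) = i + 1 → ∃ θ ∈ MB g n, θ (ga i) = ga i ∧ θ (gb i) = gb j * gb i ∧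
    θ (ga j) = gb j * gb i * ga i * (gb i)⁻¹ * (ga j)⁻¹ * (gb j)⁻¹ ∧
    θ (gb j) = gb j * ga j * (gb j)⁻¹ * (ga j)⁻¹ * (gb j)⁻¹ ∧
    (∀ l, l ≠ i → l ≠ j → θ (ga l) = ga l ∧ θ (gb l) = gb l) ∧ ∀ l, θ (gc l) = gc l) ∧
  (∀ i : Fin g, ∃ θ ∈ MB g n, θ (ga i) = (gb i)⁻¹ ∧ θ (gb i) = gb i * ga i * (gb i)⁻¹ ∧
    (∀ l, l ≠ i → θ (ga l) = ga l ∧ θ (gb l) = gb l) ∧ ∀ l, θ (gc l) = gc l) ∧
  ∀ (i : Fin g) (k : ℤ), ∃ θ ∈ MB g n, θ (ga i) = ga i ∧ θ (gb i) = gb i * ga i ^ k ∧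
    (∀ l, l ≠ i → θ (ga l) = ga l ∧ θ (gb l) = gb l) ∧ ∀ l, θ (gc l) = gc l

/-- `θ` is a mapping class in the handle `i`. -/
structure Ih {g n : ℕ} (i : Fin g) (θ : MulAut (F g n)) : Prop where
  mem : θ ∈ MB g n
  out : ∀ l, l ≠ i → θ (ga l) = ga l ∧ θ (gb l) = gb l
  cc : ∀ l, θ (gc l) = gc l
  map : (Subgroup.closure {(ga i : F g n), gb i}).map θ.toMonoidHom = Subgroup.closure {ga i, gb i}

/-- (Euk) Euclid in one handle.  Proof.  By induction on `|β|` (for all `f`, `α`): `β = 0`: `θ = 1`.  Otherwise compose with the twist `e2 i k` or the rotation to replace `(α, β)` by `(α mod β, β)` and then exchange the two (the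
rotation maps the exponents `(α, β)` of `(f (ga i), f (gb i))` to `(-β, α)`); `f` is replaced by `f ∘ θ₁`, which is multiplicative on the closure by `Ih.map`.  The second claim: compose with the rotation once more (`θ (ga i) = (θ' (gb i))⁻¹`). -/
def St_Euk : Prop := ∀ {g n : ℕ} (i : Fin g) {A : Type} [CommGroup A] (f : F g n → A) (ζ : A)
  (α β : ℤ), Mu (Subgroup.closure {(ga i : F g n), gb i}) f → f (ga i) = ζ ^ α → f (gb i) = ζ ^ β →
  (∃ θ, Ih i θ ∧ f (θ (gb i)) = 1) ∧ ∃ θ, Ih i θ ∧ f (θ (ga i)) = 1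

/-! ### Part B: subgroups of small index -/

/-- The block `t` (of `k` letters `gb j`). -/
def bk (g n k t : ℕ) : List (F g n) := ((gbl g n).drop (1 + t * k)).take k

/-- The products of the letters of the list `l` join all the pairs of cosets of `K`. -/
def Jf {g n : ℕ} (K : Subgroup (F g n)) (l : List (F g n)) : Prop :=
  ∀ w w' : F g n, ∃ x ∈ Ds (⊤ : Subgroup (F g n)) l, w'⁻¹ * (x * w) ∈ K

/-- (Blo) Three blocks.  Proof.  As in the proof of `PWE.St_Deg`: `St_Red`, `St_Pos`, `PWH.bRea` give `φ ∈ MCG g n` such that the three blocks of `lst ((pK K).comp φ) 0 g` satisfy `Jn`; `k = 64 l`, `l = Nat.log 2 K.index + 1`.  `St_Ext` (3): replace `φ` by `ψ = t φ t⁻¹`;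
the action of `ψ x` on the cosets is that of `φ x` conjugated by `t`, so `Jn` holds for `ψ` too.  `Jn` for `lst ((pK K).comp ψ)` means `Jf (K.comap ψ)` for the letters `gb j` (`St_Dsp` (3); `x • (w K) = w' K`; `ψ` is onto). -/
def St_Blo : Prop := ∀ {g n : ℕ} (K : Subgroup (F g n)), K.index ≠ 0 →
  340 * (Nat.log 2 K.index + 1) ≤ g → ∃ (k : ℕ) (φ : MulAut (F g n)), 1 ≤ k ∧ 1 + 3 * k ≤ g ∧
    φ ∈ MB g n ∧ ∀ t, t < 3 → Jf (K.comap φ.toMonoidHom) (bk g n k t)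

/-- (Prd) Products of the letters of a list which is reached by the moves are simple and based at the boundary.
Proof.  `St_Reb` for `ρ = MonoidHom.id _`, `m = 0`, `k = g`: `θ ∈ MB g n`, `L'.map Prod.snd` is the list of the `θ (gb j)`; `St_Dsp` (3) (PWE/StB): `x = θ y`, `y ∈ Ds ⊤ (gbl g n)`.  For `y`: the proof of `PWE.St_Sm0` with `St_Reb` instead of `bRea`. -/
def St_Prd : Prop := ∀ {g n : ℕ} (L' : List (F g n × F g n)),
  LG (lst (MonoidHom.id (F g n)) 0 g) L' →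
  ∀ x ∈ Ds (⊤ : Subgroup (F g n)) (L'.map Prod.snd), x = 1 ∨ Sb x

/-- The group generated by the based simple curves in `K`. -/
def Lb {g n : ℕ} (K : Subgroup (F g n)) : Subgroup (F g n) := Subgroup.closure {x | x ∈ K ∧ Sb x}

/-- The section `T` over the cosets of `K`. -/
def TT {g n : ℕ} (K : Subgroup (F g n)) (k : ℕ) : Set (F g n) :=
  {t | ∃ x ∈ Ds (⊤ : Subgroup (F g n)) (bk g n k 0), x⁻¹ * t ∈ Lb K}

/-- The stabiliser of the section. -/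
def EE {g n : ℕ} (K : Subgroup (F g n)) (k : ℕ) : Subgroup (F g n) where
  carrier := {y | ∀ t, y * t ∈ TT K k ↔ t ∈ TT K k}
  one_mem' := fun t => by rw [one_mul]
  mul_mem' := fun {x y} hx hy t => by rw [mul_assoc, hx, hy]
  inv_mem' := fun {x} hx t => by rw [← hx (x⁻¹ * t), mul_inv_cancel_left]

/-- (Tbs) Basic facts on the section.  Write `X t = Ds ⊤ (bk g n k t)`, `L = Lb K ≤ K`, `T = TT K k`.  For `i < j`, `x ∈ X i`, `a ∈ X j`: `a * x ∈ Ds ⊤ (gbl g n)` (`St_Dsp`), so `a * x ∈ K` implies `a * x ∈ L` (`St_Prd` for `L' = lst id`).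
(1) `Jf` for the block 0.  (2) `t = x l`, `t' = x' l'`; `a ∈ X 1` with `a * t ∈ K`: `a * x, a * x' ∈ K`, so in `L`; `x⁻¹ x' = (a x)⁻¹ (a x')`.  (3) `a ∈ X 1` or `X 2`: `x ∈ X 0` with `a * x ∈ K`, so `a * x ∈ L`, `a⁻¹ = x * (a x)⁻¹`.
(4) `x ∈ X 1`, `x⁻¹ t ∈ K`, `t ∈ T`: `t = x₀ l`; `a ∈ X 2` with `a * x ∈ K`; `a * x ∈ L`, `a * x₀ ∈ L`, so `x⁻¹ t ∈ L`; existence of `x` by `Jf`.  (5) criterion: if `y t ∈ T` for all `t ∈ T` then `y ∈ EE`: for `y t ∈ T` take `t' ∈ T` with `t'⁻¹ t ∈ K` by (1);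
`y t' ∈ T`, `(y t')⁻¹ (y t) ∈ K`, so it is in `L` by (2), and `t = t' (t'⁻¹ t) ∈ T`. -/
def St_Tbs : Prop := ∀ {g n k : ℕ} (K : Subgroup (F g n)), 1 ≤ k → 1 + 3 * k ≤ g →
  (∀ t, t < 3 → Jf K (bk g n k t)) →
  (∀ w : F g n, ∃ t ∈ TT K k, w⁻¹ * t ∈ K) ∧
  (∀ t ∈ TT K k, ∀ t' ∈ TT K k, t⁻¹ * t' ∈ K → t⁻¹ * t' ∈ Lb K) ∧
  (∀ s, 1 ≤ s → s < 3 → ∀ a ∈ Ds (⊤ : Subgroup (F g n)) (bk g n k s), a⁻¹ ∈ TT K k) ∧
  (∀ t ∈ TT K k, ∃ x ∈ Ds (⊤ : Subgroup (F g n)) (bk g n k 1), x⁻¹ * t ∈ Lb K) ∧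
  (∀ y : F g n, (∀ t ∈ TT K k, y * t ∈ TT K k) → y ∈ EE K k) ∧
  ∀ (L' : List (F g n × F g n)), LG (lst (MonoidHom.id (F g n)) 0 g) L' →
    ∀ x ∈ Ds (⊤ : Subgroup (F g n)) (L'.map Prod.snd), x ∈ K → x ∈ Lb K

/-- (Emi) The letters of the handles between the blocks 0 and 2.  Proof.  `θ (a * gb i * x) = a * θ (gb i) * x` for `x ∈ X 0`, `a ∈ X 2` (these are products of letters `gb j`, `j ≠ i`); `a * gb i * x ∈ Ds ⊤ (gbl g n)`, so it is `1` or `Sb` (`St_Prd`), and so is its image under `θ ∈ MB`.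
For `t ∈ T`, `t = x l`, take `a ∈ X 2` with `a * θ (gb i) * x ∈ K`; it is in `Lb K`; `θ (gb i) * t = a⁻¹ * (a * θ (gb i) * x) * l ∈ T` (`St_Tbs` (3), `T L = T`).  `St_Tbs` (5). -/
def St_Emi : Prop := ∀ {g n k : ℕ} (K : Subgroup (F g n)), 1 ≤ k → 1 + 3 * k ≤ g →
  (∀ t, t < 3 → Jf K (bk g n k t)) → ∀ (i : Fin g) (θ : MulAut (F g n)), 1 + k ≤ (i : ℕ) →
  (i : ℕ) < 1 + 2 * k → θ ∈ MB g n → (∀ j, j ≠ i → θ (gb j) = gb j) → θ (gb i) ∈ EE K k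

/-- (Ele) The handles on the left.  Proof.  `p = (ga i, gb i)`, `B` the list of the handles `j` with `i < j < 1 + 2 k`, `A` those before `i`, `C` the rest.  `LG (p :: B) (B ++ [cj (Dp B)⁻¹ p])` (induction on `B`, swap of `bBas`), so
`L' = A ++ B ++ cj (Dp B)⁻¹ p :: C` is reached from the list of all handles (app).  `D = Dp B ∈ EE` by hypothesis.  For `t ∈ T` take `x ∈ X 1` with `x⁻¹ t ∈ L` (`St_Tbs` (4)), `a ∈ X 2` with `a * (D⁻¹ gb i D) * x ∈ K`; it is in `Ds ⊤ (L'.map Prod.snd)` (`X 1` comes from letters of `B`, `X 2` from letters of `C`), so in `Lb K`.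
So `D⁻¹ gb i D ∈ EE` (`St_Tbs` (3), (5)), and `gb i ∈ EE`.  The same with `rt p` instead of `p` (`LG [p] [rt p]`): `gb i * ga i * (gb i)⁻¹ ∈ EE`. -/
def St_Ele : Prop := ∀ {g n k : ℕ} (K : Subgroup (F g n)), 1 ≤ k → 1 + 3 * k ≤ g →
  (∀ t, t < 3 → Jf K (bk g n k t)) → ∀ i : Fin g, (i : ℕ) < 1 + k →
  (∀ j : Fin g, (i : ℕ) < j → (j : ℕ) < 1 + 2 * k → ga j ∈ EE K k ∧ gb j ∈ EE K k) →
  ga i ∈ EE K k ∧ gb i ∈ EE K k

/-- (Eri) The handles on the right.  Proof.  `q = (ga i, gb i)`, `A` the handles before `1 + k`, `B` the handles `j` with `1 + k ≤ j < i`, `C` the rest; `c = (dd q)⁻¹`.  `eFrt` (1) in context: `L' = A ++ q :: (B.map (cj c) ++ C)` is reached.  For `t = x l ∈ T`, `x ∈ X 0`,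
take `a ∈ X 1` with `(c a c⁻¹) * gb i * x ∈ K` (`Jf` with `w = c⁻¹ gb i x`, `w' = c⁻¹`); `c a c⁻¹` is a product of letters of `B.map (cj c)`.  So `c a c⁻¹ * gb i * x ∈ Lb K` (`St_Tbs` (6)), and `(c a c⁻¹)⁻¹ ∈ T`: take `x' ∈ X 0` with `c a c⁻¹ * x' ∈ K`, it is in `Lb K` for the same reason.
So `gb i ∈ EE`.  The same with `rt q` (`LG [q] [rt q]`, `dd (rt q) = dd q` up to the order: use the list with `rt q` at the place `i` and `c = (dd (rt q))⁻¹`). -/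
def St_Eri : Prop := ∀ {g n k : ℕ} (K : Subgroup (F g n)), 1 ≤ k → 1 + 3 * k ≤ g →
  (∀ t, t < 3 → Jf K (bk g n k t)) → ∀ i : Fin g, 1 + 2 * k ≤ (i : ℕ) →
  ga i ∈ EE K k ∧ gb i ∈ EE K k

/-- (Bsc) Proof.  Handles between `1 + k` and `2 k`: `St_Emi` with `θ = 1` and with the rotation (`St_Mov` (4)): `gb i`, `gb i * ga i * (gb i)⁻¹ ∈ EE`.  Handles `≥ 1 + 2 k`: `St_Eri`.  Handles `< 1 + k`: `St_Ele`, downward induction.  `gc j`, by strong induction on `j`: `St_Emi` for the handle `i = 1 + k` and `θ = qsh i j 1`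
(PW/Autos: `qh_bdry`, `qsh_mem`, `qh_b'`, `qh_bi`): `qw i j * gb i ∈ EE`, so `sc i j ∈ EE`, `sc i j = midc * gc j * midc⁻¹`, `midc g n i j = seg .. * cseg ..` a product of handles and of the `gc l`, `l < j`.  So `EE = ⊤`.  `1 ∈ T`; for `x ∈ K`: `x = x * 1 ∈ T`, so `1⁻¹ * x ∈ Lb K` by `St_Tbs` (2). -/
def St_Bsc : Prop := ∀ {g n k : ℕ} (K : Subgroup (F g n)), 1 ≤ k → 1 + 3 * k ≤ g →
  (∀ t, t < 3 → Jf K (bk g n k t)) → ∀ x ∈ K, x ∈ Lb K

/-- (Bsd) A subgroup of small index is generated by its based simple curves.  Proof.  `St_Blo`, `St_Bsc` for `K.comap φ`; `φ ∈ MB` maps `Lb (K.comap φ)` into `Lb K` (`St_Ext` (8)). -/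
def St_Bsd : Prop := ∀ {g n : ℕ} (K : Subgroup (F g n)), K.index ≠ 0 →
  340 * (Nat.log 2 K.index + 1) ≤ g → ∀ x ∈ K, x ∈ Lb K

/-- (Cuf) As `St_Cub` (PWL/St), with the first entry of the pair unchanged.  Proof.  The proof of PWL/Cub: `(mg p q).1 = (p.1, q.2 * p.2)`. -/
def St_Cuf : Prop := ∀ {G : Type} [Group G] (T P : List (G × G)) (p : G × G) (d : G),
  d ∈ Ds (⊤ : Subgroup G) (T.map Prod.snd) →
  ∃ (p' : G × G) (P' : List (G × G)), LG (p :: (P ++ T)) (p' :: P') ∧ p'.2 = d * p.2 ∧ p'.1 = p.1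

/-- (Hnd) A handle in `K`, such that the other handles are transitive on the cosets.
Proof.  `St_Blo`; it is enough to treat `K.comap φ` (`φ ∈ MB`; then take `φ * θ`), so `Jf K (bk t)`, `t < 3`.  The list of the first `1 + 2 k` handles is `p :: (B₀ ++ B₁)`, `B_t.map Prod.snd = bk t`.  `d ∈ Ds ⊤ (bk 0)` with `d * gb 0 ∈ K`; `St_Cuf`: `LG (p :: B₀) (p' :: P')`, `p'.2 = d * gb 0`.
Then `rt p' = (p'.2⁻¹, u)`; `d' ∈ Ds ⊤ (bk 1)` with `d' * u ∈ K`; `St_Cuf` for `rt p' :: (P' ++ B₁)`: `p'' :: P''`, `p''.1 = p'.2⁻¹ ∈ K`, `p''.2 = d' * u ∈ K`.  `St_Reb` (`m = 0`, `k := 1 + 2 k`): `θ ∈ MB`, `θ (ga 0) = p''.1`, `θ (gb 0) = p''.2`, `θ (gb j) = gb j` for `j ≥ 1 + 2 k`.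
So `Ds ⊤ (bk 2) ≤ Pl θ 1`; for `x` take `a ∈ Ds ⊤ (bk 2)` with `x⁻¹ * (a * 1) ∈ K`. -/
def St_Hnd : Prop := ∀ {h n : ℕ} (K : Subgroup (F (h + 1) n)), K.index ≠ 0 →
  340 * (Nat.log 2 K.index + 1) ≤ h + 1 → ∃ θ ∈ MB (h + 1) n, θ (ga 0) ∈ K ∧ θ (gb 0) ∈ K ∧
    ∀ x, ∃ y ∈ Pl θ 1, y⁻¹ * x ∈ K

end Pool.Agent.PWG
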