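import Pool.Agent.PWG.St
import Pool.Agent.PWI.Irr

/-!
# Campaign PWG: statements, second part

Every `St_XXX` is proved in its own file `PWG/XXX.lean` as `thm_XXX : St_XXX` (hypotheses of the form `St_YYY →` are allowed).
-/

set_option autoImplicit false

open scoped BigOperators

namespace Pool.Agent.PWG

open Pool.Agent.PW Pool.Agent.PWM Pool.Agent.PWB Pool.Agent.PWX Pool.Agent.PWF Pool.Agent.PWL
  Pool.Agent.PWY Pool.Agent.PWE
open scoped Classical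

/-- The group of values of the first handle. -/
def Va {h n : ℕ} {A : Type} [CommGroup A] (f : F (h + 1) n → A) : Subgroup A :=
  Subgroup.closure {f (ga 0), f (gb 0)}

/-- (Frm) Change of the frame.  Proof.  `Mu`, `Mx` clear (`φ * ψ ∈ MCG`); `Ls`: `φ` maps `{x | φ x ∈ H ∧ f (φ x) = 1 ∧ Sm x}` onto `{x | x ∈ H ∧ f x = 1 ∧ Sm x}` (`St_Ext` (7) for `φ` and `φ⁻¹`), `MonoidHom.map_closure`.
(4) normality in `H`: `y x y⁻¹` is simple if `x` is (inner automorphisms are in `MCG`), `f (y x y⁻¹) = 1`; closure induction. (5) `Ls ≤ H`, `f = 1` on `Ls`.  (6) `Mu` gives `f 1 = 1`, inverses, closures: the values of `f` on `closure S ≤ H` are in the closure of the values on `S`. -/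
def St_Frm : Prop := ∀ {g n : ℕ} {A : Type} [CommGroup A] (H : Subgroup (F g n)) (f : F g n → A),
  Mu H f →
  (∀ φ : MulAut (F g n), Mu (H.comap φ.toMonoidHom) fun x => f (φ x)) ∧
  (∀ m, Mx H f m → ∀ φ ∈ MCG g n, Mx (H.comap φ.toMonoidHom) (fun x => f (φ x)) m) ∧
  (∀ φ ∈ MCG g n, ∀ x, x ∈ Ls (H.comap φ.toMonoidHom) (fun x => f (φ x)) ↔ φ x ∈ Ls H f) ∧
  (∀ y ∈ H, ∀ x ∈ Ls H f, y * x * y⁻¹ ∈ Ls H f) ∧
  (∀ x ∈ Ls H f, x ∈ H ∧ f x = 1) ∧
  (f 1 = 1 ∧ (∀ x ∈ H, f x⁻¹ = (f x)⁻¹) ∧ ∀ (S : Set (F g n)), S ⊆ H → ∀ x ∈ Subgroup.closure S,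
    f x ∈ Subgroup.closure (f '' S))

/-- (Two) Two handles in `H`, the first one with the largest group of values.
Proof.  `A = ⟨ζ⟩`.  `St_Euk` for the handle `0` and `f`: `θ₀`, `f (θ₀ (gb 0)) = 1`; for the handle `1`: `θ₁`, `f (θ₁ (ga 1)) = 1` (both claims only use the two letters of the handle; `θ₀`, `θ₁` fix the letters of the other handle).  Frame `θ₀ * θ₁` (`Va` does not change: `Ih.map`, `St_Frm` (6)):
`f (gb 0) = 1`, `f (ga 1) = 1`, `α = f (ga 0)`, `γ = f (gb 1)`.  The slide `σ` (`St_Mov` (3)): `σ (ga 0) = ga 0`, `σ (gb 0) = gb 1 * gb 0` have the values `α, γ`.  `Mx`: `oc α γ ≤ m = oc α 1`, so the closures of `{α}` and `{α, γ}` are equal (finite), `γ ∈ Va`. -/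
def St_Two : Prop := St_Mov → St_Euk → St_Frm → ∀ {h n : ℕ} {A : Type} [CommGroup A] [Finite A]
  [IsCyclic A] (H : Subgroup (F (h + 2) n)) (f : F (h + 2) n → A) (m : ℕ), Mu H f → Mx H f m →
  ga 0 ∈ H → gb 0 ∈ H → ga 1 ∈ H → gb 1 ∈ H → oc (f (ga 0)) (f (gb 0)) = m →
  f (ga 1) ∈ Va f ∧ f (gb 1) ∈ Va f

/-- (Sml) The values of the simple curves in `H` which are disjoint from the first handle.
Proof.  Frame `ψ` (`ga 0`, `gb 0` are fixed): so `ψ = 1`, `gb 1 ∈ H`.  `K = H.comap (sh ∘ sh)`, a subgroup of `F (h + 1) n` of index `≤ H.index` (`St_Ext` (5) twice).  `St_Hnd`: `θ ∈ MB (h + 1) n` with `θ (ga 0), θ (gb 0) ∈ K`.  `St_Ext` (2) twice: `Θ ∈ MB (h + 3) n` fixes `ga 0, gb 0, ga 1, gb 1`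
and `Θ (ga 2), Θ (gb 2) ∈ H`.  Frame `Θ`: `ga 0, gb 0, gb 1, ga 2, gb 2 ∈ H`.  Exchange of the handles `1, 2` (`St_Mov` (2)): `θ (ga 1) = ga 2`, `θ (gb 1) = gb 2`; `St_Two` in this frame: `f (ga 2), f (gb 2) ∈ Va`.  Then the slide in this frame at the places `1, 2`
(`St_Mov` (3) for `i = 1`, `j = 2`): `θ σ (ga 1) = θ (ga 1) = ga 2`, `θ σ (gb 1) = θ (gb 2 * gb 1) = (dl 2)⁻¹ * gb 1 * dl 2 * gb 2`, with `dl 2 ∈ H`; `St_Two`: `f (gb 1) * f (gb 2) ∈ Va`. -/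
def St_Sml : Prop := St_Ext → St_Mov → St_Hnd → St_Frm → St_Two → ∀ {h n : ℕ} {A : Type}
  [CommGroup A] [Finite A] [IsCyclic A] (H : Subgroup (F (h + 3) n)) (f : F (h + 3) n → A) (m : ℕ),
  H.index ≠ 0 → 340 * (Nat.log 2 H.index + 1) ≤ h + 1 → Mu H f → Mx H f m →
  ga 0 ∈ H → gb 0 ∈ H → oc (f (ga 0)) (f (gb 0)) = m → ∀ ψ ∈ MCG (h + 3) n,
  ψ (ga 0) = ga 0 → ψ (gb 0) = gb 0 → ψ (gb 1) ∈ H → f (ψ (gb 1)) ∈ Va f

/-- (Trn) A handle in `H` with the largest group of values and a transitive complement.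
Proof.  For `φ ∈ MCG` with `φ (ga 0), φ (gb 0) ∈ H` (one exists by `St_Hnd` for `K = H`) let `u φ = oc (f (φ (ga 0))) (f (φ (gb 0))) ≤ |A|` and `r φ = ((H.comap φ).comap sh).index ≤ H.index` (`St_Ext` (5), (6)).  Choose `φ` with `u φ` maximal (`= m`) and among these with `r φ` maximal.  Frame `φ`: `φ = 1`.
Let `Ω₀` be the set of the cosets `x H`, `x ∈ range sh`; it has `r 1` elements.  Suppose some coset is not in `Ω₀`.  `St_Hnd` for `K = H.comap sh` in `F (h + 2) n` and `St_Ext` (2): frame `Θ` (fixes `ga 0, gb 0`, maps `range sh` to itself; `r`, `u` do not change): `ga 1, gb 1 ∈ H` and for every `x ∈ range sh` some `y ∈ Pl 1 2` has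
`y⁻¹ x ∈ H`.  `St_Euk` for the handle `1` (`θ₁`; it fixes the other letters, and `range sh` and `Pl 1 2` do not change): `f (gb 1) = 1`.  The subgroup of the `y` with `y Ω₀ = Ω₀` (stabiliser, `Ω₀` finite) contains `range sh`, and not all of `F` (`St_Ext` (4)), so `ga 0` or `gb 0` is not in it; so for the handle `0` or for its
rotation (`St_Mov` (4), change of the frame; `Va`, `range sh` do not change) `gb 0 * ga 0 * (gb 0)⁻¹` is not in it (if `b a b⁻¹` and, for the rotated handle, `(b a b⁻¹) b⁻¹ (b a b⁻¹)⁻¹` are in it, then `b` and `a` are).  So some `x₀ ∈ range sh` has `gb 0 * ga 0 * (gb 0)⁻¹ * x₀ H ∉ Ω₀` (finite set).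
Slide `σ` (`St_Mov` (3), `i = 0`, `j = 1`).  `σ (ga 0) = ga 0`, `σ (gb 0) = gb 1 * gb 0 ∈ H` with the value `f (gb 0)`: so `u σ = m`.  `σ` fixes the letters of the handles `≥ 2`, so the cosets of `y ∈ Pl 1 2`, that is all of `Ω₀`, are among the cosets of `σ (range sh)`.  Take `y ∈ Pl 1 2` with `y H = gb 1 * ga 1 * x₀ H`:
`σ (ga 1) y H = gb 1 * (gb 0 * ga 0 * (gb 0)⁻¹) * x₀ H ∉ Ω₀`.  So `r σ > r 1`: contradiction (the index of `(H.comap σ).comap sh` is the number of the cosets `σ (sh x) H`). -/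
def St_Trn : Prop := St_Ext → St_Mov → St_Euk → St_Hnd → St_Frm → ∀ {h n : ℕ} {A : Type}
  [CommGroup A] [Finite A] [IsCyclic A] (H : Subgroup (F (h + 3) n)) (f : F (h + 3) n → A),
  H.index ≠ 0 → 340 * (Nat.log 2 H.index + 1) ≤ h + 1 → Mu H f →
  ∃ φ ∈ MCG (h + 3) n, ∃ m : ℕ, Mx H f m ∧ φ (ga 0) ∈ H ∧ φ (gb 0) ∈ H ∧
    oc (f (φ (ga 0))) (f (φ (gb 0))) = m ∧
    ∀ x : F (h + 3) n, ∃ y : F (h + 2) n, (φ (sh (h + 2) n y))⁻¹ * x ∈ H

/-- (Prp) Two handles with the largest group of values, the other handles transitive.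
Proof.  `St_Trn`, frame `φ`.  `St_Hnd` for `H.comap sh` and `St_Ext` (2): frame `Θ`: `ga 1, gb 1 ∈ H`, and for every `x ∈ range sh` some `y ∈ Pl 1 2` has `y⁻¹ x ∈ H`, so this holds for every `x` (`St_Trn`, last claim; `Θ` maps `range sh` to itself).  `St_Two`: the values of the handle `1` are in `Va`.  `St_Euk` for the handle `0`: `f (gb 0) = 1`,
`α = f (ga 0)` generates `Va`; for the handle `1`, second claim: `f (ga 1) = 1`, `γ = f (gb 1) ∈ Va`; the letters of the handles `≥ 2` are fixed.  Slide `σ`: `σ (ga 0), σ (gb 0)` have the values `α, γ`; `σ (ga 1), σ (gb 1)` have the values `α, γ⁻¹`; both generate `Va`; `σ` fixes the letters of the handles `≥ 2`, so `Pl` does not change. -/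
def St_Prp : Prop := St_Ext → St_Mov → St_Euk → St_Hnd → St_Frm → St_Two → St_Trn →
  ∀ {h n : ℕ} {A : Type} [CommGroup A] [Finite A] [IsCyclic A] (H : Subgroup (F (h + 3) n))
  (f : F (h + 3) n → A), H.index ≠ 0 → 340 * (Nat.log 2 H.index + 1) ≤ h + 1 → Mu H f →
  ∃ φ ∈ MCG (h + 3) n, ∃ m : ℕ, Mx H f m ∧ φ (ga 0) ∈ H ∧ φ (gb 0) ∈ H ∧ φ (ga 1) ∈ H ∧
    φ (gb 1) ∈ H ∧ oc (f (φ (ga 0))) (f (φ (gb 0))) = m ∧ oc (f (φ (ga 1))) (f (φ (gb 1))) = m ∧
    ∀ x : F (h + 3) n, ∃ y ∈ Pl φ 2, y⁻¹ * x ∈ H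

/-- The group generated by the first handle and the simple curves in the kernel. -/
def Uu {h n : ℕ} {A : Type} [CommGroup A] (H : Subgroup (F (h + 1) n)) (f : F (h + 1) n → A) :
    Subgroup (F (h + 1) n) :=
  Subgroup.closure {ga 0, gb 0} ⊔ Ls H f

/-- (Ucl) A simple curve `z` in `H` which is disjoint from the first handle, with its value in `Va`, is in `Uu`.
Proof.  `St_Euk` for the handle `0`: `θ` with `f (θ (gb 0)) = 1`, so `f (θ (ga 0))` generates `Va` (`Ih.map`, `St_Frm` (6)); `f z = f (θ (ga 0)) ^ k`.  `e` the twist with exponent `-k` in the handle `0` (`St_Mov` (5)): `q = θ (e (gb 0)) = θ (gb 0) * θ (ga 0) ^ (-k)`, `f q = (f z)⁻¹`, `q ∈ closure {ga 0, gb 0}`, so `ψ q = q`.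
`z * q = ψ (θ (e (gb 1 * gb 0)))` (`θ`, `e` fix `gb 1`), and `gb 1 * gb 0` is simple (`St_Mov` (3) for the places `0, 1`), so `z * q` is simple, in `H`, with value `1`: it is in `Ls`.  `z = (z * q) * q⁻¹`. -/
def St_Ucl : Prop := St_Mov → St_Euk → St_Frm → ∀ {h n : ℕ} {A : Type} [CommGroup A] [Finite A]
  [IsCyclic A] (H : Subgroup (F (h + 2) n)) (f : F (h + 2) n → A), Mu H f →
  ga 0 ∈ H → gb 0 ∈ H → ∀ ψ ∈ MCG (h + 2) n, ψ (ga 0) = ga 0 → ψ (gb 0) = gb 0 →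
  ψ (gb 1) ∈ H → f (ψ (gb 1)) ∈ Va f → ψ (gb 1) ∈ Uu H f

/-- (Inh) The elements of the handle group in the kernel.
Proof.  `St_Euk`, frame `θ` (`Ih.map`; `St_Frm` (3)): `f (gb 0) = 1`, so `gb 0 ∈ Ls`.  `m = orderOf (f (ga 0))`: `gb 0 * ga 0 ^ m = e (gb 0)` (`St_Mov` (5)) is simple with value `1`, so it is in `Ls`, so `ga 0 ^ m ∈ Ls`.  Every `x ∈ closure {ga 0, gb 0}` is in `ga 0 ^ k * Ls` for some `k : ℤ` (closure induction, `St_Frm` (4)); if `f x = 1`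
then `f (ga 0) ^ k = 1`, `m ∣ k`, `ga 0 ^ k ∈ Ls`. -/
def St_Inh : Prop := St_Mov → St_Euk → St_Frm → ∀ {h n : ℕ} {A : Type} [CommGroup A] [Finite A]
  [IsCyclic A] (H : Subgroup (F (h + 1) n)) (f : F (h + 1) n → A), Mu H f →
  ga 0 ∈ H → gb 0 ∈ H → ∀ x ∈ Subgroup.closure {(ga 0 : F (h + 1) n), gb 0}, f x = 1 → x ∈ Ls H f

/-- (Fng) The complement of the first handle meets `H` in `Uu`.
Proof.  `K = H.comap sh`: index `≤ H.index`; `St_Bsd`: `x` is in the group generated by the `y = ψ (gb i) ∈ K`, `ψ ∈ MB (h + 2) n`; by `St_Mov` (1) `i = 0`.  `St_Ext` (2): `Ψ ∈ MB (h + 3) n` fixes `ga 0, gb 0`, `Ψ (gb 1) = Ψ (sh (gb 0)) = sh y ∈ H`.  `St_Sml`: the value is in `Va`; `St_Ucl`: `sh y ∈ Uu`. -/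
def St_Fng : Prop := St_Ext → St_Mov → St_Bsd → St_Sml → St_Ucl → ∀ {h n : ℕ} {A : Type}
  [CommGroup A] [Finite A] [IsCyclic A] (H : Subgroup (F (h + 3) n)) (f : F (h + 3) n → A) (m : ℕ),
  H.index ≠ 0 → 340 * (Nat.log 2 H.index + 1) ≤ h + 1 → Mu H f → Mx H f m →
  ga 0 ∈ H → gb 0 ∈ H → oc (f (ga 0)) (f (gb 0)) = m → ∀ x, sh (h + 2) n x ∈ H →
  sh (h + 2) n x ∈ Uu H f

/-- (Ker) The kernel of `f` is generated by simple curves.
Proof.  `St_Prp`, frame `φ` (`St_Frm` (3) for the claim).  `P = Pl 1 2`, `R = range sh`, `σ` the exchange of the handles `0, 1` (`St_Mov` (2)): `σ (ga 0) = ga 1`, `σ (gb 0) = gb 1`, `σ (ga 1) = c⁻¹ * ga 0 * c`, `σ (gb 1) = c⁻¹ * gb 0 * c`, `c = dl 1 ∈ closure {ga 1, gb 1}`.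
(i) `St_Fng`: `R ∩ H ≤ U₀ = Uu H f`.  (ii) `St_Fng` in the frame `σ` (the values of the first handle of this frame are those of the handle `1`): `σ R ∩ H ≤ U₁ = closure {ga 1, gb 1} ⊔ Ls H f`.  (iii) `ga 1, gb 1 ∈ R ∩ H`, so `U₁ ≤ U₀`; `c⁻¹ * ga 0 * c, c⁻¹ * gb 0 * c ∈ σ R ∩ H ≤ U₁` and `c ∈ U₁`, so `U₀ ≤ U₁`.
(iv) Let `E` be the set of the `x` with `x * y ∈ P * U₀` for all `y ∈ P`; it is closed under products.  For `x ∈ R`, `y ∈ P ≤ R`: `y' ∈ P` with `y'⁻¹ * (x * y) ∈ H`, it is in `R ∩ H ≤ U₀`; so `R ⊆ E`.  In the same way `σ R ⊆ E` (`P ≤ σ R`, `σ` fixes the letters of the handles `≥ 2`).  So `ga 0 = c * σ (ga 1) * c⁻¹ ∈ E`, its inverse, `gb 0` and its inverse too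
(`c ∈ R`), so `E` contains the group generated by `ga 0, gb 0, R`, which is everything (`St_Ext` (4); apply it to the subgroup of the `x` with `x, x⁻¹ ∈ E`).  (v) `x ∈ H`: `x = x * 1 = y * u`, `y = x * u⁻¹ ∈ P ∩ H ≤ U₀`.  So `H ≤ U₀`.  (vi) `x ∈ H`, `f x = 1`: `x = s * l` with `s ∈ closure {ga 0, gb 0}`, `l ∈ Ls` (`St_Frm` (4)), so
`f s = 1` and `s ∈ Ls` by `St_Inh`. -/
def St_Ker : Prop := St_Ext → St_Mov → St_Frm → St_Prp → St_Fng → St_Inh → ∀ {h n : ℕ} {A : Type}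
  [CommGroup A] [Finite A] [IsCyclic A] (H : Subgroup (F (h + 3) n)) (f : F (h + 3) n → A),
  H.index ≠ 0 → 340 * (Nat.log 2 H.index + 1) ≤ h + 1 → Mu H f →
  ∀ x ∈ H, f x = 1 → x ∈ Ls H f

/-! ### Part D: Putman-Wieland -/

open Pool.Agent.PWK Pool.Agent.PWI

/-- (Adx) Additive extension.  Proof.  The first part of the proof of `PWK.thm_EXT` (PWK/EXT): `tr N f Hw` for the weights `Hw q = 1` if `q` is in the image of `M`, else `0`; the normality of `M` is not used there. -/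
def St_Adx : Prop := ∀ (g n : ℕ) (N M : Subgroup (F g n)) (f : F g n → ℚ), Good N f → N ≤ M →
  (∀ m ∈ M, ∀ x ∈ N, f (m * x * m⁻¹) = f x) →
  ∃ f1 : F g n → ℚ, (∀ x ∈ M, ∀ y ∈ M, f1 (x * y) = f1 x + f1 y) ∧ ∀ x ∈ N, f1 x = f x

/-- (Kls) A class with finite orbit which is invariant under `M` vanishes if `M` is generated by simple curves.
Proof.  `St_Adx`: `f1`.  For `x = φ (gb i) ∈ M`, `φ ∈ MCG`: by `St_Mov` (1) `i` may be the first handle `z`; `L > 0` with `x ^ L ∈ N` (`exists_exp`), `Good.kill_b'`: `f (x ^ L) = 0`, so `f1 x = f1 (x ^ L) / L = 0`.  `f1` is additive on `M` and vanishes on generators (closure induction inside `M`), so it vanishes on `M ≥ N`. -/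
def St_Kls : Prop := St_Mov → St_Adx → ∀ (g n : ℕ) (N M : Subgroup (F g n)) (f : F g n → ℚ),
  Good N f → N ≤ M → (∀ m ∈ M, ∀ x ∈ N, f (m * x * m⁻¹) = f x) →
  M ≤ Subgroup.closure {x | x ∈ M ∧ Sm x} → ∀ x ∈ N, f x = 0

/-- (Avg) The mean over a group.  Proof.  `N` has finite index in `M`; `ι` = the (finite) set of the cosets `m N`, `m ∈ M` (`M ⧸ N.subgroupOf M`), `m j` representatives, `F1 x = ∑ j, f ((m j * w)⁻¹ * x * (m j * w))`; `Fine` by `PWK.thm_COM`, invariance: left multiplication by `m ∈ M` permutes the cosets, and `f` is invariant under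
conjugation by `N` (`AddOn.conj_eq`).  The last claim: `Rt N (m j) v = v`, sum over `j`; `v x = ∑ k, c k * f ((w k)⁻¹ * x * w k)`, so `|ι| * v x = ∑ j, ∑ k, c k * f ((w k)⁻¹ * ((m j)⁻¹ * x * m j) * w k) = ∑ k, c k * F1_(w k) x = 0` (`(m j * w)⁻¹ * x * (m j * w)`). -/
def St_Avg : Prop := St_COM → ∀ (g n : ℕ) (N M : Subgroup (F g n)) [hN : N.Normal] (f : F g n → ℚ),
  Fine N f → N ≤ M →
  (∀ f1 : F g n → ℚ, Fine N f1 → (∀ m ∈ M, ∀ x ∈ N, f1 (m * x * m⁻¹) = f1 x) → ∀ x ∈ N, f1 x = 0) →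
  ∀ v : N → ℂ, (∀ m ∈ M, Rt N m v = v) →
  (∃ (ι : Type) (_ : Fintype ι) (c : ι → ℂ) (w : ι → F g n), ∀ x : N,
      v x = ∑ j, c j * ((f ((w j)⁻¹ * x * w j) : ℚ) : ℂ)) → v = 0

/-- every irreducible complex representation of the deck group of the Galois closure of the cover `K` with a
nonzero vector fixed by `K` has a line which is stable under a subgroup of index at most `d`, or a kernel with the property `P` -/
def Lin {g n : ℕ} (K : Subgroup (F g n)) (d : ℕ) (P : Subgroup (F g n) → Prop) : Prop :=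
  ∀ (V : Type) [AddCommGroup V] [Module ℂ V] [FiniteDimensional ℂ V]
    (ρ : Representation ℂ (F g n) V), (∀ x ∈ K.normalCore, ρ x = 1) →
    (∀ U : Submodule ℂ V, (∀ w, ∀ v ∈ U, ρ w v ∈ U) → U = ⊥ ∨ U = ⊤) →
    (∃ v : V, v ≠ 0 ∧ ∀ k ∈ K, ρ k v = v) →
    (∃ H : Subgroup (F g n), H.index ≠ 0 ∧ H.index ≤ d ∧
      ∃ v : V, v ≠ 0 ∧ ∀ x ∈ H, ∃ z : ℂ, ρ x v = z • v) ∨
    ∃ M : Subgroup (F g n), P M ∧ ∀ x, x ∈ M ↔ ρ x = 1

/-- (Vli) One representation.  `N` normal of finite index, `f` a class with finite orbit, `V` a stable irreducible space of translates.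
Proof.  `v ∈ V`, `v ≠ 0`, `H₀ = {x | ∃ z, Rt N x v = z • v}` is a subgroup (`Rt N x` is injective, so `z ≠ 0`), `H ≤ H₀`, so `H₀.index ≠ 0`, `H₀.index ≤ d` (`Subgroup.index_dvd_of_le`), `N ≤ H₀` (`N` acts trivially on `v`: `f` is additive on `N`).  `χ : H₀ →* ℂˣ`, `χ x = z` (unique as `v ≠ 0`), `N ≤ ker χ`, so the range `A` of `χ` is finite and cyclic
(a finite subgroup of `ℂˣ`).  `fA x = χ x` for `x ∈ H₀`, `1` otherwise: `Mu H₀ fA`.  The last hypothesis (`St_Ker`): `M = {x ∈ H₀ | fA x = 1} = {x | Rt N x v = v}` is generated by its simple curves.  `St_Avg` with `St_Kls` for this `M`: `v = 0`. -/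
def St_Vli : Prop := St_COM → St_Avg → St_Kls → St_Mov → St_Adx → ∀ (g n d : ℕ)
  (N H : Subgroup (F g n)) [hN : N.Normal] (f : F g n → ℚ), Fine N f →
  H.index ≠ 0 → H.index ≤ d → ∀ v : N → ℂ,
  (∀ x ∈ H, ∃ z : ℂ, Rt N x v = z • v) → (∀ x ∈ N, Rt N x v = v) →
  (∃ (ι : Type) (_ : Fintype ι) (c : ι → ℂ) (w : ι → F g n), ∀ x : N,
      v x = ∑ j, c j * ((f ((w j)⁻¹ * x * w j) : ℚ) : ℂ)) →
  (∀ {A : Type} [CommGroup A] [Finite A] [IsCyclic A] (H₀ : Subgroup (F g n)) (fA : F g n → A),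
    H₀.index ≠ 0 → H₀.index ≤ d → Mu H₀ fA → ∀ x ∈ H₀, fA x = 1 → x ∈ Ls H₀ fA) → v = 0

/-- (Fin) Putman-Wieland for representations with eigenlines of subgroups of small index.
Proof.  Suppose the orbit of `f` is finite.  As in `PWI.infinite_of_irr` (PWI/Irr; start from a copy of this proof): `Fine K.normalCore (ext0 K f)` (see PWK/PRT), `St_SIM` gives `V`; `ρ` = the restriction of `Rt`.  In the first case of `Lin`: `H` and `v`, a nonzero element of `V`;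
`St_Vli` says `v = 0`.  In the second case `M` is the kernel of `ρ`: the end of the proof of `infinite_of_irr`. -/
def St_Fin : Prop := St_SIM → St_COM → St_Vli → St_Avg → St_Kls → St_Mov → St_Adx →
  ∀ (g n d : ℕ) (K : Subgroup (F g n)) (P : Subgroup (F g n) → Prop) [K.FiniteIndex],
  bdry g n ∈ K.normalCore → Lin K d P →
  (∀ M : Subgroup (F g n), P M → K.normalCore ≤ M → M.Normal → ∀ f1 : F g n → ℚ, Fine M f1 →
    ∀ x ∈ M, f1 x = 0) →
  (∀ {A : Type} [CommGroup A] [Finite A] [IsCyclic A] (H₀ : Subgroup (F g n)) (fA : F g n → A),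
    H₀.index ≠ 0 → H₀.index ≤ d → Mu H₀ fA → ∀ x ∈ H₀, fA x = 1 → x ∈ Ls H₀ fA) →
  ∀ f : K → ℚ, IsClass K f → f ≠ 0 → (orbit K f).Infinite

end Pool.Agent.PWG
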