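import Pool.Agent.PWG.StC
import Pool.Agent.PWG.Cst
import Pool.Agent.PWI.Van

/-!
# Campaign PWG: vanishing of the classes with finite orbits of normal subgroups (helper1)

As PWI/Van, for the cost `Cost9`.
-/

set_option autoImplicit false

namespace Pool.Agent.PWG

open Pool.Agent.PW Pool.Agent.PWK Pool.Agent.PWS Pool.Agent.PWY Pool.Agent.PWB Pool.Agent.PWI

variable {g n : ℕ}

/-- A handle of a finite quotient. -/
theorem go9 (hH : St_Hnd) {C : ℕ} (hC0 : 340 ≤ C)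
    (hC : ∀ (p : ℕ) [Fact p.Prime] (ρ : F C 0 →* SL p), Dead ρ)
    {Q : Type} [Group Q] [Finite Q] {s : ℕ} {D : Subgroup Q}
    (hc : Cost9 C Q s D) (hs : s ≤ g) (ρ : F g n →* Q) (hρ : Function.Surjective ρ) :
    ∃ φ ∈ MCG g n, Inv (g - s) D (ρ.comp (MulEquiv.toMonoidHom φ)) :=
  go_of_cost9 (st_KCyc st_KEuc) st_KChr (st_KChief (st_KPair (st_KSlide st_KConj)))
    (st_KFrat st_KPush) (Pool.Agent.PWX.st_Ind Pool.Agent.PWX.st_Real) Pool.Agent.PWH.all_Sol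
    hH hC0 hC hc hs ρ hρ

/-- an abelian normal subgroup of small cost -/
theorem van9_block (hH : St_Hnd) {C : ℕ} (hC0 : 340 ≤ C)
    (hC : ∀ (p : ℕ) [Fact p.Prime] (ρ : F C 0 →* SL p), Dead ρ)
    (M : Subgroup (F g n)) [M.Normal] (hMf : M.FiniteIndex) (hR : bdry g n ∈ M)
    (B : Subgroup (F g n ⧸ M)) [B.Normal] (hB : ∀ x ∈ B, ∀ y ∈ B, x * y = y * x)
    {s : ℕ} {D : Subgroup (F g n ⧸ M)} (hs : s + 2 ≤ g) (hDB : D ≤ B)
    (hc : Cost9 C (F g n ⧸ M) s D) :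
    ∀ f1 : F g n → ℚ, Fine M f1 → ∀ x ∈ M, f1 x = 0 := by
  refine van_of_infinite fun f hf h0 => ?_
  have hfin : Finite (F g n ⧸ M) := Subgroup.finite_quotient_of_finiteIndex
  obtain ⟨φ, hφ, h1⟩ := go9 hH hC0 hC hc (by omega)
    (QuotientGroup.mk' M) (QuotientGroup.mk'_surjective _)
  have e : M.normalCore = M := Subgroup.normalCore_eq_self M
  let π : F g n ⧸ M →* Deck M := QuotientGroup.map M M.normalCore (MonoidHom.id _) (by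
    intro x hx
    show x ∈ M.normalCore
    rwa [e])
  have hπ : Function.Surjective π := by
    intro y
    obtain ⟨x, rfl⟩ := QuotientGroup.mk_surjective y
    exact ⟨(x : F g n ⧸ M), rfl⟩
  have hBn : (B.map π).Normal := Subgroup.Normal.map inferInstance π hπ
  refine infinite_of_block (by omega) M (by rwa [e]) (B.map π) ?_ hφ (fun i hi => ?_) hf h0
  · rintro _ ⟨x, hx, rfl⟩ _ ⟨y, hy, rfl⟩
    rw [← map_mul, ← map_mul, hB x hx y hy]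
  · have h2 := h1 i (by omega)
    exact ⟨⟨_, hDB h2.1, rfl⟩, ⟨_, hDB h2.2, rfl⟩⟩

/-- a central subgroup of small cost -/
theorem van9_central (hH : St_Hnd) {C : ℕ} (hC0 : 340 ≤ C)
    (hC : ∀ (p : ℕ) [Fact p.Prime] (ρ : F C 0 →* SL p), Dead ρ)
    (M : Subgroup (F g n)) [M.Normal] (hMf : M.FiniteIndex)
    {s : ℕ} {D : Subgroup (F g n ⧸ M)} (hs : s + 1 ≤ g) (hDB : D ≤ Subgroup.center _)
    (hc : Cost9 C (F g n ⧸ M) s D) :
    ∀ f1 : F g n → ℚ, Fine M f1 → ∀ x ∈ M, f1 x = 0 := by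
  intro f1 hf1 x hx
  have hfin : Finite (F g n ⧸ M) := Subgroup.finite_quotient_of_finiteIndex
  obtain ⟨θ, hθ, h1⟩ := go9 hH hC0 hC hc (by omega)
    (QuotientGroup.mk' M) (QuotientGroup.mk'_surjective _)
  have hg : 0 < g := by omega
  have h2 := hDB (h1 ⟨0, hg⟩ (by simp only; omega)).1
  have hf2 := (thm_ORB g n).2 M f1 hf1 θ hθ
  have hcen : ∀ x, cm (ga ⟨0, hg⟩) x ∈ M.comap θ.toMonoidHom := by
    intro x
    show θ (cm (ga ⟨0, hg⟩) x) ∈ M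
    have h3 := Subgroup.mem_center_iff.1 h2 ((θ x : F g n) : F g n ⧸ M)
    have e : θ (cm (ga ⟨0, hg⟩) x) = (θ (ga ⟨0, hg⟩) * θ x) * (θ x * θ (ga ⟨0, hg⟩))⁻¹ := by
      simp [cm, mul_assoc]
    rw [e, ← QuotientGroup.eq_one_iff]
    have h4 : ((θ x * θ (ga ⟨0, hg⟩) : F g n) : F g n ⧸ M) =
        ((θ (ga ⟨0, hg⟩) * θ x : F g n) : F g n ⧸ M) := h3
    rw [QuotientGroup.mk_mul, QuotientGroup.mk_inv, h4, mul_inv_cancel]
  have hz := central_fine g n hg _ _ hf2 hcen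
  have h5 : θ (θ⁻¹ x) = x := by simp
  have h6 := hz (θ⁻¹ x) (by
    show θ (θ⁻¹ x) ∈ M
    rwa [h5])
  simpa [h5] using h6

/-- The property of the kernels (second case of `Lin`). -/
def Pk (C : ℕ) {g n : ℕ} (M : Subgroup (F g n)) : Prop :=
  ∃ _ : M.Normal, (9 ≤ g ∧ derivedSeries (F g n ⧸ M) 2 = ⊥) ∨
    (∃ (s : ℕ) (D : Subgroup (F g n ⧸ M)), s + 1 ≤ g ∧ D ≤ Subgroup.center (F g n ⧸ M) ∧
      Cost9 C (F g n ⧸ M) s D) ∨
    ∃ (B : Subgroup (F g n ⧸ M)) (_ : B.Normal), (∀ x ∈ B, ∀ y ∈ B, x * y = y * x) ∧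
      ∃ (s : ℕ) (D : Subgroup (F g n ⧸ M)), s + 2 ≤ g ∧ D ≤ B ∧ Cost9 C (F g n ⧸ M) s D

theorem van_pk (hH : St_Hnd) {C : ℕ} (hC0 : 340 ≤ C)
    (hC : ∀ (p : ℕ) [Fact p.Prime] (ρ : F C 0 →* SL p), Dead ρ)
    (M : Subgroup (F g n)) (hP : Pk C M) (hMf : M.FiniteIndex) (hR : bdry g n ∈ M) :
    ∀ f1 : F g n → ℚ, Fine M f1 → ∀ x ∈ M, f1 x = 0 := by
  obtain ⟨hM, ⟨h1, h2⟩ | ⟨s, D, hs, hD, hc⟩ | ⟨B, hBn, hB, s, D, hs, hD, hc⟩⟩ := hP
  · exact van_metabelian h1 M hMf hR h2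
  · exact van9_central hH hC0 hC M hMf hs hD hc
  · exact van9_block hH hC0 hC M hMf hR B hB hs hD hc

end Pool.Agent.PWG
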